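import Pool.Agent.Y302.Tri.Four
import Pool.Agent.Y302.Trunc.Levels

/-!
Weighted sums over triads: skew symmetry and bounds.
-/

set_option autoImplicit false

open Set Filter Topology
open scoped ComplexConjugate

namespace Pool.Agent.Y302.Tri

open Pool.Agent.Y302.Trunc (K3)

/-- A weight on the triads `{p, q, -(p + q)}`: a bounded real function of the pair `(p, q)` which
only depends on the unordered triple `{p, q, -(p + q)}` up to its sign. -/
structure IsWeight (η : K3 → K3 → ℝ) : Prop where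
  symm : ∀ p q, η q p = η p q
  third : ∀ p q, η p (-(p + q)) = η p q
  neg : ∀ p q, η (-p) (-q) = η p q
  bdd : ∃ C, ∀ p q, |η p q| ≤ C

/-- `∑ⱼ aⱼ(p) qⱼ` -/
noncomputable def dt (a : Fin 3 → K3 → ℂ) (p q : K3) : ℂ := ∑ j, a j p * (q j : ℂ)

/-- `∑ⱼ |qⱼ|` -/
noncomputable def N1 (q : K3) : ℝ := ∑ j, |(q j : ℝ)|

lemma N1_nonneg (q : K3) : 0 ≤ N1 q := Finset.sum_nonneg fun _ _ => abs_nonneg _

/-- Regular sequences of coefficients. -/
structure Reg (a : Fin 3 → K3 → ℂ) : Prop where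
  cj : ∀ i k, conj (a i k) = a i (-k)
  div : ∀ p, dt a p p = 0
  s0 : ∀ i, Summable fun k => ‖a i k‖
  s1 : ∀ i, Summable fun k => N1 k * ‖a i k‖

/-- `∑ᵢ |aᵢ(k)|` -/
noncomputable def sz (a : Fin 3 → K3 → ℂ) (k : K3) : ℝ := ∑ i, ‖a i k‖

lemma sz_nonneg (a : Fin 3 → K3 → ℂ) (k : K3) : 0 ≤ sz a k :=
  Finset.sum_nonneg fun _ _ => norm_nonneg _

lemma le_sz (a : Fin 3 → K3 → ℂ) (i : Fin 3) (k : K3) : ‖a i k‖ ≤ sz a k :=
  Finset.single_le_sum (f := fun i => ‖a i k‖) (fun _ _ => norm_nonneg _) (Finset.mem_univ i)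

lemma norm_dt_le (a : Fin 3 → K3 → ℂ) (p q : K3) : ‖dt a p q‖ ≤ sz a p * N1 q := by
  unfold dt sz
  rw [Finset.sum_mul]
  refine (norm_sum_le _ _).trans (Finset.sum_le_sum fun j _ => ?_)
  rw [norm_mul, Complex.norm_intCast]
  refine mul_le_mul_of_nonneg_left ?_ (norm_nonneg _)
  exact Finset.single_le_sum (f := fun j => |(q j : ℝ)|) (fun _ _ => abs_nonneg _)
    (Finset.mem_univ j)

lemma norm_dot_le (a b : Fin 3 → K3 → ℂ) (k q : K3) :
    ‖∑ i, conj (a i k) * b i q‖ ≤ sz a k * sz b q := by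
  have h : ∑ i, ‖conj (a i k) * b i q‖ ≤ ∑ i, ‖a i k‖ * sz b q := by
    refine Finset.sum_le_sum fun i _ => ?_
    rw [norm_mul, RCLike.norm_conj]
    exact mul_le_mul_of_nonneg_left (le_sz b i q) (norm_nonneg _)
  refine (norm_sum_le _ _).trans (h.trans (le_of_eq ?_))
  rw [← Finset.sum_mul]
  rfl

lemma Reg.sz0 {a : Fin 3 → K3 → ℂ} (h : Reg a) : Summable (sz a) := by
  unfold sz
  exact summable_sum fun i _ => h.s0 i

lemma Reg.sz1 {a : Fin 3 → K3 → ℂ} (h : Reg a) : Summable fun k => N1 k * sz a k := by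
  unfold sz
  simp only [Finset.mul_sum]
  exact summable_sum fun i _ => h.s1 i

lemma Reg.sub {a b : Fin 3 → K3 → ℂ} (ha : Reg a) (hb : Reg b) : Reg (fun i k => a i k - b i k) where
  cj i k := by rw [map_sub, ha.cj, hb.cj]
  div p := by
    have h1 := ha.div p
    have h2 := hb.div p
    unfold dt at h1 h2 ⊢
    simp only [sub_mul, Finset.sum_sub_distrib, h1, h2, sub_zero]
  s0 i := by
    refine Summable.of_nonneg_of_le (fun _ => norm_nonneg _) (fun k => norm_sub_le _ _)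
      ((ha.s0 i).add (hb.s0 i))
  s1 i := by
    refine Summable.of_nonneg_of_le (fun k => mul_nonneg (N1_nonneg k) (norm_nonneg _))
      (fun k => ?_) ((ha.s1 i).add (hb.s1 i))
    rw [← mul_add]
    exact mul_le_mul_of_nonneg_left (norm_sub_le _ _) (N1_nonneg k)

lemma Reg.zero : Reg (fun _ _ => 0) where
  cj i k := by simp
  div p := by simp [dt]
  s0 i := by simp
  s1 i := by simp

/-- Change of variables. -/
def shear : K3 × K3 ≃ K3 × K3 where
  toFun x := (x.1 - x.2, x.2)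
  invFun x := (x.1 + x.2, x.2)
  left_inv x := by simp
  right_inv x := by simp

lemma summable_shear {f g : K3 → ℝ} (hf : Summable f) (hg : Summable g) (hf0 : ∀ k, 0 ≤ f k)
    (hg0 : ∀ k, 0 ≤ g k) : Summable fun x : K3 × K3 => f (x.1 - x.2) * g x.2 := by
  have h := hf.mul_of_nonneg hg hf0 hg0
  exact (shear.summable_iff (f := fun x : K3 × K3 => f x.1 * g x.2)).2 h

lemma hasSum_shear {f g : K3 → ℝ} {a b : ℝ} (hf : HasSum f a) (hg : HasSum g b)
    (hf0 : ∀ k, 0 ≤ f k) (hg0 : ∀ k, 0 ≤ g k) :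
    HasSum (fun x : K3 × K3 => f (x.1 - x.2) * g x.2) (a * b) := by
  have h := hf.mul hg (hf.summable.mul_of_nonneg hg.summable hf0 hg0)
  exact (shear.hasSum_iff (f := fun x : K3 × K3 => f x.1 * g x.2)).2 h

/-- The general summand. -/
noncomputable def tm (η : K3 → K3 → ℝ) (a b c : Fin 3 → K3 → ℂ) (x : K3 × K3) : ℂ :=
  (η (x.1 - x.2) x.2 : ℂ) * dt a (x.1 - x.2) x.2 * ∑ i, conj (c i x.1) * b i x.2

variable {η : K3 → K3 → ℝ} {C : ℝ} {a b c w u : Fin 3 → K3 → ℂ}

lemma norm_tm_le (hC : ∀ p q, |η p q| ≤ C) (x : K3 × K3) :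
    ‖tm η a b c x‖ ≤ C * (sz a (x.1 - x.2) * (N1 x.2 * sz b x.2) * sz c x.1) := by
  have hC0 : 0 ≤ C := (abs_nonneg _).trans (hC 0 0)
  unfold tm
  rw [norm_mul, norm_mul, Complex.norm_real, Real.norm_eq_abs]
  calc |η (x.1 - x.2) x.2| * ‖dt a (x.1 - x.2) x.2‖ * ‖∑ i, conj (c i x.1) * b i x.2‖
      ≤ C * (sz a (x.1 - x.2) * N1 x.2) * (sz c x.1 * sz b x.2) := by
        refine mul_le_mul (mul_le_mul (hC _ _) (norm_dt_le _ _ _) (norm_nonneg _) hC0)
          (norm_dot_le _ _ _ _) (norm_nonneg _) ?_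
        exact mul_nonneg hC0 (mul_nonneg (sz_nonneg _ _) (N1_nonneg _))
    _ = _ := by ring

lemma sz_le_tsum (hc : Reg c) (k : K3) : sz c k ≤ ∑' m, sz c m :=
  hc.sz0.le_tsum k fun _ _ => sz_nonneg _ _

lemma summable_tm (hC : ∀ p q, |η p q| ≤ C) (ha : Reg a) (hb : Reg b) (hc : Reg c) :
    Summable (tm η a b c) := by
  have hC0 : 0 ≤ C := (abs_nonneg _).trans (hC 0 0)
  refine Summable.of_norm ?_
  have h := summable_shear ha.sz0 hb.sz1 (sz_nonneg a)
    (fun k => mul_nonneg (N1_nonneg k) (sz_nonneg b k))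
  refine Summable.of_nonneg_of_le (fun _ => norm_nonneg _) (fun x => ?_)
    (h.mul_left (C * ∑' m, sz c m))
  refine (norm_tm_le hC x).trans ?_
  calc C * (sz a (x.1 - x.2) * (N1 x.2 * sz b x.2) * sz c x.1)
      ≤ C * (sz a (x.1 - x.2) * (N1 x.2 * sz b x.2) * ∑' m, sz c m) := by
        refine mul_le_mul_of_nonneg_left (mul_le_mul_of_nonneg_left (sz_le_tsum hc _) ?_) hC0
        exact mul_nonneg (sz_nonneg _ _) (mul_nonneg (N1_nonneg _) (sz_nonneg _ _))
    _ = _ := by ring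

lemma dt_neg_right (p q : K3) : dt a p (-q) = -dt a p q := by
  unfold dt
  simp

lemma dt_add_right (p q r : K3) : dt a p (q + r) = dt a p q + dt a p r := by
  unfold dt
  simp [mul_add, Finset.sum_add_distrib]

lemma weight_swap (hη : IsWeight η) (k q : K3) : η (q - k) k = η (k - q) q := by
  have h1 := hη.neg (k - q) q
  have h2 := hη.third (q - k) (-q)
  rw [neg_sub] at h1
  have e : -(q - k + -q) = k := by abel
  rw [e] at h2
  rw [h2, h1]

/-- Skew symmetry. -/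
lemma tm_swap (hη : IsWeight η) (ha : Reg a) (x : K3 × K3) : conj (tm η a b b x) = tm η a b b x.swap := by
  obtain ⟨k, q⟩ := x
  unfold tm
  simp only [Prod.swap_prod_mk, map_mul, map_sum, Complex.conj_ofReal, Complex.conj_conj]
  have h1 : conj (dt a (k - q) q) = dt a (q - k) k := by
    have h2 : conj (dt a (k - q) q) = dt a (q - k) q := by
      unfold dt
      rw [map_sum]
      refine Finset.sum_congr rfl fun j _ => ?_
      rw [map_mul, ha.cj, neg_sub, map_intCast]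
    have h3 := ha.div (q - k)
    have e : q - k = q + -k := sub_eq_add_neg _ _
    rw [h2]
    have h4 : dt a (q - k) (q - k) = dt a (q - k) q - dt a (q - k) k := by
      conv_lhs => rw [show dt a (q - k) (q - k) = dt a (q - k) (q + -k) by rw [← e]]
      rw [dt_add_right, dt_neg_right]
      ring
    rw [h4] at h3
    exact sub_eq_zero.1 h3
  rw [h1, weight_swap hη k q]
  congr 1
  exact Finset.sum_congr rfl fun i _ => mul_comm _ _

lemma im_tsum_tm (hη : IsWeight η) (ha : Reg a) : (∑' x, tm η a b b x).im = 0 := by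
  have h1 : conj (∑' x, tm η a b b x) = ∑' x, tm η a b b x := by
    rw [Complex.conj_tsum]
    simp only [tm_swap hη ha]
    exact (Equiv.prodComm K3 K3).tsum_eq (tm η a b b)
  exact Complex.conj_eq_iff_im.1 h1

lemma summable_sz_sq (ha : Reg a) : Summable fun k => sz a k ^ 2 := by
  refine Summable.of_nonneg_of_le (fun k => sq_nonneg _) (fun k => ?_)
    (ha.sz0.mul_left (∑' m, sz a m))
  rw [sq]
  exact mul_le_mul_of_nonneg_right (sz_le_tsum ha k) (sz_nonneg _ _)

lemma norm_tm_le2 (hC : ∀ p q, |η p q| ≤ C) (x : K3 × K3) :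
    ‖tm η a b a x‖ ≤ C / 2 * (sz a (x.1 - x.2) ^ 2 * (N1 x.2 * sz b x.2)
      + sz a x.1 ^ 2 * (N1 x.2 * sz b x.2)) := by
  have hC0 : 0 ≤ C := (abs_nonneg _).trans (hC 0 0)
  refine (norm_tm_le hC x).trans ?_
  have h0 : 0 ≤ N1 x.2 * sz b x.2 := mul_nonneg (N1_nonneg _) (sz_nonneg _ _)
  generalize N1 x.2 * sz b x.2 = U at *
  generalize sz a (x.1 - x.2) = X at *
  generalize sz a x.1 = Y at *
  have h5 : 0 ≤ C / 2 * (U * (X - Y) ^ 2) := by positivity
  have h6 : C / 2 * (X ^ 2 * U + Y ^ 2 * U) - C * (X * U * Y) = C / 2 * (U * (X - Y) ^ 2) := by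
    ring
  linarith

lemma sz_sq_le (k : K3) : sz a k ^ 2 ≤ 3 * ∑ i, ‖a i k‖ ^ 2 := by
  unfold sz
  rw [Fin.sum_univ_three, Fin.sum_univ_three]
  nlinarith [sq_nonneg (‖a 0 k‖ - ‖a 1 k‖), sq_nonneg (‖a 0 k‖ - ‖a 2 k‖),
    sq_nonneg (‖a 1 k‖ - ‖a 2 k‖)]

lemma summable_sq (ha : Reg a) : Summable fun k => ∑ i, ‖a i k‖ ^ 2 := by
  refine Summable.of_nonneg_of_le (fun k => Finset.sum_nonneg fun i _ => sq_nonneg _)
    (fun k => ?_) ((summable_sz_sq ha).mul_left 3)
  calc ∑ i, ‖a i k‖ ^ 2 ≤ ∑ _i : Fin 3, sz a k ^ 2 :=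
        Finset.sum_le_sum fun i _ => pow_le_pow_left₀ (norm_nonneg _) (le_sz a i k) 2
    _ = 3 * sz a k ^ 2 := by simp

/-- The quadratic bound. -/
lemma norm_tsum_tm_le (hC : ∀ p q, |η p q| ≤ C) (ha : Reg a) (hb : Reg b) :
    ‖∑' x, tm η a b a x‖ ≤ 3 * C * (∑' q, N1 q * sz b q) * ∑' k, ∑ i, ‖a i k‖ ^ 2 := by
  have hC0 : 0 ≤ C := (abs_nonneg _).trans (hC 0 0)
  have hsq := summable_sz_sq ha
  have hU := hb.sz1
  have hU0 : ∀ k, 0 ≤ N1 k * sz b k := fun k => mul_nonneg (N1_nonneg k) (sz_nonneg b k)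
  have hq0 : ∀ k, 0 ≤ sz a k ^ 2 := fun k => sq_nonneg _
  have h1 := hasSum_shear hsq.hasSum hU.hasSum hq0 hU0
  have h2 := hsq.hasSum.mul hU.hasSum (hsq.mul_of_nonneg hU hq0 hU0)
  have h3 := ((h1.add h2).mul_left (C / 2))
  have h7 := tsum_of_norm_bounded h3 (norm_tm_le2 hC)
  have h8 : (∑' k, sz a k ^ 2) ≤ 3 * ∑' k, ∑ i, ‖a i k‖ ^ 2 := by
    rw [← tsum_mul_left]
    exact hsq.tsum_le_tsum sz_sq_le ((summable_sq ha).mul_left 3)
  have hL0 : 0 ≤ ∑' q, N1 q * sz b q := tsum_nonneg hU0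
  generalize (∑' q, N1 q * sz b q) = L at *
  generalize (∑' k, sz a k ^ 2) = S at *
  calc ‖∑' x, tm η a b a x‖ ≤ C / 2 * (S * L + S * L) := h7
    _ = C * L * S := by ring
    _ ≤ C * L * (3 * ∑' k, ∑ i, ‖a i k‖ ^ 2) :=
        mul_le_mul_of_nonneg_left h8 (mul_nonneg hC0 hL0)
    _ = _ := by ring

/-- The nonlinear term at the frequency `k`, component `i`: the summand. -/
noncomputable def nl (η : K3 → K3 → ℝ) (a b : Fin 3 → K3 → ℂ) (k : K3) (i : Fin 3) (q : K3) : ℂ :=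
  (η (k - q) q : ℂ) * (Complex.I * dt a (k - q) q) * b i q

lemma summable_nl (hC : ∀ p q, |η p q| ≤ C) (ha : Reg a) (hb : Reg b) (k : K3) (i : Fin 3) :
    Summable (nl η a b k i) := by
  have hC0 : 0 ≤ C := (abs_nonneg _).trans (hC 0 0)
  refine Summable.of_norm (Summable.of_nonneg_of_le (fun _ => norm_nonneg _) (fun q => ?_)
    (hb.sz1.mul_left (C * ∑' m, sz a m)))
  unfold nl
  rw [norm_mul, norm_mul, norm_mul, Complex.norm_I, one_mul, Complex.norm_real, Real.norm_eq_abs]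
  calc |η (k - q) q| * ‖dt a (k - q) q‖ * ‖b i q‖
      ≤ C * ((∑' m, sz a m) * N1 q) * sz b q := by
        refine mul_le_mul (mul_le_mul (hC _ _) ((norm_dt_le _ _ _).trans ?_) (norm_nonneg _) hC0)
          (le_sz _ _ _) (norm_nonneg _) ?_
        · exact mul_le_mul_of_nonneg_right (sz_le_tsum ha _) (N1_nonneg _)
        · exact mul_nonneg hC0 (mul_nonneg (tsum_nonneg fun _ => sz_nonneg _ _) (N1_nonneg _))
    _ = _ := by ring

/-- The energy estimate for the difference of two solutions, on the level of coefficients. -/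
theorem energy_bound (hη : IsWeight η) (hC : ∀ p q, |η p q| ≤ C) (hw : Reg w) (hu : Reg u) {S : ℝ}
    (hS : HasSum (fun k => ∑ i, conj (w i k - u i k)
      * (-(∑' q, nl η w w k i q) - -(∑' q, nl η u u k i q))) (S : ℂ)) :
    |S| ≤ 3 * C * (∑' q, N1 q * sz u q) * ∑' k, ∑ i, ‖w i k - u i k‖ ^ 2 := by
  set d : Fin 3 → K3 → ℂ := fun i k => w i k - u i k with hd
  have hdr : Reg d := hw.sub hu
  have s1 := summable_tm hC hw hdr hdr
  have s2 := summable_tm hC hdr hu hdr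
  have h1 : HasSum (fun x => -Complex.I * (tm η w d d x + tm η d u d x))
      (-Complex.I * ((∑' x, tm η w d d x) + ∑' x, tm η d u d x)) :=
    (s1.hasSum.add s2.hasSum).mul_left _
  have h2 : ∀ k, HasSum (fun q => -Complex.I * (tm η w d d (k, q) + tm η d u d (k, q)))
      (∑ i, conj (d i k) * (-(∑' q, nl η w w k i q) - -(∑' q, nl η u u k i q))) := by
    intro k
    have h3 : ∀ i, HasSum (fun q => conj (d i k) * (-(nl η w w k i q) - -(nl η u u k i q)))
        (conj (d i k) * (-(∑' q, nl η w w k i q) - -(∑' q, nl η u u k i q))) := fun i =>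
      ((summable_nl hC hw hw k i).hasSum.neg.sub (summable_nl hC hu hu k i).hasSum.neg).mul_left _
    have h4 := hasSum_sum (s := Finset.univ) fun i _ => h3 i
    refine h4.congr_fun fun q => ?_
    have e1 : dt d (k - q) q = dt w (k - q) q - dt u (k - q) q := by
      unfold dt
      rw [← Finset.sum_sub_distrib]
      exact Finset.sum_congr rfl fun j _ => by rw [hd]; ring
    unfold tm nl
    simp only [e1, Finset.mul_sum, ← Finset.sum_add_distrib]
    refine Finset.sum_congr rfl fun i _ => ?_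
    have e2 : w i q = d i q + u i q := by rw [hd]; ring
    rw [e2]
    ring
  have h5 := h1.prod_fiberwise h2
  have h6 := hS.unique h5
  have h7 : S = (-Complex.I * ((∑' x, tm η w d d x) + ∑' x, tm η d u d x)).re := by
    rw [← h6, Complex.ofReal_re]
  have h8 : (-Complex.I * ((∑' x, tm η w d d x) + ∑' x, tm η d u d x)).re
      = (∑' x, tm η d u d x).im := by
    have := im_tsum_tm (b := d) hη hw
    simp [this]
  rw [h7, h8]
  exact (Complex.abs_im_le_norm _).trans (norm_tsum_tm_le hC hdr hu)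

end Pool.Agent.Y302.Tri
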