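import Pool.Agent.Y302.Trunc.Defs
import Pool.Agent.Y302.Tri.Skew

/-!
Energy of the difference of two fields: the parts which do not use the equation.
-/

set_option autoImplicit false

open Set Filter Topology MeasureTheory

namespace Pool.Agent.Y302.Tri

open Pool.Agent.H708R2.EulerSign (V Periodic3 Dom divergence grad sum_mul_clm sum_mul_clm'
  divergence_eq_sum contDiff_slice sq3 sq3_nonneg sq3_eq_zero sq3_contDiff hasFDerivAt_sq3
  quad_bound divergence_smul dom_bdd dom_meas dom_lt_top integral_divergence_eq_zero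
  eq_zero_of_integral_eq_zero continuous_grad)
open Pool.Agent.H708R2.EulerModes
open Pool.Agent.Y302.Trunc (K3)

/-- Regular divergence free fields with a pressure. -/
structure Base (I : Set ℝ) (u : ℝ → V → V) (p : ℝ → V → ℝ) : Prop where
  contDiffOn_u : ContDiffOn ℝ 1 (fun z : ℝ × V => u z.1 z.2) (I ×ˢ univ)
  contDiffOn_p : ContDiffOn ℝ 1 (fun z : ℝ × V => p z.1 z.2) (I ×ˢ univ)
  periodic_u : ∀ t ∈ I, Periodic3 (u t)
  periodic_p : ∀ t ∈ I, Periodic3 (p t)
  div_free : ∀ t ∈ I, ∀ x, divergence (u t) x = 0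

/-- The linear part `∂ₜ uᵢ + ∂ᵢ p` of the equation. -/
noncomputable def lin (I : Set ℝ) (u : ℝ → V → V) (p : ℝ → V → ℝ) (t : ℝ) (i : Fin 3)
    (x : V) : ℝ :=
  derivWithin (fun s => u s x i) I t + fderiv ℝ (p t) x (Pi.single i 1)

variable {T : ℝ} {w u : ℝ → V → V} {q p : ℝ → V → ℝ}

/-- The energy of the difference. -/
noncomputable def en (w u : ℝ → V → V) (t : ℝ) : ℝ := ∫ x in Dom, sq3 (w t x - u t x)

lemma en_nonneg (t : ℝ) : 0 ≤ en w u t := integral_nonneg fun _ => sq3_nonneg _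

lemma Base.mono {T' : ℝ} (hw : Base (Ico 0 T) w q) (hT' : T' ≤ T) : Base (Ico 0 T') w q := by
  have hsub : Ico (0 : ℝ) T' ⊆ Ico 0 T := Ico_subset_Ico_right hT'
  exact ⟨hw.contDiffOn_u.mono (prod_mono hsub subset_rfl),
    hw.contDiffOn_p.mono (prod_mono hsub subset_rfl), fun t ht => hw.periodic_u t (hsub ht),
    fun t ht => hw.periodic_p t (hsub ht), fun t ht => hw.div_free t (hsub ht)⟩

lemma lin_mono {T' : ℝ} (hT' : T' ≤ T) {t : ℝ} (ht : t ∈ Ico 0 T') (i : Fin 3) :
    lin (Ico 0 T') w q t i = lin (Ico 0 T) w q t i := by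
  funext x
  unfold lin
  have : derivWithin (fun s => w s x i) (Ico 0 T') t
      = derivWithin (fun s => w s x i) (Ico 0 T) t := by
    refine derivWithin_congr_set ?_
    filter_upwards [Iio_mem_nhds ht.2] with s hs
    apply propext
    constructor
    · intro h; exact ⟨h.1, h.2.trans_le hT'⟩
    · intro h; exact ⟨h.1, hs⟩
  rw [this]

lemma contDiffOn_S (hw : Base (Ico 0 T) w q)
    (hu : Base (Ico 0 T) u p) :
    ContDiffOn ℝ 1 (fun z : ℝ × V => sq3 (w z.1 z.2 - u z.1 z.2)) (Ico 0 T ×ˢ univ) :=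
  sq3_contDiff.comp_contDiffOn (hw.contDiffOn_u.sub hu.contDiffOn_u)

lemma en_continuousOn (hw : Base (Ico 0 T) w q)
    (hu : Base (Ico 0 T) u p) : ContinuousOn (en w u) (Ico 0 T) := by
  intro t ht
  have hS := (contDiffOn_S hw hu).continuousOn
  obtain ⟨b, hb1, hb2⟩ := exists_between ht.2
  have hK : IsCompact (Icc 0 b ×ˢ closure Dom) := isCompact_Icc.prod dom_bdd.isCompact_closure
  have hsub : Icc 0 b ×ˢ closure Dom ⊆ Ico 0 T ×ˢ (univ : Set V) :=
    prod_mono (fun s hs => ⟨hs.1, hs.2.trans_lt hb2⟩) (subset_univ _)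
  obtain ⟨C, hC⟩ := hK.exists_bound_of_continuousOn (hS.mono hsub)
  have hev : ∀ᶠ s in 𝓝[Ico 0 T] t, s ∈ Icc 0 b := by
    have h1 : ∀ᶠ s in 𝓝[Ico 0 T] t, s < b := nhdsWithin_le_nhds (Iio_mem_nhds hb1)
    filter_upwards [h1, self_mem_nhdsWithin] with s hs1 hs2
    exact ⟨hs2.1, hs1.le⟩
  refine continuousWithinAt_of_dominated (bound := fun _ => C) ?_ ?_ ?_ ?_
  · filter_upwards [hev] with s hs
    have : ContDiff ℝ 1 (fun x => sq3 (w s x - u s x)) :=
      contDiff_slice (f := fun s x => sq3 (w s x - u s x)) (contDiffOn_S hw hu)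
        ⟨hs.1, hs.2.trans_lt hb2⟩
    exact this.continuous.aestronglyMeasurable
  · filter_upwards [hev] with s hs
    refine (ae_restrict_iff' dom_meas).2 (Filter.Eventually.of_forall fun x hx => ?_)
    exact hC (s, x) ⟨hs, subset_closure hx⟩
  · exact integrableOn_const dom_lt_top.ne
  · refine Filter.Eventually.of_forall fun x => ?_
    have h1 : ContinuousWithinAt (fun z : ℝ × V => sq3 (w z.1 z.2 - u z.1 z.2))
        (Ico 0 T ×ˢ univ) (t, x) := hS (t, x) ⟨ht, mem_univ _⟩
    exact h1.comp (t := Ico 0 T ×ˢ univ) (f := fun s : ℝ => ((s, x) : ℝ × V))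
      (by fun_prop) (fun s hs => ⟨hs, mem_univ _⟩)

/-- The time derivative of `|w - u|²`. -/
noncomputable def dS (w u : ℝ → V → V) (t : ℝ) (x : V) : ℝ :=
  fderiv ℝ (fun z : ℝ × V => sq3 (w z.1 z.2 - u z.1 z.2)) (t, x) (1, 0)

lemma hasDerivAt_S (hw : Base (Ico 0 T) w q)
    (hu : Base (Ico 0 T) u p) {t : ℝ} (ht : t ∈ Ioo 0 T) (x : V) :
    HasDerivAt (fun s => sq3 (w s x - u s x)) (dS w u t x) t := by
  have hmem : Ico 0 T ×ˢ (univ : Set V) ∈ 𝓝 (t, x) :=
    prod_mem_nhds (Ico_mem_nhds ht.1 ht.2) Filter.univ_mem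
  have h1 : DifferentiableAt ℝ (fun z : ℝ × V => sq3 (w z.1 z.2 - u z.1 z.2)) (t, x) :=
    ((contDiffOn_S hw hu).contDiffAt hmem).differentiableAt one_ne_zero
  have h2 : HasDerivAt (fun s : ℝ => ((s, x) : ℝ × V)) (1, 0) t :=
    (hasDerivAt_id t).prodMk (hasDerivAt_const t x)
  exact h1.hasFDerivAt.comp_hasDerivAt t h2

lemma en_hasDerivAt (hw : Base (Ico 0 T) w q)
    (hu : Base (Ico 0 T) u p) {t : ℝ} (ht : t ∈ Ioo 0 T) :
    HasDerivAt (en w u) (∫ x in Dom, dS w u t x) t := by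
  obtain ⟨a, ha1, ha2⟩ := exists_between ht.1
  obtain ⟨b, hb1, hb2⟩ := exists_between ht.2
  have hO : IsOpen (Ioo 0 T ×ˢ (univ : Set V)) := isOpen_Ioo.prod isOpen_univ
  have hS1 : ContDiffOn ℝ 1 (fun z : ℝ × V => sq3 (w z.1 z.2 - u z.1 z.2)) (Ioo 0 T ×ˢ univ) :=
    (contDiffOn_S hw hu).mono (prod_mono Ioo_subset_Ico_self subset_rfl)
  have hd : ContinuousOn (fun z : ℝ × V =>
      fderiv ℝ (fun z : ℝ × V => sq3 (w z.1 z.2 - u z.1 z.2)) z (1, 0)) (Ioo 0 T ×ˢ univ) :=
    (hS1.continuousOn_fderiv_of_isOpen hO le_rfl).clm_apply continuousOn_const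
  have hK : IsCompact (Icc a b ×ˢ closure Dom) := isCompact_Icc.prod dom_bdd.isCompact_closure
  have hsub : Icc a b ×ˢ closure Dom ⊆ Ioo 0 T ×ˢ (univ : Set V) :=
    prod_mono (fun s hs => ⟨ha1.trans_le hs.1, hs.2.trans_lt hb2⟩) (subset_univ _)
  obtain ⟨C, hC⟩ := hK.exists_bound_of_continuousOn (hd.mono hsub)
  have hslice : ∀ s ∈ Ioo 0 T, Continuous (fun x => sq3 (w s x - u s x)) := fun s hs =>
    (contDiff_slice (f := fun s x => sq3 (w s x - u s x)) (contDiffOn_S hw hu)
        ⟨hs.1.le, hs.2⟩).continuous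
  have hnh : Icc a b ∈ 𝓝 t := Icc_mem_nhds ha2 hb1
  refine (hasDerivAt_integral_of_dominated_loc_of_deriv_le (s := Icc a b)
    (F := fun s x => sq3 (w s x - u s x)) (F' := fun s x => dS w u s x)
    (bound := fun _ => C) (μ := volume.restrict Dom) hnh ?_ ?_ ?_ ?_ ?_ ?_).2
  · filter_upwards [Ioo_mem_nhds ht.1 ht.2] with s hs
    exact (hslice s hs).aestronglyMeasurable
  · have hcl : IntegrableOn (fun x => sq3 (w t x - u t x)) (closure Dom) :=
      (hslice t ht).continuousOn.integrableOn_compact dom_bdd.isCompact_closure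
    exact hcl.mono_set subset_closure
  · have : Continuous (fun x => dS w u t x) := by
      have h := hd.comp_continuous (f := fun x : V => ((t, x) : ℝ × V)) (by fun_prop)
        (fun x => ⟨ht, mem_univ _⟩)
      exact h
    exact this.aestronglyMeasurable
  · refine (ae_restrict_iff' dom_meas).2 (Filter.Eventually.of_forall fun x hx s hs => ?_)
    exact hC (s, x) ⟨hs, subset_closure hx⟩
  · exact integrableOn_const dom_lt_top.ne
  · refine Filter.Eventually.of_forall fun x s hs => ?_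
    exact hasDerivAt_S hw hu ⟨ha1.trans_le hs.1, hs.2.trans_lt hb2⟩ x

/-- The time derivative of the velocity. -/
lemma time_deriv (hw : Base (Ico 0 T) w q) {t : ℝ} (ht : t ∈ Ioo 0 T) (x : V)
    (i : Fin 3) : HasDerivAt (fun s => w s x i)
      (lin (Ico 0 T) w q t i x - fderiv ℝ (q t) x (Pi.single i 1)) t := by
  have hmem : Ico 0 T ×ˢ (univ : Set V) ∈ 𝓝 (t, x) :=
    prod_mem_nhds (Ico_mem_nhds ht.1 ht.2) Filter.univ_mem
  have hline : HasDerivAt (fun s : ℝ => ((s, x) : ℝ × V)) (1, 0) t :=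
    (hasDerivAt_id t).prodMk (hasDerivAt_const t x)
  have hwtime : DifferentiableAt ℝ (fun s => w s x) t := by
    have h1 : DifferentiableAt ℝ (fun z : ℝ × V => w z.1 z.2) (t, x) :=
      (hw.contDiffOn_u.contDiffAt hmem).differentiableAt one_ne_zero
    exact (h1.hasFDerivAt.comp_hasDerivAt t hline).differentiableAt
  have h1 : HasDerivAt (fun s => w s x i) (deriv (fun s => w s x i) t) t :=
    (hasDerivAt_pi.1 hwtime.hasDerivAt i).differentiableAt.hasDerivAt
  refine h1.congr_deriv ?_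
  unfold lin
  rw [derivWithin_of_mem_nhds (Ico_mem_nhds ht.1 ht.2)]
  ring

/-- The linear part is continuous in `x`. -/
lemma lin_continuous (hw : Base (Ico 0 T) w q) {t : ℝ} (ht : t ∈ Ioo 0 T)
    (i : Fin 3) : Continuous (lin (Ico 0 T) w q t i) := by
  have htI : t ∈ Ico 0 T := ⟨ht.1.le, ht.2⟩
  have hqt : ContDiff ℝ 1 (q t) := contDiff_slice hw.contDiffOn_p htI
  have hO : IsOpen (Ioo 0 T ×ˢ (univ : Set V)) := isOpen_Ioo.prod isOpen_univ
  have hS1 : ContDiffOn ℝ 1 (fun z : ℝ × V => w z.1 z.2) (Ioo 0 T ×ˢ univ) :=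
    hw.contDiffOn_u.mono (prod_mono Ioo_subset_Ico_self subset_rfl)
  have hd : ContinuousOn (fun z : ℝ × V =>
      fderiv ℝ (fun z : ℝ × V => w z.1 z.2) z (1, 0)) (Ioo 0 T ×ˢ univ) :=
    (hS1.continuousOn_fderiv_of_isOpen hO le_rfl).clm_apply continuousOn_const
  have h1 : Continuous (fun x : V => fderiv ℝ (fun z : ℝ × V => w z.1 z.2) (t, x) (1, 0) i) :=
    (continuous_apply i).comp (hd.comp_continuous (f := fun x : V => ((t, x) : ℝ × V))
      (by fun_prop) (fun x => ⟨ht, mem_univ _⟩))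
  have h2 : ∀ x, derivWithin (fun s => w s x i) (Ico 0 T) t
      = fderiv ℝ (fun z : ℝ × V => w z.1 z.2) (t, x) (1, 0) i := by
    intro x
    have hmem : Ico 0 T ×ˢ (univ : Set V) ∈ 𝓝 (t, x) :=
      prod_mem_nhds (Ico_mem_nhds ht.1 ht.2) Filter.univ_mem
    have hline : HasDerivAt (fun s : ℝ => ((s, x) : ℝ × V)) (1, 0) t :=
      (hasDerivAt_id t).prodMk (hasDerivAt_const t x)
    have h3 : DifferentiableAt ℝ (fun z : ℝ × V => w z.1 z.2) (t, x) :=
      (hw.contDiffOn_u.contDiffAt hmem).differentiableAt one_ne_zero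
    rw [derivWithin_of_mem_nhds (Ico_mem_nhds ht.1 ht.2)]
    exact (hasDerivAt_pi.1 (h3.hasFDerivAt.comp_hasDerivAt t hline) i).deriv
  have h5 : Continuous (fun x => fderiv ℝ (q t) x (Pi.single i 1)) :=
    (hqt.continuous_fderiv one_ne_zero).clm_apply continuous_const
  unfold lin
  simp only [h2]
  exact h1.add h5

lemma lin_periodic (hw : Base (Ico 0 T) w q) {t : ℝ} (ht : t ∈ Ico 0 T)
    (i : Fin 3) : Periodic3 (lin (Ico 0 T) w q t i) := by
  intro j x
  unfold lin
  have h1 : derivWithin (fun s => w s (x + Pi.single j (2 * Real.pi)) i) (Ico 0 T) t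
      = derivWithin (fun s => w s x i) (Ico 0 T) t :=
    derivWithin_congr (fun s hs => by rw [hw.periodic_u s hs j x])
      (by rw [hw.periodic_u t ht j x])
  rw [h1, (hw.periodic_p t ht).fderiv j x]

/-- The pointwise identity for the difference of two fields. -/
lemma dS_eq (hw : Base (Ico 0 T) w q) (hu : Base (Ico 0 T) u p) {t : ℝ} (ht : t ∈ Ioo 0 T)
    (x : V) :
    dS w u t x = (∑ i, 2 * ((w t x i - u t x i)
        * (lin (Ico 0 T) w q t i x - lin (Ico 0 T) u p t i x)))
      - 2 * divergence (fun y => (q t y - p t y) • (w t y - u t y)) x := by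
  have htI : t ∈ Ico 0 T := ⟨ht.1.le, ht.2⟩
  have hwt : ContDiff ℝ 1 (w t) := contDiff_slice hw.contDiffOn_u htI
  have hqt : ContDiff ℝ 1 (q t) := contDiff_slice hw.contDiffOn_p htI
  have hut : ContDiff ℝ 1 (u t) := contDiff_slice hu.contDiffOn_u htI
  have hpt : ContDiff ℝ 1 (p t) := contDiff_slice hu.contDiffOn_p htI
  have dw : DifferentiableAt ℝ (w t) x := hwt.differentiable one_ne_zero x
  have dq : DifferentiableAt ℝ (q t) x := hqt.differentiable one_ne_zero x
  have du : DifferentiableAt ℝ (u t) x := hut.differentiable one_ne_zero x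
  have dp : DifferentiableAt ℝ (p t) x := hpt.differentiable one_ne_zero x
  have dW : DifferentiableAt ℝ (fun y => w t y - u t y) x := dw.sub du
  have dQ : DifferentiableAt ℝ (fun y => q t y - p t y) x := dq.sub dp
  have hwi := time_deriv hw ht x
  have hui := time_deriv hu ht x
  set A := fun i => lin (Ico 0 T) w q t i x with hA
  set B := fun i => lin (Ico 0 T) u p t i x with hB
  have hSt : HasDerivAt (fun s => sq3 (w s x - u s x))
      (∑ i, 2 * (w t x - u t x) i * ((A i - fderiv ℝ (q t) x (Pi.single i 1))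
        - (B i - fderiv ℝ (p t) x (Pi.single i 1)))) t := by
    unfold sq3
    refine HasDerivAt.fun_sum fun i _ => ?_
    have h := ((hwi i).sub (hui i)).pow 2
    refine h.congr_deriv ?_
    simp [hA, hB]
  rw [(hasDerivAt_S hw hu ht x).unique hSt]
  have hQd : fderiv ℝ (fun y => q t y - p t y) x = fderiv ℝ (q t) x - fderiv ℝ (p t) x :=
    (dq.hasFDerivAt.sub dp.hasFDerivAt).fderiv
  rw [divergence_smul dQ dW, hQd]
  have hWdiv : divergence (fun y => w t y - u t y) x = 0 := by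
    have h1 : fderiv ℝ (fun y => w t y - u t y) x = fderiv ℝ (w t) x - fderiv ℝ (u t) x :=
      (dw.hasFDerivAt.sub du.hasFDerivAt).fderiv
    have h2 := hw.div_free t htI x
    have h3 := hu.div_free t htI x
    rw [divergence_eq_sum] at h2 h3 ⊢
    rw [h1]
    simp only [sub_apply, Pi.sub_apply, Finset.sum_sub_distrib, h2, h3,
      sub_zero]
  rw [hWdiv, ← sum_mul_clm' (fderiv ℝ (q t) x - fderiv ℝ (p t) x)]
  simp only [sub_apply, Pi.sub_apply, mul_zero, zero_add, Finset.mul_sum,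
    ← Finset.sum_sub_distrib]
  refine Finset.sum_congr rfl fun i _ => ?_
  simp only [hA, hB]
  ring

/-- The rate of change of the energy of the difference. -/
lemma int_dS (hw : Base (Ico 0 T) w q) (hu : Base (Ico 0 T) u p) {t : ℝ} (ht : t ∈ Ioo 0 T) :
    ∫ x in Dom, dS w u t x = ∑ i, 2 * ∫ x in Dom, (w t x i - u t x i)
        * (lin (Ico 0 T) w q t i x - lin (Ico 0 T) u p t i x) := by
  have htI : t ∈ Ico 0 T := ⟨ht.1.le, ht.2⟩
  have hwt : ContDiff ℝ 1 (w t) := contDiff_slice hw.contDiffOn_u htI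
  have hqt : ContDiff ℝ 1 (q t) := contDiff_slice hw.contDiffOn_p htI
  have hut : ContDiff ℝ 1 (u t) := contDiff_slice hu.contDiffOn_u htI
  have hpt : ContDiff ℝ 1 (p t) := contDiff_slice hu.contDiffOn_p htI
  have hup := hu.periodic_u t htI
  have hW : ContDiff ℝ 1 (fun y => w t y - u t y) := hwt.sub hut
  have g2 : ContDiff ℝ 1 (fun y => (q t y - p t y) • (w t y - u t y)) := (hqt.sub hpt).smul hW
  have g2p : Periodic3 (fun y => (q t y - p t y) • (w t y - u t y)) := by
    intro i x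
    simp only
    rw [hw.periodic_u t htI i x, hup i x, hw.periodic_p t htI i x, hu.periodic_p t htI i x]
  set X : Fin 3 → V → ℝ := fun i x => (w t x i - u t x i)
        * (lin (Ico 0 T) w q t i x - lin (Ico 0 T) u p t i x) with hX
  have hXp : ∀ i, Periodic3 (X i) := by
    intro i j x
    simp only [hX]
    rw [hw.periodic_u t htI j x, hup j x, lin_periodic hw htI i j x,
      lin_periodic hu htI i j x]
  have hXc : ∀ i, Continuous (X i) := fun i =>
    (((continuous_apply i).comp hwt.continuous).sub ((continuous_apply i).comp hut.continuous)).mul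
      ((lin_continuous hw ht i).sub (lin_continuous hu ht i))
  have iX : ∀ i, IntegrableOn (X i) Dom := fun i => (hXp i).integrableOn (hXc i)
  have iX' : IntegrableOn (fun x => ∑ i, 2 * X i x) Dom :=
    integrable_finsetSum _ fun i _ => (iX i).const_mul 2
  have i2 : IntegrableOn (fun x => divergence (fun y => (q t y - p t y) • (w t y - u t y)) x) Dom :=
    g2p.trace.integrableOn (continuous_grad g2).matrix_trace
  have : ∀ x, dS w u t x = (∑ i, 2 * X i x)
      - 2 * divergence (fun y => (q t y - p t y) • (w t y - u t y)) x :=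
    fun x => dS_eq hw hu ht x
  simp_rw [this]
  rw [integral_sub iX' (i2.const_mul 2), integral_finsetSum _ fun i _ => (iX i).const_mul 2,
    integral_const_mul, integral_divergence_eq_zero g2 g2p]
  simp only [integral_const_mul, mul_zero, sub_zero, hX]

end Pool.Agent.Y302.Tri
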