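import Pool.Agent.Y302.Tri.Uniq

/-!
The Fourier coefficients of the convection term.
-/

set_option autoImplicit false

open Set Filter Topology MeasureTheory
open scoped ComplexConjugate

namespace Pool.Agent.Y302.Tri

open Pool.Agent.H708R2.EulerSign (V Periodic3 Dom divergence)
open Pool.Agent.H708R2.EulerModes
open Pool.Agent.Y302.Trunc (K3)

/-- The convection term. -/
noncomputable def cvt (v : V → V) (i : Fin 3) (x : V) : ℝ :=
  ∑ j, v x j * fderiv ℝ v x (Pi.single j 1) i

variable {v : V → V}

lemma cvt_continuous (hv : ContDiff ℝ 1 v) (i : Fin 3) : Continuous (cvt v i) := by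
  unfold cvt
  refine continuous_finsetSum _ fun j _ => ((continuous_apply j).comp hv.continuous).mul ?_
  exact (continuous_apply i).comp ((hv.continuous_fderiv one_ne_zero).clm_apply continuous_const)

lemma cvt_periodic (hp : Periodic3 v) (i : Fin 3) : Periodic3 (cvt v i) := by
  intro j x
  unfold cvt
  rw [hp j x, hp.fderiv j x]

lemma cf_grad (hv : ContDiff ℝ 1 v) (hp : Periodic3 v) (i j : Fin 3) (k : K3) :
    cf (fun x => fderiv ℝ v x (Pi.single j 1) i) k = Complex.I * (k j : ℂ) * cv v i k := by
  have hvj : ContDiff ℝ 1 (fun x => v x i) := (contDiff_apply ℝ ℝ i).comp hv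
  have h2 := cf_pd (comp_periodic hp i) hvj j k
  have h3 : (fun x => fderiv ℝ (fun x => v x i) x (Pi.single j 1))
      = fun x => fderiv ℝ v x (Pi.single j 1) i := by
    funext x
    have h4 : HasFDerivAt (fun x => v x i)
        ((ContinuousLinearMap.proj i : V →L[ℝ] ℝ).comp (fderiv ℝ v x)) x :=
      (ContinuousLinearMap.proj i : V →L[ℝ] ℝ).hasFDerivAt.comp x
        ((hv.differentiable one_ne_zero) x).hasFDerivAt
    rw [h4.fderiv]
    rfl
  rw [h3] at h2
  exact h2

/-- The convolution formula for the convection term. -/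
theorem cvt_hasSum (hv : ContDiff ℝ 1 v) (hp : Periodic3 v) (i : Fin 3) (k : K3) :
    HasSum (fun q => (Complex.I * dt (cv v) (k - q) q) * cv v i q) (cf (cvt v i) k) := by
  have hc : ∀ j, Continuous (fun x => v x j) := fun j => (continuous_apply j).comp hv.continuous
  have hg : ∀ j, Continuous (fun x => fderiv ℝ v x (Pi.single j 1) i) := fun j =>
    (continuous_apply i).comp ((hv.continuous_fderiv one_ne_zero).clm_apply continuous_const)
  have hgp : ∀ j, Periodic3 (fun x => fderiv ℝ v x (Pi.single j 1) i) := by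
    intro j m x
    simp only
    rw [hp.fderiv m x]
  have h1 := fun j => cf_mul (comp_periodic hp j) (hc j) (hgp j) (hg j) k
  have h2 := hasSum_sum (s := Finset.univ) fun j _ => h1 j
  have h3 : ∑ j, cf (fun x => v x j * fderiv ℝ v x (Pi.single j 1) i) k = cf (cvt v i) k := by
    have hm : ∀ j, Continuous (fun x => v x j * fderiv ℝ v x (Pi.single j 1) i) := fun j =>
      (hc j).mul (hg j)
    have h01 : Continuous (fun x => v x 0 * fderiv ℝ v x (Pi.single 0 1) i
      + v x 1 * fderiv ℝ v x (Pi.single 1 1) i) := (hm 0).add (hm 1)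
    rw [Fin.sum_univ_three, ← cf_add (hm 0) (hm 1), ← cf_add h01 (hm 2)]
    congr 1
    funext x
    unfold cvt
    rw [Fin.sum_univ_three]
  rw [h3] at h2
  refine h2.congr_fun fun q => ?_
  rw [dt, Finset.mul_sum, Finset.sum_mul]
  refine Finset.sum_congr rfl fun j _ => ?_
  rw [cf_grad hv hp]
  unfold cv
  ring

end Pool.Agent.Y302.Tri
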