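import Pool.Agent.Y302.Tri.Sol

/-!
The sets of triads: symmetry and number of elements.
-/

set_option autoImplicit false

open Finset

namespace Pool.Agent.Y302.Tri

open Pool.Agent.Y302.Trunc

/-- Sets of triads. -/
def IsTriadSet (S : Set (K3 × K3)) : Prop :=
  ∀ p q, (p, q) ∈ S → (q, p) ∈ S ∧ (p, -(p + q)) ∈ S ∧ (-p, -q) ∈ S

variable {M : ℕ}

lemma neg_mem_iff (hM : 0 < M) {l : K3} : -l ∈ Cset M ↔ l ∈ Cset M :=
  ⟨fun h => by simpa using neg_mem_Cset hM h, fun h => neg_mem_Cset hM h⟩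

lemma T0_triad (hM : 0 < M) : IsTriadSet (T0 M) := by
  rintro p q ⟨h1, h2, h3, h4⟩
  simp only at h1 h2 h3 h4
  have e1 : p + -(p + q) = -q := by abel
  have e2 : -p + -q = -(p + q) := by abel
  refine ⟨⟨h2, h1, by rwa [add_comm], ?_⟩, ⟨h1, neg_ne_zero.2 h3, ?_, ?_⟩,
    ⟨neg_ne_zero.2 h1, neg_ne_zero.2 h2, ?_, ?_⟩⟩
  · simp only
    rw [add_comm q p]
    tauto
  · simp only
    rw [e1]
    exact neg_ne_zero.2 h2
  · simp only
    rw [e1, neg_mem_iff hM, neg_mem_iff hM]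
    tauto
  · simp only
    rw [e2]
    exact neg_ne_zero.2 h3
  · simp only
    rw [e2, neg_mem_iff hM, neg_mem_iff hM, neg_mem_iff hM]
    exact h4

lemma T1_triad (hM : 0 < M) : IsTriadSet (T1 M) := by
  rintro p q ⟨h1, h2, h3⟩
  simp only at h1 h2 h3
  have e1 : p + -(p + q) = -q := by abel
  have e2 : -p + -q = -(p + q) := by abel
  refine ⟨⟨h2, h1, by rwa [add_comm]⟩, ⟨h1, neg_mem_Cset hM h3, ?_⟩,
    ⟨neg_mem_Cset hM h1, neg_mem_Cset hM h2, ?_⟩⟩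
  · simp only
    rw [e1]
    exact neg_mem_Cset hM h2
  · simp only
    rw [e2]
    exact neg_mem_Cset hM h3

lemma T_disjoint : Disjoint (T0 M) (T1 M) := by
  rw [Set.disjoint_left]
  rintro ⟨p, q⟩ ⟨-, -, -, h4⟩ ⟨h1, h2, h3⟩
  simp only at h1 h2 h3 h4
  tauto

lemma low_of_dvd {p : K3} (h0 : p ≠ 0) (h : ∀ i, (M : ℤ) ∣ p i) : ∃ i, (M : ℤ) ≤ |p i| := by
  obtain ⟨i, hi⟩ : ∃ i, p i ≠ 0 := by
    by_contra hcon
    push Not at hcon
    exact h0 (funext hcon)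
  exact ⟨i, Int.le_of_dvd (abs_pos.2 hi) ((dvd_abs _ _).2 (h i))⟩

lemma T_low (hM : 0 < M) {x : K3 × K3} (hx : x ∈ T0 M ∪ T1 M) : ∃ i, (M : ℤ) ≤ |x.1 i| := by
  rcases hx with ⟨h1, -, -, h4⟩ | ⟨h1, -, -⟩
  · refine low_of_dvd h1 fun i => ?_
    rcases h4 with ⟨h5, -, -⟩ | ⟨h5, -, -⟩ | ⟨-, h5, h6⟩
    · exact dvd_Cset h5 i
    · exact dvd_Cset h5 i
    · have e : x.1 i = (x.1 + x.2) i - x.2 i := by simp
      rw [e]
      exact dvd_sub (dvd_Cset h6 i) (dvd_Cset h5 i)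
  · exact low_of_dvd (fun h0 => zero_not_mem_Cset hM (h0 ▸ h1)) fun i => dvd_Cset h1 i

/-- The frequencies of the chain in a cube. -/
lemma level_lt' (hM : 0 < M) {n N : ℕ} {l : K3} (hl : l ∈ Lev M n) (hb : ∀ p, |l p| ≤ N) :
    n < 4 * (Nat.log 8 N + 1) := by
  obtain ⟨p, hp⟩ := Lev_low hM hl
  have h1 := hb p
  have h3 : (8 : ℤ) ^ (n / 4) ≤ sg M n := by
    unfold sg
    have : (1 : ℤ) ≤ M := by exact_mod_cast hM
    nlinarith [pow_pos (by norm_num : (0 : ℤ) < 8) (n / 4)]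
  have h2 : (8 : ℤ) ^ (n / 4) ≤ N := by
    have := sg_pos hM n
    linarith
  have h4 : 8 ^ (n / 4) ≤ N := by exact_mod_cast h2
  have hN : N ≠ 0 := by
    rintro rfl
    have := pow_pos (by norm_num : 0 < 8) (n / 4)
    omega
  have h5 := Nat.le_log_of_pow_le (by norm_num) h4
  omega

/-- The number of levels. -/
def m1 (N : ℕ) : ℕ := 4 * (Nat.log 8 (2 * N) + 1)

lemma m1_le {N : ℕ} (hN : 2 ≤ N) : (m1 N : ℝ) ≤ 10 * Real.log N := by
  have hN0 : (0 : ℝ) < N := by exact_mod_cast (by omega : 0 < N)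
  have h3 : Real.log 2 ≤ Real.log N := Real.log_le_log (by norm_num) (by exact_mod_cast hN)
  have hl2 := Real.log_two_gt_d9
  have hl2' := Real.log_two_lt_d9
  have h6 := Real.natLog_le_logb (2 * N) 8
  have h7 : Real.logb (8 : ℕ) ((2 * N : ℕ) : ℝ) = (Real.log 2 + Real.log N) / (3 * Real.log 2) := by
    rw [Real.logb]
    push_cast
    rw [Real.log_mul (by norm_num) hN0.ne', show (8 : ℝ) = 2 ^ (3 : ℕ) by norm_num, Real.log_pow]
    norm_num
  rw [h7] at h6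
  have h8 : (Real.log 2 + Real.log N) / (3 * Real.log 2) = 1 / 3 + Real.log N / (3 * Real.log 2) := by
    field_simp
  rw [h8] at h6
  have h9 : Real.log N / (3 * Real.log 2) ≤ Real.log N / 2 :=
    div_le_div_of_nonneg_left (by linarith) (by norm_num) (by linarith)
  unfold m1
  push_cast
  linarith

/-- The frequencies of the chain up to `2 N`. -/
def LL (M N : ℕ) : Finset K3 := (range (m1 N)).biUnion (Lev M)

lemma card_LL (M N : ℕ) : (LL M N).card ≤ 24 * m1 N := by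
  unfold LL
  refine (card_biUnion_le_card_mul _ _ 24 fun n _ => card_Lev M n).trans ?_
  rw [card_range, mul_comm]

lemma mem_LL (hM : 0 < M) {N : ℕ} {l : K3} (hl : l ∈ Cset M) (hb : ∀ p, |l p| ≤ 2 * N) :
    l ∈ LL M N := by
  obtain ⟨n, hn⟩ := hl
  refine mem_biUnion.2 ⟨n, mem_range.2 ?_, hn⟩
  have := level_lt' hM (N := 2 * N) hn (by exact_mod_cast hb)
  exact this

/-- The removed triads are sparse. -/
theorem count_T0 (hM : 0 < M) {N : ℕ} (hN : 2 ≤ N) :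
    ({x ∈ T0 M | ∀ i, |x.1 i| ≤ N ∧ |x.2 i| ≤ N}.ncard : ℝ) ≤ 172800 * Real.log N ^ 2 := by
  classical
  set L2 : Finset (K3 × K3) := LL M N ×ˢ LL M N with hL2
  set S : Finset (K3 × K3) := L2 ∪ (L2.image (fun x => (x.1, x.2 - x.1))
    ∪ L2.image (fun x => (x.1 - x.2, x.2))) with hS
  have hsub : {x ∈ T0 M | ∀ i, |x.1 i| ≤ N ∧ |x.2 i| ≤ N} ⊆ (S : Set (K3 × K3)) := by
    rintro ⟨p, q⟩ ⟨⟨h1, h2, h3, h4⟩, hb⟩
    simp only at h1 h2 h3 h4 hb
    have hN0 : (0 : ℤ) ≤ N := by positivity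
    have hp : ∀ i, |p i| ≤ 2 * N := fun i => (hb i).1.trans (by linarith)
    have hq : ∀ i, |q i| ≤ 2 * N := fun i => (hb i).2.trans (by linarith)
    have hpq : ∀ i, |(p + q) i| ≤ 2 * N := by
      intro i
      rw [Pi.add_apply]
      have := abs_add_le (p i) (q i)
      linarith [(hb i).1, (hb i).2]
    rw [mem_coe, hS, mem_union, mem_union]
    rcases h4 with ⟨h5, h6, -⟩ | ⟨h5, -, h6⟩ | ⟨-, h5, h6⟩
    · exact Or.inl (mem_product.2 ⟨mem_LL hM h5 hp, mem_LL hM h6 hq⟩)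
    · exact Or.inr (Or.inl (mem_image.2 ⟨(p, p + q),
        mem_product.2 ⟨mem_LL hM h5 hp, mem_LL hM h6 hpq⟩, by simp⟩))
    · exact Or.inr (Or.inr (mem_image.2 ⟨(p + q, q),
        mem_product.2 ⟨mem_LL hM h6 hpq, mem_LL hM h5 hq⟩, by simp⟩))
  have h1 : {x ∈ T0 M | ∀ i, |x.1 i| ≤ N ∧ |x.2 i| ≤ N}.ncard ≤ S.card := by
    rw [← Set.ncard_coe_finset]
    exact Set.ncard_le_ncard hsub (Finset.finite_toSet S)
  have h2 : L2.card ≤ (24 * m1 N) * (24 * m1 N) := by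
    rw [hL2, card_product]
    exact Nat.mul_le_mul (card_LL M N) (card_LL M N)
  have h3 : S.card ≤ 3 * ((24 * m1 N) * (24 * m1 N)) := by
    have a1 := card_union_le L2 (L2.image (fun x => (x.1, x.2 - x.1))
      ∪ L2.image (fun x => (x.1 - x.2, x.2)))
    have a2 := card_union_le (L2.image (fun x => (x.1, x.2 - x.1)))
      (L2.image (fun x => (x.1 - x.2, x.2)))
    have a3 := card_image_le (s := L2) (f := fun x => (x.1, x.2 - x.1))
    have a4 := card_image_le (s := L2) (f := fun x => (x.1 - x.2, x.2))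
    rw [← hS] at a1
    omega
  have h4 := m1_le hN
  have h5 : (0 : ℝ) ≤ m1 N := Nat.cast_nonneg _
  calc ({x ∈ T0 M | ∀ i, |x.1 i| ≤ N ∧ |x.2 i| ≤ N}.ncard : ℝ)
      ≤ (3 * ((24 * m1 N) * (24 * m1 N)) : ℕ) := by exact_mod_cast h1.trans h3
    _ = 1728 * (m1 N : ℝ) ^ 2 := by push_cast; ring
    _ ≤ 1728 * (10 * Real.log N) ^ 2 := by gcongr
    _ = _ := by ring

/-- The kept triads are sparse. -/
theorem count_T1 (hM : 0 < M) {N : ℕ} (hN : 2 ≤ N) :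
    ({x ∈ T1 M | ∀ i, |x.1 i| ≤ N ∧ |x.2 i| ≤ N}.ncard : ℝ) ≤ 17280 * Real.log N := by
  classical
  set S : Finset (K3 × K3) := (range (m1 N)).biUnion fun n =>
    (Lev M n ×ˢ Lev M n) ∪ ((Lev M n ×ˢ Lev M (n + 1)) ∪ (Lev M (n + 1) ×ˢ Lev M n)) with hS
  have hlev : ∀ {l : K3} {n : ℕ}, l ∈ Lev M n → (∀ i, |l i| ≤ N) → n < m1 N := by
    intro l n hl hb
    have hN0 : (0 : ℤ) ≤ N := by positivity
    exact level_lt' hM (N := 2 * N) hl (fun i => by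
      have := hb i
      push_cast
      linarith)
  have hsub : {x ∈ T1 M | ∀ i, |x.1 i| ≤ N ∧ |x.2 i| ≤ N} ⊆ (S : Set (K3 × K3)) := by
    rintro ⟨p, q⟩ ⟨⟨⟨n, hn⟩, ⟨m, hm⟩, ⟨j, hj⟩⟩, hb⟩
    simp only at hn hm hj hb
    have hn' := hlev hn fun i => (hb i).1
    have hm' := hlev hm fun i => (hb i).2
    rw [mem_coe, hS, mem_biUnion]
    rcases classify hM hn hm hj with ⟨h1, -⟩ | ⟨-, h1⟩ | ⟨-, h1⟩
    · subst h1
      exact ⟨n, mem_range.2 hn', mem_union_left _ (mem_product.2 ⟨hn, hm⟩)⟩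
    · subst h1
      exact ⟨n, mem_range.2 hn', mem_union_right _ (mem_union_left _ (mem_product.2 ⟨hn, hm⟩))⟩
    · subst h1
      exact ⟨m, mem_range.2 hm', mem_union_right _ (mem_union_right _ (mem_product.2 ⟨hn, hm⟩))⟩
  have h1 : {x ∈ T1 M | ∀ i, |x.1 i| ≤ N ∧ |x.2 i| ≤ N}.ncard ≤ S.card := by
    rw [← Set.ncard_coe_finset]
    exact Set.ncard_le_ncard hsub (Finset.finite_toSet S)
  have hc : ∀ n m, (Lev M n ×ˢ Lev M m).card ≤ 576 := by
    intro n m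
    rw [card_product]
    calc (Lev M n).card * (Lev M m).card ≤ 24 * 24 :=
          Nat.mul_le_mul (card_Lev _ _) (card_Lev _ _)
      _ = 576 := by norm_num
  have h3 : S.card ≤ m1 N * 1728 := by
    refine (card_biUnion_le_card_mul _ _ 1728 fun n _ => ?_).trans (le_of_eq (by
      rw [card_range]))
    have a1 := card_union_le (Lev M n ×ˢ Lev M n)
      ((Lev M n ×ˢ Lev M (n + 1)) ∪ (Lev M (n + 1) ×ˢ Lev M n))
    have a2 := card_union_le (Lev M n ×ˢ Lev M (n + 1)) (Lev M (n + 1) ×ˢ Lev M n)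
    have b1 := hc n n
    have b2 := hc n (n + 1)
    have b3 := hc (n + 1) n
    omega
  have h4 := m1_le hN
  calc ({x ∈ T1 M | ∀ i, |x.1 i| ≤ N ∧ |x.2 i| ≤ N}.ncard : ℝ)
      ≤ (m1 N * 1728 : ℕ) := by exact_mod_cast h1.trans h3
    _ = (m1 N : ℝ) * 1728 := by push_cast; ring
    _ ≤ (10 * Real.log N) * 1728 := by gcongr
    _ = _ := by ring

end Pool.Agent.Y302.Tri
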