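import Pool.Agent.Y302.Trunc.Orth
import Pool.Agent.H459R3.NS.Phys

/-!
Complex Fourier coefficients of continuous functions on the torus.
-/

set_option autoImplicit false

open MeasureTheory Set Filter Topology
open scoped ComplexConjugate Pointwise

namespace Pool.Agent.Y302.Tri

open Pool.Agent.H708R2.EulerSign (V Periodic3 Dom dom_lt_top dom_meas)
open Pool.Agent.H708R2.EulerModes
open Pool.Agent.Y302.Trunc

attribute [local instance] instMeasureSpaceUnitAddCircle

local instance : Measure.IsAddHaarMeasure (volume : Measure UnitAddCircle) :=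
  inferInstanceAs (Measure.IsAddHaarMeasure AddCircle.haarAddCircle)

local instance : IsProbabilityMeasure (volume : Measure UnitAddCircle) :=
  inferInstanceAs (IsProbabilityMeasure AddCircle.haarAddCircle)

/-- The Fourier coefficient. -/
noncomputable def cf (f : V → ℝ) (k : Fin 3 → ℤ) : ℂ := H459R3.NS.fc (resc f) k

/-- The reciprocal of the volume. -/
noncomputable def vi : ℝ := ((2 * Real.pi) ^ Module.finrank ℝ V)⁻¹

lemma vi_pos : 0 < vi := by unfold vi; positivity

lemma vi_eq : vi = ((2 * Real.pi) ^ 3)⁻¹ := by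
  unfold vi
  rw [Module.finrank_fin_fun]

/-- Parseval's identity for complex functions of period one. -/
lemma parseval_c {f g : V → ℂ} (hf : H459R3.NS.Per f) (hfc : Continuous f)
    (hg : H459R3.NS.Per g) (hgc : Continuous g) :
    HasSum (fun k => conj (H459R3.NS.fc f k) * H459R3.NS.fc g k)
      (∫ y in H459R3.NS.cube, conj (f y) * g y) := by
  let F : C(UnitAddTorus (Fin 3), ℂ) := ⟨H459R3.NS.lift f, H459R3.NS.lift_continuous hf hfc⟩
  let G : C(UnitAddTorus (Fin 3), ℂ) := ⟨H459R3.NS.lift g, H459R3.NS.lift_continuous hg hgc⟩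
  have hF : ∀ k, UnitAddTorus.mFourierCoeff F k = H459R3.NS.fc f k := fun k =>
    H459R3.NS.fc_eq hf k
  have hG : ∀ k, UnitAddTorus.mFourierCoeff G k = H459R3.NS.fc g k := fun k =>
    H459R3.NS.fc_eq hg k
  have hs := UnitAddTorus.hasSum_prod_mFourierCoeff (F.toLp 2 volume ℂ) (G.toLp 2 volume ℂ)
  simp only [UnitAddTorus.mFourierCoeff_toLp, hF, hG] at hs
  have h4 : ∫ t, conj ((F.toLp 2 volume ℂ) t) * (G.toLp 2 volume ℂ) t
      = ∫ t, conj (F t) * G t := by
    refine integral_congr_ae ?_
    filter_upwards [ContinuousMap.coeFn_toLp (p := 2) (𝕜 := ℂ) volume F,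
      ContinuousMap.coeFn_toLp (p := 2) (𝕜 := ℂ) volume G]
      with t h1 h2
    rw [h1, h2]
  rw [h4, H459R3.NS.integral_torus] at hs
  have h5 : ∀ y : V, conj (F (H459R3.NS.cov y)) * G (H459R3.NS.cov y) = conj (f y) * g y := by
    intro y
    have e1 : F (H459R3.NS.cov y) = f y := H459R3.NS.lift_cov hf y
    have e2 : G (H459R3.NS.cov y) = g y := H459R3.NS.lift_cov hg y
    rw [e1, e2]
  simp only [h5] at hs
  exact hs

lemma cf_conj (f : V → ℝ) (k : Fin 3 → ℤ) : conj (cf f k) = cf f (-k) := by
  unfold cf H459R3.NS.fc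
  rw [← integral_conj]
  congr 1
  funext y
  rw [map_mul, ← H459R3.NS.ee_neg, neg_neg]
  congr 1
  unfold resc
  rw [Complex.conj_ofReal]

/-- Parseval's identity. -/
lemma parseval {f g : V → ℝ} (hf : Periodic3 f) (hfc : Continuous f) (hg : Periodic3 g)
    (hgc : Continuous g) :
    HasSum (fun k => conj (cf f k) * cf g k) ((vi * ∫ x in Dom, f x * g x : ℝ) : ℂ) := by
  have h := parseval_c (resc_per hf) (resc_continuous hfc) (resc_per hg) (resc_continuous hgc)
  have h5 : ∀ y : V, conj (resc f y) * resc g y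
      = (fun x : V => ((f x * g x : ℝ) : ℂ)) ((2 * Real.pi) • y) := by
    intro y
    unfold resc
    rw [Complex.conj_ofReal]
    push_cast
    rfl
  simp only [h5] at h
  rw [integral_resc (fun x : V => ((f x * g x : ℝ) : ℂ)), integral_complex_ofReal] at h
  rw [Complex.real_smul] at h
  have e : ((vi * ∫ x in Dom, f x * g x : ℝ) : ℂ)
      = (((((2 * Real.pi) ^ Module.finrank ℝ V)⁻¹ : ℝ)) : ℂ)
        * ((∫ x in Dom, f x * g x : ℝ) : ℂ) := by
    rw [← Complex.ofReal_mul]
    rfl
  rw [e]
  exact h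

/-- The convolution theorem. -/
lemma cf_mul {f g : V → ℝ} (hf : Periodic3 f) (hfc : Continuous f) (hg : Periodic3 g)
    (hgc : Continuous g) (k : Fin 3 → ℤ) :
    HasSum (fun q => cf f (k - q) * cf g q) (cf (fun x => f x * g x) k) := by
  have h := parseval_c (f := fun y => H459R3.NS.ee k y * resc f y) (g := resc g)
    ((H459R3.NS.ee_per k).mul (resc_per hf))
    ((H459R3.NS.ee_continuous k).mul (resc_continuous hfc)) (resc_per hg) (resc_continuous hgc)
  have e1 : ∀ q, H459R3.NS.fc (fun y => H459R3.NS.ee k y * resc f y) q = cf f (q - k) := by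
    intro q
    unfold cf H459R3.NS.fc
    congr 1
    funext y
    rw [← mul_assoc, ← H459R3.NS.ee_add_left]
    congr 2
    abel
  have e2 : ∀ q, conj (cf f (q - k)) = cf f (k - q) := by
    intro q
    rw [cf_conj, neg_sub]
  simp only [e1, e2] at h
  have e3 : ∫ y in H459R3.NS.cube, conj (H459R3.NS.ee k y * resc f y) * resc g y
      = cf (fun x => f x * g x) k := by
    unfold cf H459R3.NS.fc
    congr 1
    funext y
    rw [map_mul, ← H459R3.NS.ee_neg]
    unfold resc
    rw [Complex.conj_ofReal]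
    push_cast
    ring
  rw [e3] at h
  exact h

lemma cf_add {f g : V → ℝ} (hfc : Continuous f) (hgc : Continuous g) (k : Fin 3 → ℤ) :
    cf (fun x => f x + g x) k = cf f k + cf g k := by
  unfold cf H459R3.NS.fc
  have e : ∀ y, H459R3.NS.ee (-k) y * resc (fun x => f x + g x) y
      = H459R3.NS.ee (-k) y * resc f y + H459R3.NS.ee (-k) y * resc g y := by
    intro y
    unfold resc
    push_cast
    ring
  simp only [e]
  exact integral_add (H459R3.NS.integrableOn_cube
    ((H459R3.NS.ee_continuous _).mul (resc_continuous hfc))) (H459R3.NS.integrableOn_cube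
    ((H459R3.NS.ee_continuous _).mul (resc_continuous hgc)))

lemma cf_sub {f g : V → ℝ} (hfc : Continuous f) (hgc : Continuous g) (k : Fin 3 → ℤ) :
    cf (fun x => f x - g x) k = cf f k - cf g k := by
  unfold cf H459R3.NS.fc
  have e : ∀ y, H459R3.NS.ee (-k) y * resc (fun x => f x - g x) y
      = H459R3.NS.ee (-k) y * resc f y - H459R3.NS.ee (-k) y * resc g y := by
    intro y
    unfold resc
    push_cast
    ring
  simp only [e]
  exact integral_sub (H459R3.NS.integrableOn_cube
    ((H459R3.NS.ee_continuous _).mul (resc_continuous hfc))) (H459R3.NS.integrableOn_cube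
    ((H459R3.NS.ee_continuous _).mul (resc_continuous hgc)))

lemma cf_zero (k : Fin 3 → ℤ) : cf (fun _ => (0 : ℝ)) k = 0 := by
  unfold cf H459R3.NS.fc resc
  simp

/-- The coefficient in terms of the integrals against cosine and sine. -/
lemma cf_eq {f : V → ℝ} (hf : Periodic3 f) (hc : Continuous f) (k : Fin 3 → ℤ) :
    cf f k = (vi : ℂ) * (((∫ x in Dom, f x * Real.cos (ph k x) : ℝ) : ℂ)
      - ((∫ x in Dom, f x * Real.sin (ph k x) : ℝ) : ℂ) * Complex.I) := by
  have ic : IntegrableOn (fun x => f x * Real.cos (ph k x)) Dom := by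
    refine Periodic3.integrableOn ?_
      (hc.mul (Real.continuous_cos.comp (ph_contDiff k).continuous))
    intro j x
    have := cos_periodic k j x
    simp only at this ⊢
    rw [this, hf j x]
  have is : IntegrableOn (fun x => f x * Real.sin (ph k x)) Dom := by
    refine Periodic3.integrableOn ?_
      (hc.mul (Real.continuous_sin.comp (ph_contDiff k).continuous))
    intro j x
    have := sin_periodic k j x
    simp only at this ⊢
    rw [this, hf j x]
  have e : ∀ y : V, H459R3.NS.ee (-k) y * resc f y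
      = (fun x : V => ((f x * Real.cos (ph k x) : ℝ) : ℂ)
        - ((f x * Real.sin (ph k x) : ℝ) : ℂ) * Complex.I) ((2 * Real.pi) • y) := by
    intro y
    simp only [ph_resc]
    unfold resc H459R3.NS.ee
    rw [H459R3.NS.ph_neg]
    have e1 : (2 * Real.pi * Complex.I * ((-H459R3.NS.ph k y : ℝ) : ℂ))
        = ((-(2 * Real.pi * H459R3.NS.ph k y) : ℝ) : ℂ) * Complex.I := by push_cast; ring
    rw [e1, Complex.exp_mul_I, ← Complex.ofReal_cos, ← Complex.ofReal_sin, Real.cos_neg,
      Real.sin_neg]
    push_cast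
    ring
  unfold cf H459R3.NS.fc
  simp only [e]
  rw [integral_resc (fun x : V => ((f x * Real.cos (ph k x) : ℝ) : ℂ)
        - ((f x * Real.sin (ph k x) : ℝ) : ℂ) * Complex.I),
    integral_sub ic.ofReal (is.ofReal.mul_const _), integral_mul_const, integral_complex_ofReal,
    integral_complex_ofReal, Complex.real_smul]
  rfl

/-- Differentiation. -/
lemma cf_pd {f : V → ℝ} (hf : Periodic3 f) (hc : ContDiff ℝ 1 f) (j : Fin 3) (k : Fin 3 → ℤ) :
    cf (fun x => fderiv ℝ f x (Pi.single j 1)) k = Complex.I * (k j : ℂ) * cf f k := by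
  have hd : ∀ y, HasFDerivAt (resc f)
      (Complex.ofRealCLM.comp ((fderiv ℝ f ((2 * Real.pi) • y)).comp
        ((2 * Real.pi) • ContinuousLinearMap.id ℝ V))) y := by
    intro y
    have h1 : HasFDerivAt (fun y : V => (2 * Real.pi) • y)
        ((2 * Real.pi) • ContinuousLinearMap.id ℝ V) y :=
      ((2 * Real.pi) • ContinuousLinearMap.id ℝ V).hasFDerivAt
    have h2 := ((hc.differentiable one_ne_zero) ((2 * Real.pi) • y)).hasFDerivAt.comp y h1
    exact Complex.ofRealCLM.hasFDerivAt.comp y h2
  have hrc : ContDiff ℝ 1 (resc f) := by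
    have h1 : ContDiff ℝ 1 (fun y : V => (2 * Real.pi) • y) := contDiff_const_smul _
    exact Complex.ofRealCLM.contDiff.comp (hc.comp h1)
  have hee : ContDiff ℝ 1 (H459R3.NS.ee (-k)) := H459R3.NS.ee_contDiff _
  have h0 := H459R3.NS.integral_pd (f := fun y => H459R3.NS.ee (-k) y * resc f y)
    (hee.mul hrc) ((H459R3.NS.ee_per _).mul (resc_per hf)) j
  have h3 : ∀ y, H459R3.NS.pd j (fun y => H459R3.NS.ee (-k) y * resc f y) y
      = (2 * Real.pi : ℂ) * (H459R3.NS.ee (-k) y * resc (fun x => fderiv ℝ f x (Pi.single j 1)) y)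
        - (2 * Real.pi : ℂ) * Complex.I * (k j : ℂ) * (H459R3.NS.ee (-k) y * resc f y) := by
    intro y
    have hph : HasFDerivAt (H459R3.NS.ph (-k))
        (∑ i, ((-k) i : ℝ) • (ContinuousLinearMap.proj i : V →L[ℝ] ℝ)) y := by
      unfold H459R3.NS.ph
      exact HasFDerivAt.fun_sum fun i _ =>
        ((ContinuousLinearMap.proj i : V →L[ℝ] ℝ).hasFDerivAt).const_mul _
    have h4 : HasFDerivAt (H459R3.NS.ee (-k))
        (H459R3.NS.ee (-k) y • ((2 * Real.pi * Complex.I : ℂ) •
          Complex.ofRealCLM.comp (∑ i, ((-k) i : ℝ) • (ContinuousLinearMap.proj i : V →L[ℝ] ℝ))))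
          y := by
      have h5 := (Complex.ofRealCLM.hasFDerivAt.comp y hph).const_mul
        (2 * Real.pi * Complex.I : ℂ)
      exact h5.cexp
    have h6 := (h4.mul (hd y)).fderiv
    have h7 : H459R3.NS.pd j (fun y => H459R3.NS.ee (-k) y * resc f y) y
        = fderiv ℝ (H459R3.NS.ee (-k) * resc f) y (Pi.single j 1) := rfl
    rw [h7, h6]
    have h8 : (∑ i, ((-k) i : ℝ) • (ContinuousLinearMap.proj i : V →L[ℝ] ℝ)) (Pi.single j 1)
        = -(k j : ℝ) := by
      simp [Pi.single_apply]
    simp only [add_apply, smul_apply, ContinuousLinearMap.comp_apply, h8, smul_eq_mul,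
      Complex.ofRealCLM_apply, ContinuousLinearMap.id_apply, map_smul]
    unfold resc
    push_cast
    ring
  simp only [h3] at h0
  have hcd : Continuous (fun x => fderiv ℝ f x (Pi.single j 1)) :=
    (hc.continuous_fderiv one_ne_zero).clm_apply continuous_const
  have i1 : IntegrableOn (fun y => H459R3.NS.ee (-k) y
      * resc (fun x => fderiv ℝ f x (Pi.single j 1)) y) H459R3.NS.cube :=
    H459R3.NS.integrableOn_cube ((H459R3.NS.ee_continuous _).mul (resc_continuous hcd))
  have i2 : IntegrableOn (fun y => H459R3.NS.ee (-k) y * resc f y) H459R3.NS.cube :=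
    H459R3.NS.integrableOn_cube ((H459R3.NS.ee_continuous _).mul (resc_continuous hc.continuous))
  rw [integral_sub (i1.const_mul _) (i2.const_mul _), integral_const_mul,
    integral_const_mul] at h0
  have hpi : (2 * Real.pi : ℂ) ≠ 0 := by
    have := Real.pi_pos.ne'
    exact mul_ne_zero two_ne_zero (by exact_mod_cast this)
  have h9 : (2 * Real.pi : ℂ) * (cf (fun x => fderiv ℝ f x (Pi.single j 1)) k
      - Complex.I * (k j : ℂ) * cf f k) = 0 := by
    unfold cf H459R3.NS.fc
    rw [← h0]
    ring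
  exact sub_eq_zero.1 ((mul_eq_zero.1 h9).resolve_left hpi)

end Pool.Agent.Y302.Tri
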