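import Pool.Agent.Y302.Tri.Conv
import Pool.Agent.H708R2.EulerTypeI.Defs

/-!
Conservation of helicity: the algebra.
-/

set_option autoImplicit false

open Set Filter Topology
open scoped ComplexConjugate

namespace Pool.Agent.Y302.Tri

open Pool.Agent.Y302.Trunc (K3)

/-- The coefficients of the curl. -/
noncomputable def om (a : Fin 3 → K3 → ℂ) : Fin 3 → K3 → ℂ
  | 0, k => Complex.I * ((k 1 : ℂ) * a 2 k - (k 2 : ℂ) * a 1 k)
  | 1, k => Complex.I * ((k 2 : ℂ) * a 0 k - (k 0 : ℂ) * a 2 k)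
  | 2, k => Complex.I * ((k 0 : ℂ) * a 1 k - (k 1 : ℂ) * a 0 k)

variable {η : K3 → K3 → ℝ} {C : ℝ} {a b c w : Fin 3 → K3 → ℂ}

lemma norm_om_le (i : Fin 3) (k : K3) : ‖om a i k‖ ≤ N1 k * sz a k := by
  have key : ∀ (m n p q : Fin 3), ‖Complex.I * ((k m : ℂ) * a p k - (k n : ℂ) * a q k)‖
      ≤ |(k m : ℝ)| * ‖a p k‖ + |(k n : ℝ)| * ‖a q k‖ := by
    intro m n p q
    rw [norm_mul, Complex.norm_I, one_mul]
    refine (norm_sub_le _ _).trans (le_of_eq ?_)
    rw [norm_mul, norm_mul, Complex.norm_intCast, Complex.norm_intCast]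
  have h0 := abs_nonneg (k 0 : ℝ)
  have h1 := abs_nonneg (k 1 : ℝ)
  have h2 := abs_nonneg (k 2 : ℝ)
  have g0 := norm_nonneg (a 0 k)
  have g1 := norm_nonneg (a 1 k)
  have g2 := norm_nonneg (a 2 k)
  have e : N1 k * sz a k = (|(k 0 : ℝ)| + |(k 1 : ℝ)| + |(k 2 : ℝ)|)
      * (‖a 0 k‖ + ‖a 1 k‖ + ‖a 2 k‖) := by
    unfold N1 sz
    rw [Fin.sum_univ_three, Fin.sum_univ_three]
  rw [e]
  have m00 := mul_nonneg h0 g0
  have m01 := mul_nonneg h0 g1
  have m02 := mul_nonneg h0 g2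
  have m10 := mul_nonneg h1 g0
  have m11 := mul_nonneg h1 g1
  have m12 := mul_nonneg h1 g2
  have m20 := mul_nonneg h2 g0
  have m21 := mul_nonneg h2 g1
  have m22 := mul_nonneg h2 g2
  fin_cases i
  · refine (key 1 2 2 1).trans ?_
    nlinarith
  · refine (key 2 0 0 2).trans ?_
    nlinarith
  · refine (key 0 1 1 0).trans ?_
    nlinarith

lemma summable_om (ha : Reg a) (i : Fin 3) : Summable fun k => ‖om a i k‖ :=
  Summable.of_nonneg_of_le (fun _ => norm_nonneg _) (fun k => norm_om_le i k) ha.sz1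

lemma summable_sz_om (ha : Reg a) : Summable (sz (om a)) := by
  unfold sz
  exact summable_sum fun i _ => summable_om ha i

lemma om_conj (ha : ∀ i k, conj (a i k) = a i (-k)) (i : Fin 3) (k : K3) :
    conj (om a i k) = om a i (-k) := by
  fin_cases i <;>
    simp only [om, map_mul, map_sub, Complex.conj_I, map_intCast, ha, Pi.neg_apply,
      Int.cast_neg] <;> ring

lemma om_div (k : K3) : ∑ i, om a i k * (k i : ℂ) = 0 := by
  rw [Fin.sum_univ_three]
  simp only [om]
  ring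

/-- triple product -/
noncomputable def dd (a b c : Fin 3 → ℂ) : ℂ :=
  a 0 * (b 1 * c 2 - b 2 * c 1) + a 1 * (b 2 * c 0 - b 0 * c 2) + a 2 * (b 0 * c 1 - b 1 * c 0)

/-- The antisymmetric summand. -/
noncomputable def Dm (η : K3 → K3 → ℝ) (w : Fin 3 → K3 → ℂ) (x : K3 × K3) : ℂ :=
  (η (x.1 - x.2) x.2 : ℂ) * dd (fun i => om w i (-x.1)) (fun i => om w i (x.1 - x.2))
    (fun i => w i x.2)

lemma summable_tm' (hC : ∀ p q, |η p q| ≤ C) (ha : Reg a) (hb : Reg b) (hc : Summable (sz c)) :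
    Summable (tm η a b c) := by
  have hC0 : 0 ≤ C := (abs_nonneg _).trans (hC 0 0)
  refine Summable.of_norm ?_
  have h := summable_shear ha.sz0 hb.sz1 (sz_nonneg a)
    (fun k => mul_nonneg (N1_nonneg k) (sz_nonneg b k))
  refine Summable.of_nonneg_of_le (fun _ => norm_nonneg _) (fun x => ?_)
    (h.mul_left (C * ∑' m, sz c m))
  refine (norm_tm_le hC x).trans ?_
  calc C * (sz a (x.1 - x.2) * (N1 x.2 * sz b x.2) * sz c x.1)
      ≤ C * (sz a (x.1 - x.2) * (N1 x.2 * sz b x.2) * ∑' m, sz c m) := by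
        refine mul_le_mul_of_nonneg_left (mul_le_mul_of_nonneg_left
          (hc.le_tsum _ fun _ _ => sz_nonneg _ _) ?_) hC0
        exact mul_nonneg (sz_nonneg _ _) (mul_nonneg (N1_nonneg _) (sz_nonneg _ _))
    _ = _ := by ring

lemma norm_dd_le (a b c : Fin 3 → ℂ) {A B C : ℝ} (ha : ∀ i, ‖a i‖ ≤ A) (hb : ∀ i, ‖b i‖ ≤ B)
    (hc : ∀ i, ‖c i‖ ≤ C) : ‖dd a b c‖ ≤ 6 * (A * B * C) := by
  have hA : 0 ≤ A := (norm_nonneg _).trans (ha 0)
  have hB : 0 ≤ B := (norm_nonneg _).trans (hb 0)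
  have key : ∀ i j m n p, ‖a i * (b j * c m - b n * c p)‖ ≤ 2 * (A * B * C) := by
    intro i j m n p
    rw [norm_mul]
    have h1 : ‖b j * c m - b n * c p‖ ≤ 2 * (B * C) := by
      refine (norm_sub_le _ _).trans ?_
      rw [norm_mul, norm_mul]
      have h2 := mul_le_mul (hb j) (hc m) (norm_nonneg _) hB
      have h3 := mul_le_mul (hb n) (hc p) (norm_nonneg _) hB
      linarith
    calc ‖a i‖ * ‖b j * c m - b n * c p‖ ≤ A * (2 * (B * C)) :=
          mul_le_mul (ha i) h1 (norm_nonneg _) hA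
      _ = _ := by ring
  unfold dd
  refine (norm_add_le _ _).trans ?_
  have h1 := norm_add_le (a 0 * (b 1 * c 2 - b 2 * c 1)) (a 1 * (b 2 * c 0 - b 0 * c 2))
  have k0 := key 0 1 2 2 1
  have k1 := key 1 2 0 0 2
  have k2 := key 2 0 1 1 0
  linarith

lemma sz_om_neg (k : K3) (ha : ∀ i k, conj (a i k) = a i (-k)) : sz (om a) (-k) = sz (om a) k := by
  unfold sz
  refine Finset.sum_congr rfl fun i _ => ?_
  rw [← om_conj ha, RCLike.norm_conj]

lemma summable_Dm (hC : ∀ p q, |η p q| ≤ C) (hw : Reg w) : Summable (Dm η w) := by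
  have hC0 : 0 ≤ C := (abs_nonneg _).trans (hC 0 0)
  have ho := summable_sz_om hw
  refine Summable.of_norm ?_
  have h := summable_shear ho hw.sz0 (sz_nonneg _) (sz_nonneg _)
  refine Summable.of_nonneg_of_le (fun _ => norm_nonneg _) (fun x => ?_)
    (h.mul_left (6 * C * ∑' m, sz (om w) m))
  unfold Dm
  rw [norm_mul, Complex.norm_real, Real.norm_eq_abs]
  have h1 := norm_dd_le (fun i => om w i (-x.1)) (fun i => om w i (x.1 - x.2))
    (fun i => w i x.2) (A := ∑' m, sz (om w) m) (B := sz (om w) (x.1 - x.2)) (C := sz w x.2)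
    (fun i => (le_sz _ i _).trans (ho.le_tsum _ fun _ _ => sz_nonneg _ _))
    (fun i => le_sz _ i _) (fun i => le_sz _ i _)
  calc |η (x.1 - x.2) x.2| * _ ≤ C * (6 * ((∑' m, sz (om w) m) * sz (om w) (x.1 - x.2) * sz w x.2)) :=
        mul_le_mul (hC _ _) h1 (norm_nonneg _) hC0
    _ = _ := by ring

/-- first involution -/
def inv1 : K3 × K3 ≃ K3 × K3 where
  toFun x := (x.1, x.1 - x.2)
  invFun x := (x.1, x.1 - x.2)
  left_inv x := by simp
  right_inv x := by simp

/-- second involution -/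
def inv2 : K3 × K3 ≃ K3 × K3 where
  toFun x := (x.2 - x.1, x.2)
  invFun x := (x.2 - x.1, x.2)
  left_inv x := by simp
  right_inv x := by simp

lemma Dm_inv2 (hη : IsWeight η) (x : K3 × K3) : Dm η w (inv2 x) = -Dm η w x := by
  obtain ⟨k, r⟩ := x
  have e1 : inv2 (k, r) = (r - k, r) := rfl
  rw [e1]
  unfold Dm
  simp only
  have e2 : r - k - r = -k := by abel
  have e3 : -(r - k) = k - r := by abel
  have e4 : η (-k) r = η (k - r) r := by
    have h1 := hη.symm r (-k)
    have h2 := hη.third r (k - r)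
    have h3 := hη.symm r (k - r)
    have e5 : -(r + (k - r)) = -k := by abel
    rw [e5] at h2
    rw [h1, h2, ← h3]
  rw [e2, e3, e4]
  unfold dd
  ring

lemma pair_identity (hη : IsWeight η) (hw : Reg w) (x : K3 × K3) :
    Complex.I * (tm η w w (om w) x + tm η w w (om w) (inv1 x)) = Dm η w x + Dm η w (inv1 x) := by
  obtain ⟨k, r⟩ := x
  have e1 : inv1 (k, r) = (k, k - r) := rfl
  rw [e1]
  unfold tm Dm
  simp only
  have e2 : k - (k - r) = r := by abel
  have e3 : η r (k - r) = η (k - r) r := (hη.symm r (k - r)).symm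
  rw [e2, e3]
  simp only [om_conj hw.cj]
  -- divergence free
  have hd := om_div (a := w) (-k)
  rw [Fin.sum_univ_three] at hd
  simp only [Pi.neg_apply, Int.cast_neg] at hd
  unfold dt dd
  simp only [Fin.sum_univ_three]
  generalize om w 0 (-k) = o0 at *
  generalize om w 1 (-k) = o1 at *
  generalize om w 2 (-k) = o2 at *
  simp only [om, Pi.sub_apply, Int.cast_sub]
  generalize (k 0 : ℂ) = k0 at *
  generalize (k 1 : ℂ) = k1 at *
  generalize (k 2 : ℂ) = k2 at *
  generalize (r 0 : ℂ) = r0 at *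
  generalize (r 1 : ℂ) = r1 at *
  generalize (r 2 : ℂ) = r2 at *
  generalize w 0 (k - r) = p0 at *
  generalize w 1 (k - r) = p1 at *
  generalize w 2 (k - r) = p2 at *
  generalize w 0 r = q0 at *
  generalize w 1 r = q1 at *
  generalize w 2 r = q2 at *
  linear_combination (-(Complex.I * (η (k - r) r : ℂ) * (p0 * q0 + p1 * q1 + p2 * q2))) * hd

/-- The helicity sum vanishes. -/
theorem hel_sum (hη : IsWeight η) (hC : ∀ p q, |η p q| ≤ C) (hw : Reg w) :
    ∑' x, tm η w w (om w) x = 0 := by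
  have s1 : Summable (tm η w w (om w)) := summable_tm' hC hw hw (summable_sz_om hw)
  have s2 : Summable (Dm η w) := summable_Dm hC hw
  have s1' : Summable fun x => tm η w w (om w) (inv1 x) :=
    (inv1.summable_iff (f := tm η w w (om w))).2 s1
  have s2' : Summable fun x => Dm η w (inv1 x) := (inv1.summable_iff (f := Dm η w)).2 s2
  have t1 : ∑' x, tm η w w (om w) (inv1 x) = ∑' x, tm η w w (om w) x :=
    inv1.tsum_eq (tm η w w (om w))
  have t2 : ∑' x, Dm η w (inv1 x) = ∑' x, Dm η w x := inv1.tsum_eq (Dm η w)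
  have h1 : ∑' x, Dm η w x = 0 := by
    have h2 : ∑' x, Dm η w (inv2 x) = ∑' x, Dm η w x := inv2.tsum_eq (Dm η w)
    have h3 : ∑' x, Dm η w (inv2 x) = -∑' x, Dm η w x := by
      rw [← tsum_neg]
      exact tsum_congr fun x => Dm_inv2 hη x
    rw [h3] at h2
    generalize (∑' x, Dm η w x) = S at *
    have h4 : (2 : ℂ) * S = 0 := by linear_combination -h2
    exact (mul_eq_zero.1 h4).resolve_left two_ne_zero
  have h4 : ∑' x, Complex.I * (tm η w w (om w) x + tm η w w (om w) (inv1 x))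
      = ∑' x, (Dm η w x + Dm η w (inv1 x)) := tsum_congr fun x => pair_identity hη hw x
  rw [tsum_mul_left, s1.tsum_add s1', s2.tsum_add s2', t1, t2, h1] at h4
  generalize (∑' x, tm η w w (om w) x) = S at *
  have h5 : (2 * Complex.I) * S = 0 := by linear_combination h4
  exact (mul_eq_zero.1 h5).resolve_left (mul_ne_zero two_ne_zero Complex.I_ne_zero)

end Pool.Agent.Y302.Tri
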