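import Pool.Agent.Y302.Tri.Hel

/-!
Conservation of helicity.
-/

set_option autoImplicit false

open Set Filter Topology MeasureTheory
open scoped ComplexConjugate

namespace Pool.Agent.Y302.Tri

open Pool.Agent.H708R2.EulerSign (V Periodic3 Dom divergence grad
  divergence_eq_sum contDiff_slice dom_bdd dom_meas dom_lt_top continuous_grad)
open Pool.Agent.H708R2.EulerModes
open Pool.Agent.H708R2.EulerTypeI (vort)
open Pool.Agent.Y302.Trunc (K3)

variable {η : K3 → K3 → ℝ} {T : ℝ} {w : ℝ → V → V} {q : ℝ → V → ℝ} {v v' : V → V}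

lemma vort_cont (hv : ContDiff ℝ 1 v) (i : Fin 3) : Continuous (fun x => vort v x i) := by
  have h := continuous_grad hv
  fin_cases i
  · exact (h.matrix_elem 2 1).sub (h.matrix_elem 1 2)
  · exact (h.matrix_elem 0 2).sub (h.matrix_elem 2 0)
  · exact (h.matrix_elem 1 0).sub (h.matrix_elem 0 1)

lemma vort_per (hp : Periodic3 v) (i : Fin 3) : Periodic3 (fun x => vort v x i) := by
  intro j x
  have h : grad v (x + Pi.single j (2 * Real.pi)) = grad v x := hp.grad j x
  simp only [vort, h]

lemma cf_vort (hv : ContDiff ℝ 1 v) (hp : Periodic3 v) (i : Fin 3) (k : K3) :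
    cf (fun x => vort v x i) k = om (cv v) i k := by
  have hg : ∀ i j, Continuous (fun x => grad v x i j) := fun i j =>
    (continuous_grad hv).matrix_elem i j
  have key : ∀ i j, cf (fun x => grad v x i j) k = Complex.I * (k j : ℂ) * cv v i k := fun i j =>
    cf_grad hv hp i j k
  fin_cases i
  · have h1 : (fun x => vort v x 0) = fun x => grad v x 2 1 - grad v x 1 2 := rfl
    simp only [Fin.zero_eta, h1]
    rw [cf_sub (hg _ _) (hg _ _), key, key]
    simp only [om]
    ring
  · have h1 : (fun x => vort v x 1) = fun x => grad v x 0 2 - grad v x 2 0 := rfl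
    simp only [Fin.mk_one, h1]
    rw [cf_sub (hg _ _) (hg _ _), key, key]
    simp only [om]
    ring
  · have h1 : (fun x => vort v x 2) = fun x => grad v x 1 0 - grad v x 0 1 := rfl
    simp only [Fin.reduceFinMk, h1]
    rw [cf_sub (hg _ _) (hg _ _), key, key]
    simp only [om]
    ring

/-- The curl is symmetric. -/
lemma curl_symm (hv : ContDiff ℝ 1 v) (hp : Periodic3 v) (hv' : ContDiff ℝ 1 v')
    (hp' : Periodic3 v') :
    ∑ i, ∫ x in Dom, v x i * vort v' x i = ∑ i, ∫ x in Dom, vort v x i * v' x i := by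
  have hc : ∀ i, Continuous (fun x => v x i) := fun i => (continuous_apply i).comp hv.continuous
  have hc' : ∀ i, Continuous (fun x => v' x i) := fun i => (continuous_apply i).comp hv'.continuous
  have h1 := hasSum_sum (s := Finset.univ) fun i _ =>
    parseval (comp_periodic hp i) (hc i) (vort_per hp' i) (vort_cont hv' i)
  have h2 := hasSum_sum (s := Finset.univ) fun i _ =>
    parseval (vort_per hp i) (vort_cont hv i) (comp_periodic hp' i) (hc' i)
  have h3 : (fun k => ∑ i, conj (cf (fun x => v x i) k) * cf (fun x => vort v' x i) k)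
      = fun k => ∑ i, conj (cf (fun x => vort v x i) k) * cf (fun x => v' x i) k := by
    funext k
    simp only [cf_vort hv hp, cf_vort hv' hp', Fin.sum_univ_three]
    simp only [om, map_mul, map_sub, Complex.conj_I, map_intCast, cv]
    ring
  rw [h3] at h1
  have h4 := h1.unique h2
  rw [← Complex.ofReal_sum, ← Complex.ofReal_sum] at h4
  have h5 : ∑ i, vi * ∫ x in Dom, v x i * vort v' x i
      = ∑ i, vi * ∫ x in Dom, vort v x i * v' x i := by exact_mod_cast h4
  rw [← Finset.mul_sum, ← Finset.mul_sum] at h5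
  exact mul_left_cancel₀ vi_pos.ne' h5

/-- Helicity. -/
noncomputable def hel (v : V → V) : ℝ := ∑ i, ∫ x in Dom, v x i * vort v x i

lemma hel_sub (hv : ContDiff ℝ 1 v) (hp : Periodic3 v) (hv' : ContDiff ℝ 1 v')
    (hp' : Periodic3 v') : hel v' - hel v
      = ∑ i, ∫ x in Dom, (v' x i - v x i) * (vort v' x i + vort v x i) := by
  have hc : ∀ i, Continuous (fun x => v x i) := fun i => (continuous_apply i).comp hv.continuous
  have hc' : ∀ i, Continuous (fun x => v' x i) := fun i => (continuous_apply i).comp hv'.continuous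
  have hi : ∀ {f g : V → ℝ}, Continuous f → Continuous g → Periodic3 f → Periodic3 g →
      IntegrableOn (fun x => f x * g x) Dom := by
    intro f g cf cg pf pg
    refine Periodic3.integrableOn ?_ (cf.mul cg)
    intro j x
    simp only
    rw [pf j x, pg j x]
  have h1 : ∀ i, ∫ x in Dom, (v' x i - v x i) * (vort v' x i + vort v x i)
      = ((∫ x in Dom, v' x i * vort v' x i) - (∫ x in Dom, v x i * vort v x i))
        + ((∫ x in Dom, v' x i * vort v x i) - ∫ x in Dom, vort v' x i * v x i) := by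
    intro i
    have i1 := hi (hc' i) (vort_cont hv' i) (comp_periodic hp' i) (vort_per hp' i)
    have i2 := hi (hc i) (vort_cont hv i) (comp_periodic hp i) (vort_per hp i)
    have i3 := hi (hc' i) (vort_cont hv i) (comp_periodic hp' i) (vort_per hp i)
    have i4 := hi (vort_cont hv' i) (hc i) (vort_per hp' i) (comp_periodic hp i)
    have i12 : IntegrableOn (fun x => v' x i * vort v' x i - v x i * vort v x i) Dom := i1.sub i2
    have i34 : IntegrableOn (fun x => v' x i * vort v x i - vort v' x i * v x i) Dom := i3.sub i4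
    rw [← integral_sub i1 i2, ← integral_sub i3 i4, ← integral_add i12 i34]
    congr 1
    funext x
    ring
  simp only [h1, Finset.sum_add_distrib, Finset.sum_sub_distrib]
  rw [curl_symm hv' hp' hv hp, sub_self, add_zero]
  rfl

/-- The time derivative of the velocity is orthogonal to the vorticity. -/
lemma int_vort_dt (hη : IsWeight η) (hw : IsSolutionW η (Ico 0 T) w q) {t : ℝ}
    (ht : t ∈ Ioo 0 T) :
    ∑ i, ∫ x in Dom, vort (w t) x i * (lin (Ico 0 T) w q t i x
      - fderiv ℝ (q t) x (Pi.single i 1)) = 0 := by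
  obtain ⟨C, hC⟩ := hη.bdd
  have htI : t ∈ Ico 0 T := ⟨ht.1.le, ht.2⟩
  have hwt : ContDiff ℝ 1 (w t) := contDiff_slice hw.base.contDiffOn_u htI
  have hqt : ContDiff ℝ 1 (q t) := contDiff_slice hw.base.contDiffOn_p htI
  have hwp := hw.base.periodic_u t htI
  have hqp := hw.base.periodic_p t htI
  have hlc := fun i => lin_continuous hw.base ht i
  have hgc : ∀ i, Continuous (fun x => fderiv ℝ (q t) x (Pi.single i 1)) := fun i =>
    (hqt.continuous_fderiv one_ne_zero).clm_apply continuous_const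
  have hper : ∀ i, Periodic3 (fun x => lin (Ico 0 T) w q t i x
      - fderiv ℝ (q t) x (Pi.single i 1)) := by
    intro i j x
    simp only
    rw [lin_periodic hw.base htI i j x, hqp.fderiv j x]
  have h1 := hasSum_sum (s := Finset.univ) fun i _ =>
    parseval (vort_per hwp i) (vort_cont hwt i) (hper i) ((hlc i).sub (hgc i))
  have hreg := hw.reg htI
  -- the sum
  have s1 : Summable (tm η (cv (w t)) (cv (w t)) (om (cv (w t)))) :=
    summable_tm' hC hreg hreg (summable_sz_om hreg)
  have h2 : HasSum (fun x => -Complex.I * tm η (cv (w t)) (cv (w t)) (om (cv (w t))) x) 0 := by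
    have := s1.hasSum.mul_left (-Complex.I)
    rwa [hel_sum hη hC hreg, mul_zero] at this
  have h3 : ∀ k, HasSum (fun r => -Complex.I * tm η (cv (w t)) (cv (w t)) (om (cv (w t))) (k, r))
      (∑ i, conj (cf (fun x => vort (w t) x i) k) * cf (fun x => lin (Ico 0 T) w q t i x
      - fderiv ℝ (q t) x (Pi.single i 1)) k) := by
    intro k
    have h4 : ∀ i, HasSum (fun r => conj (om (cv (w t)) i k)
        * -(nl η (cv (w t)) (cv (w t)) k i r))
        (conj (om (cv (w t)) i k) * -(∑' r, nl η (cv (w t)) (cv (w t)) k i r)) := fun i =>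
      ((summable_nl hC hreg hreg k i).hasSum.neg).mul_left _
    have h5 := hasSum_sum (s := Finset.univ) fun i _ => h4 i
    have h6 : ∑ i, conj (om (cv (w t)) i k) * -(∑' r, nl η (cv (w t)) (cv (w t)) k i r)
        = ∑ i, conj (cf (fun x => vort (w t) x i) k) * cf (fun x => lin (Ico 0 T) w q t i x
      - fderiv ℝ (q t) x (Pi.single i 1)) k := by
      have h7 : ∀ i, cf (fun x => lin (Ico 0 T) w q t i x - fderiv ℝ (q t) x (Pi.single i 1)) k
          = -(∑' r, nl η (cv (w t)) (cv (w t)) k i r) - Complex.I * (k i : ℂ) * cf (q t) k := by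
        intro i
        rw [cf_sub (hlc i) (hgc i), hw.momentum t htI k i, cf_pd hqp hqt]
      simp only [h7, cf_vort hwt hwp, mul_sub, Finset.sum_sub_distrib]
      have h8 : ∑ i, conj (om (cv (w t)) i k) * (Complex.I * (k i : ℂ) * cf (q t) k) = 0 := by
        have h9 := congrArg conj (om_div (a := cv (w t)) k)
        rw [map_sum, map_zero] at h9
        simp only [map_mul, map_intCast] at h9
        calc ∑ i, conj (om (cv (w t)) i k) * (Complex.I * (k i : ℂ) * cf (q t) k)
            = (∑ i, conj (om (cv (w t)) i k) * (k i : ℂ)) * (Complex.I * cf (q t) k) := by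
              rw [Finset.sum_mul]
              exact Finset.sum_congr rfl fun i _ => by ring
          _ = 0 := by rw [h9, zero_mul]
      rw [h8, sub_zero]
    rw [← h6]
    refine h5.congr_fun fun r => ?_
    unfold tm nl
    rw [Finset.mul_sum, Finset.mul_sum]
    exact Finset.sum_congr rfl fun i _ => by ring
  have h10 := (h1.unique (h2.prod_fiberwise h3))
  rw [← Complex.ofReal_sum, ← Finset.mul_sum] at h10
  have h11 : vi * ∑ i, ∫ x in Dom, vort (w t) x i * (lin (Ico 0 T) w q t i x
      - fderiv ℝ (q t) x (Pi.single i 1)) = 0 := by exact_mod_cast h10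
  exact (mul_eq_zero.1 h11).resolve_left vi_pos.ne'

/-- The helicity is differentiable in time. -/
lemma hel_hasDerivAt (hw : Base (Ico 0 T) w q) {t : ℝ} (ht : t ∈ Ioo 0 T) :
    HasDerivAt (fun s => hel (w s)) (∑ i, ∫ x in Dom,
      (lin (Ico 0 T) w q t i x - fderiv ℝ (q t) x (Pi.single i 1))
        * (vort (w t) x i + vort (w t) x i)) t := by
  obtain ⟨a, ha1, ha2⟩ := exists_between ht.1
  obtain ⟨b, hb1, hb2⟩ := exists_between ht.2
  have hO : IsOpen (Ioo 0 T ×ˢ (univ : Set V)) := isOpen_Ioo.prod isOpen_univ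
  have hS1 : ContDiffOn ℝ 1 (fun z : ℝ × V => w z.1 z.2) (Ioo 0 T ×ˢ univ) :=
    hw.contDiffOn_u.mono (prod_mono Ioo_subset_Ico_self subset_rfl)
  have hd : ContinuousOn (fderiv ℝ (fun z : ℝ × V => w z.1 z.2)) (Ioo 0 T ×ˢ univ) :=
    hS1.continuousOn_fderiv_of_isOpen hO le_rfl
  have hK : IsCompact (Icc a b ×ˢ closure Dom) := isCompact_Icc.prod dom_bdd.isCompact_closure
  have hsub : Icc a b ×ˢ closure Dom ⊆ Ioo 0 T ×ˢ (univ : Set V) :=
    prod_mono (fun s hs => ⟨ha1.trans_le hs.1, hs.2.trans_lt hb2⟩) (subset_univ _)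
  obtain ⟨C, hC⟩ := hK.exists_bound_of_continuousOn (hd.mono hsub)
  -- spatial derivatives
  have hgrad : ∀ s ∈ Ioo 0 T, ∀ x i j, grad (w s) x i j
      = fderiv ℝ (fun z : ℝ × V => w z.1 z.2) (s, x) (0, Pi.single j 1) i := by
    intro s hs x i j
    have h1 : DifferentiableAt ℝ (fun z : ℝ × V => w z.1 z.2) (s, x) :=
      (hS1.contDiffAt (hO.mem_nhds ⟨hs, mem_univ _⟩)).differentiableAt one_ne_zero
    have h2 : HasFDerivAt (fun y : V => ((s, y) : ℝ × V)) (ContinuousLinearMap.inr ℝ ℝ V) x :=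
      hasFDerivAt_prodMk_right s x
    have h3 : HasFDerivAt (w s) ((fderiv ℝ (fun z : ℝ × V => w z.1 z.2) (s, x)).comp
        (ContinuousLinearMap.inr ℝ ℝ V)) x :=
      HasFDerivAt.comp (g := fun z : ℝ × V => w z.1 z.2) (f := fun y : V => ((s, y) : ℝ × V)) x
        h1.hasFDerivAt h2
    have : grad (w s) x i j = fderiv ℝ (w s) x (Pi.single j 1) i := rfl
    rw [this, h3.fderiv]
    rfl
  have hgb : ∀ s ∈ Icc a b, ∀ x ∈ closure Dom, ∀ i j, |grad (w s) x i j| ≤ C := by
    intro s hs x hx i j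
    rw [hgrad s ⟨ha1.trans_le hs.1, hs.2.trans_lt hb2⟩]
    have h5 := (fderiv ℝ (fun z : ℝ × V => w z.1 z.2) (s, x)).le_opNorm
      ((0, Pi.single j 1) : ℝ × V)
    have h6 : ‖((0, Pi.single j 1) : ℝ × V)‖ = 1 := by
      rw [Prod.norm_def]
      simp only [norm_zero]
      rw [Pi.norm_single, norm_one]
      norm_num
    rw [h6, mul_one] at h5
    exact (norm_le_pi_norm _ i).trans (h5.trans (hC (s, x) ⟨hs, hx⟩))
  have hgc : ∀ x i j, ContinuousAt (fun s => grad (w s) x i j) t := by
    intro x i j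
    have h1 : ContinuousAt (fun s : ℝ => fderiv ℝ (fun z : ℝ × V => w z.1 z.2) (s, x)
        (0, Pi.single j 1) i) t := by
      have h2 : ContinuousAt (fderiv ℝ (fun z : ℝ × V => w z.1 z.2)) (t, x) :=
        hd.continuousAt (hO.mem_nhds ⟨ht, mem_univ _⟩)
      have h3 : ContinuousAt (fun s : ℝ => fderiv ℝ (fun z : ℝ × V => w z.1 z.2) (s, x)) t :=
        ContinuousAt.comp (g := fderiv ℝ (fun z : ℝ × V => w z.1 z.2))
          (f := fun s : ℝ => ((s, x) : ℝ × V)) h2 (by fun_prop)
      exact (continuous_apply i).continuousAt.comp (h3.clm_apply continuousAt_const)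
    refine h1.congr ?_
    filter_upwards [Ioo_mem_nhds ht.1 ht.2] with s hs
    exact (hgrad s hs x i j).symm
  have hvb : ∀ s ∈ Icc a b, ∀ x ∈ closure Dom, ∀ i, |vort (w s) x i| ≤ 2 * C := by
    intro s hs x hx i
    have hg' := hgb s hs x hx
    have key : ∀ i j k l : Fin 3, |grad (w s) x i j - grad (w s) x k l| ≤ 2 * C := by
      intro i j k l
      have := abs_sub (grad (w s) x i j) (grad (w s) x k l)
      linarith [hg' i j, hg' k l]
    fin_cases i
    · exact key 2 1 1 2
    · exact key 0 2 2 0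
    · exact key 1 0 0 1
  have hvc : ∀ x i, ContinuousAt (fun s => vort (w s) x i) t := by
    intro x i
    fin_cases i
    · exact (hgc x 2 1).sub (hgc x 1 2)
    · exact (hgc x 0 2).sub (hgc x 2 0)
    · exact (hgc x 1 0).sub (hgc x 0 1)
  -- time derivatives
  have htd : ∀ s ∈ Ioo 0 T, ∀ x i, HasDerivAt (fun s => w s x i)
      (fderiv ℝ (fun z : ℝ × V => w z.1 z.2) (s, x) (1, 0) i) s := by
    intro s hs x i
    have hline : HasDerivAt (fun s : ℝ => ((s, x) : ℝ × V)) (1, 0) s :=
      (hasDerivAt_id s).prodMk (hasDerivAt_const s x)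
    have h1 : DifferentiableAt ℝ (fun z : ℝ × V => w z.1 z.2) (s, x) :=
      (hS1.contDiffAt (hO.mem_nhds ⟨hs, mem_univ _⟩)).differentiableAt one_ne_zero
    exact hasDerivAt_pi.1 (h1.hasFDerivAt.comp_hasDerivAt s hline) i
  have hlip : ∀ s ∈ Icc a b, ∀ x ∈ closure Dom, ∀ i, |w s x i - w t x i| ≤ C * |s - t| := by
    intro s hs x hx i
    have h1 := Convex.norm_image_sub_le_of_norm_hasDerivWithin_le (𝕜 := ℝ) (s := Icc a b)
      (f := fun s => w s x i) (f' := fun s => fderiv ℝ (fun z : ℝ × V => w z.1 z.2) (s, x) (1, 0) i)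
      (C := C) (x := t) (y := s)
      (fun r hr => (htd r ⟨ha1.trans_le hr.1, hr.2.trans_lt hb2⟩ x i).hasDerivWithinAt)
      (fun r hr => by
        have h5 := (fderiv ℝ (fun z : ℝ × V => w z.1 z.2) (r, x)).le_opNorm ((1, 0) : ℝ × V)
        have h6 : ‖((1, 0) : ℝ × V)‖ = 1 := by
          rw [Prod.norm_def]
          simp
        rw [h6, mul_one] at h5
        exact (norm_le_pi_norm _ i).trans (h5.trans (hC (r, x) ⟨hr, hx⟩)))
      (convex_Icc a b) ⟨ha2.le, hb1.le⟩ hs
    exact h1
  have hC0 : 0 ≤ C := by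
    have h1 : (0 : V) ∈ closure Dom ∨ ¬ (0 : V) ∈ closure Dom := em _
    by_contra hcon
    push Not at hcon
    have h2 : (closure Dom : Set V) = ∅ := by
      rw [eq_empty_iff_forall_notMem]
      intro x hx
      have := (norm_nonneg _).trans (hC (t, x) ⟨⟨ha2.le, hb1.le⟩, hx⟩)
      linarith
    have h3 : (Dom : Set V) = ∅ := subset_empty_iff.1 (subset_closure.trans h2.subset)
    have h4 := vi_pos
    have h5 : (0 : V) ∈ (Dom : Set V) := by
      rw [mem_Dom]
      intro i
      simp [Real.pi_pos]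
    rw [h3] at h5
    exact h5
  -- the slope
  rw [hasDerivAt_iff_tendsto_slope]
  have hnh : Icc a b ∈ 𝓝[≠] t := mem_nhdsWithin_of_mem_nhds (Icc_mem_nhds ha2 hb1)
  have hlim : ∀ i, Tendsto (fun s => ∫ x in Dom, ((s - t)⁻¹ * (w s x i - w t x i))
      * (vort (w s) x i + vort (w t) x i)) (𝓝[≠] t) (𝓝 (∫ x in Dom,
      (lin (Ico 0 T) w q t i x - fderiv ℝ (q t) x (Pi.single i 1))
        * (vort (w t) x i + vort (w t) x i))) := by
    intro i
    refine tendsto_integral_filter_of_dominated_convergence (fun _ => C * (4 * C)) ?_ ?_ ?_ ?_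
    · filter_upwards [hnh] with s hs
      have hsI : s ∈ Ico 0 T := ⟨(ha1.trans_le hs.1).le, hs.2.trans_lt hb2⟩
      have hws : ContDiff ℝ 1 (w s) := contDiff_slice hw.contDiffOn_u hsI
      have hwt : ContDiff ℝ 1 (w t) := contDiff_slice hw.contDiffOn_u ⟨ht.1.le, ht.2⟩
      exact ((continuous_const.mul (((continuous_apply i).comp hws.continuous).sub
        ((continuous_apply i).comp hwt.continuous))).mul
        ((vort_cont hws i).add (vort_cont hwt i))).aestronglyMeasurable
    · filter_upwards [hnh, self_mem_nhdsWithin] with s hs hst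
      refine (ae_restrict_iff' dom_meas).2 (Filter.Eventually.of_forall fun x hx => ?_)
      have hx' : x ∈ closure (Dom : Set V) := subset_closure hx
      have hne : s - t ≠ 0 := sub_ne_zero.2 hst
      rw [norm_mul]
      refine mul_le_mul ?_ ?_ (norm_nonneg _) hC0
      · rw [norm_mul, norm_inv, Real.norm_eq_abs, Real.norm_eq_abs,
          inv_mul_le_iff₀ (abs_pos.2 hne), mul_comm]
        exact hlip s hs x hx' i
      · rw [Real.norm_eq_abs]
        have h1 := abs_add_le (vort (w s) x i) (vort (w t) x i)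
        have h2 := hvb s hs x hx' i
        have h3 := hvb t ⟨ha2.le, hb1.le⟩ x hx' i
        linarith
    · exact integrableOn_const dom_lt_top.ne
    · refine Filter.Eventually.of_forall fun x => ?_
      have h1 := hasDerivAt_iff_tendsto_slope.1 (time_deriv hw ht x i)
      have h2 : Tendsto (fun s => (s - t)⁻¹ * (w s x i - w t x i)) (𝓝[≠] t)
          (𝓝 (lin (Ico 0 T) w q t i x - fderiv ℝ (q t) x (Pi.single i 1))) := by
        refine h1.congr fun s => ?_
        rw [slope_def_field, div_eq_inv_mul]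
      have h3 : Tendsto (fun s => vort (w s) x i + vort (w t) x i) (𝓝[≠] t)
          (𝓝 (vort (w t) x i + vort (w t) x i)) :=
        ((hvc x i).tendsto.mono_left nhdsWithin_le_nhds).add_const _
      exact h2.mul h3
  have hsum := tendsto_finsetSum Finset.univ fun i _ => hlim i
  refine hsum.congr' ?_
  filter_upwards [hnh] with s hs
  have hsI : s ∈ Ico 0 T := ⟨(ha1.trans_le hs.1).le, hs.2.trans_lt hb2⟩
  have htI : t ∈ Ico 0 T := ⟨ht.1.le, ht.2⟩
  have hws : ContDiff ℝ 1 (w s) := contDiff_slice hw.contDiffOn_u hsI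
  have hwt : ContDiff ℝ 1 (w t) := contDiff_slice hw.contDiffOn_u htI
  rw [slope_def_field, hel_sub hwt (hw.periodic_u t htI) hws (hw.periodic_u s hsI),
    div_eq_inv_mul, Finset.mul_sum]
  refine Finset.sum_congr rfl fun i _ => ?_
  rw [← integral_const_mul]
  congr 1
  funext x
  ring

/-- The gradient is jointly continuous. -/
lemma grad_continuousOn (hw : Base (Ico 0 T) w q) (i j : Fin 3) :
    ContinuousOn (fun z : ℝ × V => grad (w z.1) z.2 i j) (Ico 0 T ×ˢ univ) := by
  have hU : UniqueDiffOn ℝ (Ico 0 T ×ˢ (univ : Set V)) :=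
    (uniqueDiffOn_Ico 0 T).prod uniqueDiffOn_univ
  have hd : ContinuousOn (fun z : ℝ × V =>
      fderivWithin ℝ (fun z : ℝ × V => w z.1 z.2) (Ico 0 T ×ˢ univ) z (0, Pi.single j 1) i)
      (Ico 0 T ×ˢ univ) :=
    (continuous_apply i).comp_continuousOn
      ((hw.contDiffOn_u.continuousOn_fderivWithin hU le_rfl).clm_apply continuousOn_const)
  refine hd.congr fun z hz => ?_
  obtain ⟨s, x⟩ := z
  have hs : s ∈ Ico 0 T := hz.1
  have h1 : HasFDerivWithinAt (fun z : ℝ × V => w z.1 z.2)
      (fderivWithin ℝ (fun z : ℝ × V => w z.1 z.2) (Ico 0 T ×ˢ univ) (s, x))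
      (Ico 0 T ×ˢ univ) (s, x) :=
    ((hw.contDiffOn_u.differentiableOn one_ne_zero) (s, x) hz).hasFDerivWithinAt
  have h2 : HasFDerivWithinAt (fun y : V => ((s, y) : ℝ × V)) (ContinuousLinearMap.inr ℝ ℝ V)
      univ x := (hasFDerivAt_prodMk_right s x).hasFDerivWithinAt
  have h3 : HasFDerivWithinAt (w s) ((fderivWithin ℝ (fun z : ℝ × V => w z.1 z.2)
      (Ico 0 T ×ˢ univ) (s, x)).comp (ContinuousLinearMap.inr ℝ ℝ V)) univ x :=
    HasFDerivWithinAt.comp (g := fun z : ℝ × V => w z.1 z.2) (f := fun y : V => ((s, y) : ℝ × V))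
      (t := (Ico 0 T ×ˢ univ : Set (ℝ × V))) x h1 h2 fun y _ => mk_mem_prod hs (mem_univ y)
  have h4 : grad (w s) x i j = fderiv ℝ (w s) x (Pi.single j 1) i := rfl
  simp only
  rw [h4, (hasFDerivWithinAt_univ.1 h3).fderiv]
  rfl

lemma vort_continuousOn (hw : Base (Ico 0 T) w q) (i : Fin 3) :
    ContinuousOn (fun z : ℝ × V => vort (w z.1) z.2 i) (Ico 0 T ×ˢ univ) := by
  have h := grad_continuousOn hw
  fin_cases i
  · exact (h 2 1).sub (h 1 2)
  · exact (h 0 2).sub (h 2 0)
  · exact (h 1 0).sub (h 0 1)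

/-- Continuity of the helicity up to the initial time. -/
lemma hel_continuousOn (hw : Base (Ico 0 T) w q) :
    ContinuousOn (fun s => hel (w s)) (Ico 0 T) := by
  unfold hel
  refine continuousOn_finsetSum _ fun i _ => ?_
  have hf : ContinuousOn (fun z : ℝ × V => w z.1 z.2 i * vort (w z.1) z.2 i)
      (Ico 0 T ×ˢ univ) :=
    ((continuous_apply i).comp_continuousOn hw.contDiffOn_u.continuousOn).mul
      (vort_continuousOn hw i)
  intro t ht
  obtain ⟨b, hb1, hb2⟩ := exists_between ht.2
  have hK : IsCompact (Icc 0 b ×ˢ closure Dom) := isCompact_Icc.prod dom_bdd.isCompact_closure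
  have hsub : Icc 0 b ×ˢ closure Dom ⊆ Ico 0 T ×ˢ (univ : Set V) :=
    prod_mono (fun s hs => ⟨hs.1, hs.2.trans_lt hb2⟩) (subset_univ _)
  obtain ⟨C, hC⟩ := hK.exists_bound_of_continuousOn (hf.mono hsub)
  have hev : ∀ᶠ s in 𝓝[Ico 0 T] t, s ∈ Icc 0 b := by
    have h1 : ∀ᶠ s in 𝓝[Ico 0 T] t, s < b := nhdsWithin_le_nhds (Iio_mem_nhds hb1)
    filter_upwards [h1, self_mem_nhdsWithin] with s hs1 hs2
    exact ⟨hs2.1, hs1.le⟩
  refine continuousWithinAt_of_dominated (bound := fun _ => C) ?_ ?_ ?_ ?_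
  · filter_upwards [hev] with s hs
    have hws : ContDiff ℝ 1 (w s) := contDiff_slice hw.contDiffOn_u ⟨hs.1, hs.2.trans_lt hb2⟩
    exact (((continuous_apply i).comp hws.continuous).mul
      (vort_cont hws i)).aestronglyMeasurable
  · filter_upwards [hev] with s hs
    refine (ae_restrict_iff' dom_meas).2 (Filter.Eventually.of_forall fun x hx => ?_)
    exact hC (s, x) ⟨hs, subset_closure hx⟩
  · exact integrableOn_const dom_lt_top.ne
  · refine Filter.Eventually.of_forall fun x => ?_
    have h1 := hf (t, x) ⟨ht, mem_univ _⟩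
    exact h1.comp (t := Ico 0 T ×ˢ univ) (f := fun s : ℝ => ((s, x) : ℝ × V))
      (by fun_prop) (fun s hs => ⟨hs, mem_univ _⟩)

/-- Conservation of helicity. -/
theorem hel_const (hη : IsWeight η) (hw : IsSolutionW η (Ico 0 T) w q) {t : ℝ}
    (ht : t ∈ Ico 0 T) : hel (w t) = hel (w 0) := by
  have hTpos : 0 < T := ht.1.trans_lt ht.2
  have hcont := hel_continuousOn hw.base
  have hder : ∀ s ∈ interior (Ico 0 T), HasDerivAt (fun s => hel (w s)) 0 s := by
    intro s hs
    rw [interior_Ico] at hs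
    have h1 := hel_hasDerivAt hw.base hs
    have h2 := int_vort_dt hη hw hs
    refine h1.congr_deriv ?_
    have h3 : ∀ i, ∫ x in Dom, (lin (Ico 0 T) w q s i x - fderiv ℝ (q s) x (Pi.single i 1))
        * (vort (w s) x i + vort (w s) x i) = 2 * ∫ x in Dom, vort (w s) x i
        * (lin (Ico 0 T) w q s i x - fderiv ℝ (q s) x (Pi.single i 1)) := by
      intro i
      rw [← integral_const_mul]
      congr 1
      funext x
      ring
    simp only [h3]
    rw [← Finset.mul_sum, h2, mul_zero]
  have h5 : AntitoneOn (fun s => hel (w s)) (Ico 0 T) :=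
    antitoneOn_of_deriv_nonpos (convex_Ico _ _) hcont
      (fun s hs => (hder s hs).differentiableAt.differentiableWithinAt)
      (fun s hs => by rw [(hder s hs).deriv])
  have h6 : MonotoneOn (fun s => hel (w s)) (Ico 0 T) :=
    monotoneOn_of_deriv_nonneg (convex_Ico _ _) hcont
      (fun s hs => (hder s hs).differentiableAt.differentiableWithinAt)
      (fun s hs => by rw [(hder s hs).deriv])
  exact le_antisymm (h5 ⟨le_rfl, hTpos⟩ ht ht.1) (h6 ⟨le_rfl, hTpos⟩ ht ht.1)

end Pool.Agent.Y302.Tri
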