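import Pool.Agent.Y302.Tri.Count

/-!
The main theorem on the Euler equations with weighted triads.
-/

set_option autoImplicit false

open Set Filter Topology MeasureTheory
open scoped ContDiff ComplexConjugate

namespace Pool.Agent.Y302.Tri

open Pool.Agent.H708R2.EulerSign (V Periodic3 Dom divergence grad sum_mul_clm sum_mul_clm'
  divergence_eq_sum contDiff_slice divergence_smul dom_bdd dom_meas dom_lt_top sq3 sq3_nonneg
  sq3_eq_zero sq3_contDiff integral_divergence_eq_zero continuous_grad eq_zero_of_integral_eq_zero)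
open Pool.Agent.H708R2.EulerModes
open Pool.Agent.H708R2.EulerTypeI (nrm vort)
open Pool.Agent.Y302.Trunc hiding vort_bound unique no_extension unique_before
open Pool.Agent.Y302.KP

/-- The gradient of a solution is bounded on compact time intervals. -/
lemma vort_bound {T₁ : ℝ} {w : ℝ → V → V} {q : ℝ → V → ℝ}
    (hw : Base (Ico 0 T₁) w q) {b c : ℝ} (hb : 0 < b) (hc : c < T₁) :
    ∃ C, ∀ t ∈ Icc b c, ∫ x in cube, nrm (vort (w t) x) ≤ C := by
  have hO : IsOpen (Ioo 0 T₁ ×ˢ (univ : Set V)) := isOpen_Ioo.prod isOpen_univ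
  have hS1 : ContDiffOn ℝ 1 (fun z : ℝ × V => w z.1 z.2) (Ioo 0 T₁ ×ˢ univ) :=
    hw.contDiffOn_u.mono (prod_mono Ioo_subset_Ico_self subset_rfl)
  have hd : ContinuousOn (fderiv ℝ (fun z : ℝ × V => w z.1 z.2)) (Ioo 0 T₁ ×ˢ univ) :=
    hS1.continuousOn_fderiv_of_isOpen hO le_rfl
  have hK : IsCompact (Icc b c ×ˢ closure Dom) := isCompact_Icc.prod dom_bdd.isCompact_closure
  have hsub : Icc b c ×ˢ closure Dom ⊆ Ioo 0 T₁ ×ˢ (univ : Set V) :=
    prod_mono (fun s hs => ⟨hb.trans_le hs.1, hs.2.trans_lt hc⟩) (subset_univ _)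
  obtain ⟨C, hC⟩ := hK.exists_bound_of_continuousOn (hd.mono hsub)
  refine ⟨(6 * C) * (volume (Dom : Set V)).toReal, fun t ht => ?_⟩
  have htI : t ∈ Ioo 0 T₁ := ⟨hb.trans_le ht.1, ht.2.trans_lt hc⟩
  have hwp := hw.periodic_u t ⟨htI.1.le, htI.2⟩
  have hwt : ContDiff ℝ 1 (w t) := contDiff_slice hw.contDiffOn_u ⟨htI.1.le, htI.2⟩
  rw [integral_cube (nrm_vort_periodic hwp)]
  have hg : ∀ x ∈ Dom, ∀ i j, |grad (w t) x i j| ≤ C := by
    intro x hx i j
    have h1 : DifferentiableAt ℝ (fun z : ℝ × V => w z.1 z.2) (t, x) :=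
      (hS1.contDiffAt (hO.mem_nhds ⟨htI, mem_univ _⟩)).differentiableAt one_ne_zero
    have h2 : HasFDerivAt (fun y : V => ((t, y) : ℝ × V)) (ContinuousLinearMap.inr ℝ ℝ V) x :=
      hasFDerivAt_prodMk_right t x
    have h3 : HasFDerivAt (w t) ((fderiv ℝ (fun z : ℝ × V => w z.1 z.2) (t, x)).comp
        (ContinuousLinearMap.inr ℝ ℝ V)) x :=
      HasFDerivAt.comp (g := fun z : ℝ × V => w z.1 z.2) (f := fun y : V => ((t, y) : ℝ × V)) x
        h1.hasFDerivAt h2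
    have h4 : grad (w t) x i j = fderiv ℝ (fun z : ℝ × V => w z.1 z.2) (t, x)
        (0, Pi.single j 1) i := by
      have : grad (w t) x i j = fderiv ℝ (w t) x (Pi.single j 1) i := rfl
      rw [this, h3.fderiv]
      rfl
    rw [h4]
    have h5 := (fderiv ℝ (fun z : ℝ × V => w z.1 z.2) (t, x)).le_opNorm
      ((0, Pi.single j 1) : ℝ × V)
    have h6 : ‖((0, Pi.single j 1) : ℝ × V)‖ = 1 := by
      rw [Prod.norm_def]
      simp only [norm_zero]
      rw [Pi.norm_single, norm_one]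
      norm_num
    rw [h6, mul_one] at h5
    exact (norm_le_pi_norm _ i).trans (h5.trans (hC (t, x) ⟨ht, subset_closure hx⟩))
  have hv : ∀ x ∈ Dom, nrm (vort (w t) x) ≤ 6 * C := by
    intro x hx
    have hg' := hg x hx
    have hC0 : 0 ≤ C := (abs_nonneg _).trans (hg' 0 0)
    have hcomp : ∀ i, |vort (w t) x i| ≤ 2 * C := by
      intro i
      have key : ∀ i j k l : Fin 3, |grad (w t) x i j - grad (w t) x k l| ≤ 2 * C := by
        intro i j k l
        have := abs_sub (grad (w t) x i j) (grad (w t) x k l)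
        linarith [hg' i j, hg' k l]
      fin_cases i
      · exact key 2 1 1 2
      · exact key 0 2 2 0
      · exact key 1 0 0 1
    unfold nrm
    refine Real.sqrt_le_iff.2 ⟨by positivity, ?_⟩
    rw [dotProduct, Fin.sum_univ_three]
    have k0 := abs_le.1 (hcomp 0)
    have k1 := abs_le.1 (hcomp 1)
    have k2 := abs_le.1 (hcomp 2)
    nlinarith
  have hn : ∀ x, 0 ≤ nrm (vort (w t) x) := fun x => Real.sqrt_nonneg _
  have iN : IntegrableOn (fun x => nrm (vort (w t) x)) Dom :=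
    (nrm_vort_periodic hwp).integrableOn (continuous_nrm.comp (continuous_vort hwt))
  calc ∫ x in Dom, nrm (vort (w t) x) ≤ ∫ _x in Dom, 6 * C :=
        setIntegral_mono_on iN (integrableOn_const dom_lt_top.ne) dom_meas hv
    _ = _ := by rw [setIntegral_const, smul_eq_mul, Measure.real, mul_comm]


/-- The linear part is continuous in `x`, including the initial time. -/
lemma lin_continuous' {T : ℝ} {w : ℝ → V → V} {q : ℝ → V → ℝ} (hw : Base (Ico 0 T) w q) {t : ℝ}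
    (ht : t ∈ Ico 0 T) (i : Fin 3) : Continuous (lin (Ico 0 T) w q t i) := by
  have hqt : ContDiff ℝ 1 (q t) := contDiff_slice hw.contDiffOn_p ht
  have hU : UniqueDiffOn ℝ (Ico 0 T ×ˢ (univ : Set V)) :=
    (uniqueDiffOn_Ico 0 T).prod uniqueDiffOn_univ
  have hd : ContinuousOn (fun z : ℝ × V =>
      fderivWithin ℝ (fun z : ℝ × V => w z.1 z.2) (Ico 0 T ×ˢ univ) z (1, 0))
      (Ico 0 T ×ˢ univ) :=
    (hw.contDiffOn_u.continuousOn_fderivWithin hU le_rfl).clm_apply continuousOn_const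
  have h1 : Continuous (fun x : V => fderivWithin ℝ (fun z : ℝ × V => w z.1 z.2)
      (Ico 0 T ×ˢ univ) (t, x) (1, 0) i) :=
    (continuous_apply i).comp (hd.comp_continuous (f := fun x : V => ((t, x) : ℝ × V))
      (by fun_prop) (fun x => ⟨ht, mem_univ _⟩))
  have h2 : ∀ x, derivWithin (fun s => w s x i) (Ico 0 T) t
      = fderivWithin ℝ (fun z : ℝ × V => w z.1 z.2) (Ico 0 T ×ˢ univ) (t, x) (1, 0) i := by
    intro x
    have hline : HasDerivWithinAt (fun s : ℝ => ((s, x) : ℝ × V)) (1, 0) (Ico 0 T) t :=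
      ((hasDerivAt_id t).prodMk (hasDerivAt_const t x)).hasDerivWithinAt
    have h3 : HasFDerivWithinAt (fun z : ℝ × V => w z.1 z.2)
        (fderivWithin ℝ (fun z : ℝ × V => w z.1 z.2) (Ico 0 T ×ˢ univ) (t, x))
        (Ico 0 T ×ˢ univ) (t, x) :=
      ((hw.contDiffOn_u.differentiableOn one_ne_zero) (t, x) ⟨ht, mem_univ _⟩).hasFDerivWithinAt
    have h4 : HasDerivWithinAt (fun s => w s x)
        (fderivWithin ℝ (fun z : ℝ × V => w z.1 z.2) (Ico 0 T ×ˢ univ) (t, x) (1, 0))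
        (Ico 0 T) t :=
      HasFDerivWithinAt.comp_hasDerivWithinAt (l := fun z : ℝ × V => w z.1 z.2)
        (f := fun s : ℝ => ((s, x) : ℝ × V)) (s := Ico 0 T)
        (t := (Ico 0 T ×ˢ univ : Set (ℝ × V))) t h3 hline fun s hs => mk_mem_prod hs (mem_univ x)
    exact (hasDerivWithinAt_pi.1 h4 i).derivWithin (uniqueDiffOn_Ico 0 T t ht)
  have h5 : Continuous (fun x => fderiv ℝ (q t) x (Pi.single i 1)) :=
    (hqt.continuous_fderiv one_ne_zero).clm_apply continuous_const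
  unfold lin
  simp only [h2]
  exact h1.add h5

/-- A continuous periodic function without Fourier coefficients vanishes. -/
lemma eq_zero_of_cf {f : V → ℝ} (hp : Periodic3 f) (hc : Continuous f) (h : ∀ k, cf f k = 0) :
    ∀ x, f x = 0 := by
  have h1 := parseval hp hc hp hc
  simp only [h, map_zero, mul_zero] at h1
  have h2 := h1.unique hasSum_zero
  have h3 : vi * ∫ x in Dom, f x * f x = 0 := by exact_mod_cast h2
  have h4 := (mul_eq_zero.1 h3).resolve_left vi_pos.ne'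
  have hper : Periodic3 (fun x => f x * f x) := by
    intro i x
    simp only
    rw [hp i x]
  intro x
  have h5 := eq_zero_of_integral_eq_zero hper (hc.mul hc) (fun x => mul_self_nonneg _) h4 x
  exact mul_self_eq_zero.1 h5

/-- With all weights equal to one the equation is the Euler equation. -/
theorem euler_iff {T : ℝ} {w : ℝ → V → V} {q : ℝ → V → ℝ} (hw : Base (Ico 0 T) w q) {t : ℝ}
    (ht : t ∈ Ico 0 T) (i : Fin 3) :
    (∀ k, cf (lin (Ico 0 T) w q t i) k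
      = -∑' r, nl (fun _ _ => 1) (cv (w t)) (cv (w t)) k i r) ↔
    ∀ x, lin (Ico 0 T) w q t i x + cvt (w t) i x = 0 := by
  have hwt : ContDiff ℝ 1 (w t) := contDiff_slice hw.contDiffOn_u ht
  have hwp := hw.periodic_u t ht
  have hlc := lin_continuous' hw ht i
  have hcc := cvt_continuous hwt i
  have h1 : ∀ k, ∑' r, nl (fun _ _ => 1) (cv (w t)) (cv (w t)) k i r = cf (cvt (w t) i) k := by
    intro k
    rw [← (cvt_hasSum hwt hwp i k).tsum_eq]
    refine tsum_congr fun r => ?_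
    unfold nl
    simp
  simp only [h1]
  constructor
  · intro h
    refine eq_zero_of_cf (f := fun x => lin (Ico 0 T) w q t i x + cvt (w t) i x) ?_
      (hlc.add hcc) fun k => ?_
    · intro j x
      simp only
      rw [lin_periodic hw ht i j x, cvt_periodic hwp i j x]
    · rw [cf_add hlc hcc, h k]
      ring
  · intro h k
    have h2 := cf_add hlc hcc k
    have h3 : (fun x => lin (Ico 0 T) w q t i x + cvt (w t) i x) = fun _ => 0 := funext h
    rw [h3, cf_zero] at h2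
    exact eq_neg_of_add_eq_zero_left h2.symm

variable {M : ℕ} {T Ts : ℝ} {a : ℕ → ℝ → ℝ}

section main

variable (h : IsSol (Fc M) (gc M) T a) (hM : 0 < M) (hT : Ts < T)
  (hdec : ∀ T' < Ts, ∀ s : ℕ, ∃ B, ∀ t ∈ Icc 0 T', ∀ n, (2 : ℝ) ^ (s * n) * a n t ≤ B)
  (hrate : ∀ t ∈ Ico 0 Ts, ∀ B, (∀ n, gc M n * a n t ≤ B) → 1 / (5 * (Ts - t)) ≤ B)

include h hM hT hdec

/-- Uniqueness before the blow-up time. -/
lemma unique_before {η : K3 → K3 → ℝ} (hη : IsWeight η) (h0 : ∀ x ∈ T0 M, η x.1 x.2 = 0)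
    (h1 : ∀ x ∈ T1 M, η x.1 x.2 = 1) {T₁ : ℝ} {w : ℝ → V → V} {q : ℝ → V → ℝ}
    (hw : IsSolutionW η (Ico 0 T₁) w q) (hw0 : w 0 = uu M a 0) {t : ℝ}
    (ht : t ∈ Ico 0 T₁) (ht' : t < Ts) : w t = uu M a t := by
  obtain ⟨T', h2, h3⟩ := exists_between (lt_min ht.2 ht')
  have hT1 : T' ≤ T₁ := h3.le.trans (min_le_left _ _)
  have hT2 : T' < Ts := h3.trans_le (min_le_right _ _)
  have hs := isSolutionW h hM hT hdec h0 h1
  obtain ⟨B, hB⟩ := hs.sobolev T' ⟨ht.1.trans h2.le, hT2⟩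
  exact unique hη (hw.mono hT1) (hs.mono hT2.le)
    (fun s hs' => hB s ⟨hs'.1, hs'.2.trans hT2⟩ hs'.2.le) hw0 t ⟨ht.1, h2⟩

include hrate in
/-- No solution lives beyond the blow-up time. -/
lemma no_extension {η : K3 → K3 → ℝ} (hη : IsWeight η) (h0 : ∀ x ∈ T0 M, η x.1 x.2 = 0)
    (h1 : ∀ x ∈ T1 M, η x.1 x.2 = 1) {T₁ : ℝ} {w : ℝ → V → V} {q : ℝ → V → ℝ} (hTs : 0 < Ts)
    (hw : IsSolutionW η (Ico 0 T₁) w q) (hw0 : w 0 = uu M a 0) : T₁ ≤ Ts := by
  by_contra hcon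
  push Not at hcon
  obtain ⟨C, hC⟩ := vort_bound hw.base (b := Ts / 2) (c := Ts) (by positivity) hcon
  set D := max C 1 with hD
  have hD1 : 1 ≤ D := le_max_right _ _
  set δ := min (Ts / 2) (1 / D) with hδ
  have hδ0 : 0 < δ := lt_min (by positivity) (by positivity)
  have h1' : δ ≤ Ts / 2 := min_le_left _ _
  have h2 : δ ≤ 1 / D := min_le_right _ _
  have ht : Ts - δ ∈ Icc (Ts / 2) Ts := ⟨by linarith, by linarith⟩
  have ht' : Ts - δ ∈ Ico 0 Ts := ⟨by linarith, by linarith⟩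
  have h3 := hC _ ht
  rw [unique_before h hM hT hdec hη h0 h1 hw hw0 ⟨ht'.1, ht'.2.trans hcon⟩ ht'.2] at h3
  have h4 := blowup_rate h hM hT hdec hrate ht'
  have h5 : Ts - (Ts - δ) = δ := by ring
  rw [h5] at h4
  have h6 : 39 * D ≤ 39 / δ := by
    rw [le_div_iff₀ hδ0]
    calc 39 * D * δ ≤ 39 * D * (1 / D) := by gcongr
      _ = 39 := by field_simp
  have h7 : C ≤ D := le_max_left _ _
  linarith

end main

/-- The main theorem. -/
theorem main_tri (M : ℕ) (hM : 0 < M) :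
    ∃ T₀ T₁ : Set (K3 × K3), IsTriadSet T₀ ∧ IsTriadSet T₁ ∧ Disjoint T₀ T₁ ∧
      (∀ x ∈ T₀ ∪ T₁, ∃ i, (M : ℤ) ≤ |x.1 i|) ∧
      (∀ N : ℕ, 2 ≤ N → ({x ∈ T₀ | ∀ i, |x.1 i| ≤ N ∧ |x.2 i| ≤ N}.ncard : ℝ)
        ≤ 172800 * Real.log N ^ 2) ∧
      (∀ N : ℕ, 2 ≤ N → ({x ∈ T₁ | ∀ i, |x.1 i| ≤ N ∧ |x.2 i| ≤ N}.ncard : ℝ)
        ≤ 17280 * Real.log N) ∧
      ∃ (T : ℝ) (u : ℝ → V → V) (p : ℝ → V → ℝ),
        0 < T ∧ T ≤ 56 / M ∧ u 0 = datum M ∧
        (∀ t ∈ Ico 0 T, ContDiff ℝ ∞ (u t)) ∧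
        (∀ t ∈ Ico 0 T, 39 / (T - t) ≤ ∫ x in cube, nrm (vort (u t) x)) ∧
        ∀ η : K3 → K3 → ℝ, IsWeight η → (∀ x ∈ T₀, η x.1 x.2 = 0) → (∀ x ∈ T₁, η x.1 x.2 = 1) →
          IsSolutionW η (Ico 0 T) u p ∧
          ∀ (T' : ℝ) (w : ℝ → V → V) (q : ℝ → V → ℝ),
            IsSolutionW η (Ico 0 T') w q → w 0 = datum M →
              T' ≤ T ∧ ∀ t ∈ Ico 0 T', w t = u t := by
  obtain ⟨a, Ts, T, h, h0, hn, hTs, hTs', hT, hdec, hrate⟩ := main_ode hM (δ := 1 / 8) (by norm_num)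
  have hu0 := uu_zero hM h0 hn
  refine ⟨T0 M, T1 M, T0_triad hM, T1_triad hM, T_disjoint, fun x hx => T_low hM hx,
    fun N hN => count_T0 hM hN, fun N hN => count_T1 hM hN, Ts, uu M a, pp M a, hTs, ?_, hu0,
    fun t ht => uu_smooth h hM hT hdec ht, fun t ht => blowup_rate h hM hT hdec hrate ht,
    fun η hη h1 h2 => ⟨isSolutionW h hM hT hdec h1 h2, fun T' w q hw hw0 => ?_⟩⟩
  · refine hTs'.trans (le_of_eq ?_)
    have : (M : ℝ) ≠ 0 := by exact_mod_cast hM.ne'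
    field_simp
    norm_num
  · rw [← hu0] at hw0
    have h3 := no_extension h hM hT hdec hrate hη h1 h2 hTs hw hw0
    exact ⟨h3, fun t ht => unique_before h hM hT hdec hη h1 h2 hw hw0 ht (ht.2.trans_le h3)⟩

end Pool.Agent.Y302.Tri
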