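import Pool.Agent.Y302.Tri.Conv
import Pool.Agent.Y302.Trunc.Main

/-!
The blow-up solution solves the equations with weighted triads.
-/

set_option autoImplicit false

open Set Filter Topology MeasureTheory
open scoped ComplexConjugate

namespace Pool.Agent.Y302.Tri

open Pool.Agent.H708R2.EulerSign (V Periodic3 Dom divergence grad sum_mul_clm
  divergence_eq_sum contDiff_slice sq3 dom_meas dom_lt_top)
open Pool.Agent.H708R2.EulerModes
open Pool.Agent.Y302.Trunc
open Pool.Agent.Y302.KP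

/-- The triads two of whose members, but not the third, are frequencies of the chain. -/
def T0 (M : ℕ) : Set (K3 × K3) := {x | x.1 ≠ 0 ∧ x.2 ≠ 0 ∧ x.1 + x.2 ≠ 0 ∧
  ((x.1 ∈ Cset M ∧ x.2 ∈ Cset M ∧ x.1 + x.2 ∉ Cset M) ∨
   (x.1 ∈ Cset M ∧ x.2 ∉ Cset M ∧ x.1 + x.2 ∈ Cset M) ∨
   (x.1 ∉ Cset M ∧ x.2 ∈ Cset M ∧ x.1 + x.2 ∈ Cset M))}

/-- The triads of frequencies of the chain. -/
def T1 (M : ℕ) : Set (K3 × K3) := {x | x.1 ∈ Cset M ∧ x.2 ∈ Cset M ∧ x.1 + x.2 ∈ Cset M}

variable {M : ℕ} {l : K3} {α β γ w : ℕ → ℝ}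

/-- Coefficients of the residual, general form. -/
theorem Rf_coeff_of (hM : 0 < M) (hw : Summable fun n => w n * Bd M n) (hα : ∀ n, |α n| ≤ w n)
    (hβ : ∀ n, |β n| ≤ w n) (hγ : ∀ n, |γ n| ≤ w n) (i : Fin 3)
    (h0 : ∀ N, ∫ x in Dom, Rp M α β γ N x i * Real.sin (ph l x) = 0) :
    ∫ x in Dom, Rf M α β γ x i * Real.sin (ph l x) = 0 := by
  obtain ⟨C, hC⟩ := Rp_bound hM hw hα hβ hγ
  have h1 : Tendsto (fun N => ∫ x in Dom, Rp M α β γ N x i * Real.sin (ph l x)) atTop
      (𝓝 (∫ x in Dom, Rf M α β γ x i * Real.sin (ph l x))) := by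
    refine tendsto_integral_of_dominated_convergence (fun _ => C) (fun N => ?_) ?_ (fun N => ?_) ?_
    · exact ((hasSC_Rp (l := l) hM N i).cont.mul
        (Real.continuous_sin.comp (ph_contDiff l).continuous)).aestronglyMeasurable
    · exact integrableOn_const dom_lt_top.ne
    · refine Eventually.of_forall fun x => ?_
      rw [norm_mul]
      calc ‖Rp M α β γ N x i‖ * ‖Real.sin (ph l x)‖ ≤ C * 1 :=
            mul_le_mul (hC N x i) (Real.abs_sin_le_one _) (norm_nonneg _)
              ((abs_nonneg _).trans (hC N x i))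
        _ = C := mul_one _
    · exact Eventually.of_forall fun x => (Rp_tendsto hM hw hα hβ hγ x i).mul_const _
  simp only [h0] at h1
  exact (tendsto_nhds_unique h1 tendsto_const_nhds)

/-- The coefficients of the linear part outside of the chain. -/
theorem Rf_lin_coeff (hM : 0 < M) (hw : Summable fun n => w n * Bd M n)
    (hβ : ∀ n, |β n| ≤ w n) (hγ : ∀ n, |γ n| ≤ w n) (i : Fin 3) (hl : l ∉ Cset M) :
    ∫ x in Dom, Rf M (fun _ => 0) β γ x i * Real.sin (ph l x) = 0 := by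
  refine Rf_coeff_of hM hw (fun n => by simpa using (abs_nonneg _).trans (hβ n)) hβ hγ i
    fun N => ?_
  rw [(hasSC_Rp hM N i).int]
  have hn : ∀ n, l ∉ Lev M n := fun n h => hl ⟨n, h⟩
  simp [hn]

lemma continuous_Rf_lin (hM : 0 < M) (hw : Summable fun n => w n * Bd M n)
    (hβ : ∀ n, |β n| ≤ w n) (hγ : ∀ n, |γ n| ≤ w n) (i : Fin 3) :
    Continuous fun x => Rf M (fun _ => 0) β γ x i := by
  have h1 : Continuous fun x => ∑' n, β n • Ef M n x := by
    refine continuous_tsum (fun n => (Ef_contDiff n).continuous.const_smul (β n)) hw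
      fun n x => ?_
    rw [norm_smul]
    exact mul_le_mul (hβ n) (norm_Ef' hM n x) (norm_nonneg _) ((abs_nonneg _).trans (hβ n))
  have h2 : Continuous fun x => ∑' n, γ n • fderiv ℝ (Pf M n) x := by
    refine continuous_tsum (fun n =>
      ((Pf_contDiff n).continuous_fderiv (by simp)).const_smul (γ n)) hw fun n x => ?_
    rw [norm_smul]
    exact mul_le_mul (hγ n) (norm_dPf hM n x) (norm_nonneg _) ((abs_nonneg _).trans (hγ n))
  unfold Rf
  simp only [zero_smul, tsum_zero, zero_apply, Pi.zero_apply, add_zero]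
  exact ((continuous_apply i).comp h1).add (h2.clm_apply continuous_const)

variable {T Ts : ℝ} {a : ℕ → ℝ → ℝ}

section main

variable (h : IsSol (Fc M) (gc M) T a) (hM : 0 < M) (hT : Ts < T)
  (hdec : ∀ T' < Ts, ∀ s : ℕ, ∃ B, ∀ t ∈ Icc 0 T', ∀ n, (2 : ℝ) ^ (s * n) * a n t ≤ B)

include h hM hT hdec

lemma lin_eq {t : ℝ} (ht : t ∈ Ico 0 Ts) (i : Fin 3) (x : V) :
    lin (Ico 0 Ts) (uu M a) (pp M a) t i x
      = Rf M (fun _ => 0) (fun n => exb M a n t) (fun n => exc a n t) x i := by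
  unfold lin Rf
  rw [fderiv_pp h hM hT hdec ht]
  have h1 : HasDerivAt (fun s => uu M a s x) (∑' n, exb M a n t • Ef M n x) t :=
    (ser_u h hM hT hdec).hasDerivAt (mem_sym h hM hT hdec ht) x
  have h2 := (hasDerivAt_pi.1 h1 i).hasDerivWithinAt.derivWithin (uniqueDiffOn_Ico 0 Ts t ht)
  rw [h2]
  simp

omit h hM hT hdec in
lemma vi_vc : (vi : ℂ) * ((2 * vc : ℝ) : ℂ) = 1 := by
  have h1 : vi * (2 * vc) = 1 := by
    unfold vi vc
    rw [volume_Dom, Module.finrank_fin_fun]
    have : (2 * Real.pi) ^ 3 ≠ 0 := by positivity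
    field_simp
  rw [← Complex.ofReal_mul, h1, Complex.ofReal_one]

omit hM h hT hdec in
lemma cos_zero {g : V → ℝ} (hp : Periodic3 g) (hg : ∀ x, g (-x) = -g x) (k : K3) :
    ∫ x in Dom, g x * Real.cos (ph k x) = 0 := by
  rw [← cosCoeff_eq hp]
  exact odd_cosCoeff hg k

lemma continuous_uu {t : ℝ} (ht : t ∈ Ico 0 Ts) : Continuous (uu M a t) :=
  (contDiff_uu h hM hT hdec ht).continuous

lemma cv_uu {t : ℝ} (ht : t ∈ Ico 0 Ts) {n : ℕ} (hl : l ∈ Lev M n) (i : Fin 3) :
    cv (uu M a t) i l = -Complex.I * (a n t : ℂ) * (am M n l i : ℂ) := by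
  have hc : Continuous (fun x => uu M a t x i) :=
    (continuous_apply i).comp (continuous_uu h hM hT hdec ht)
  have hp := comp_periodic (uu_periodic (M := M) (a := a) t) i
  unfold cv
  rw [cf_eq hp hc, cos_zero hp (fun x => by rw [uu_odd]; rfl), uu_coeff h hM hT hdec ht hl]
  have := vi_vc
  push_cast at this ⊢
  linear_combination (-Complex.I * (a n t : ℂ) * (am M n l i : ℂ)) * this

lemma cv_uu_zero {t : ℝ} (ht : t ∈ Ico 0 Ts) (hl : l ∉ Cset M) (i : Fin 3) :
    cv (uu M a t) i l = 0 := by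
  have hc : Continuous (fun x => uu M a t x i) :=
    (continuous_apply i).comp (continuous_uu h hM hT hdec ht)
  have hp := comp_periodic (uu_periodic (M := M) (a := a) t) i
  unfold cv
  rw [cf_eq hp hc, cos_zero hp (fun x => by rw [uu_odd]; rfl), uu_coeff_zero h hM hT hdec ht hl]
  simp

lemma base_uu : Base (Ico 0 Ts) (uu M a) (pp M a) := by
  have hs := isSolution h hM hT hdec (R := Rset M) (fun k hk => hk.2.1) subset_rfl
  exact ⟨hs.1, hs.2, hs.3, hs.4, hs.5⟩

omit h hT hdec in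
lemma jb_le {n : ℕ} (hl : l ∈ Lev M n) : jb l ≤ 433 * (M : ℝ) ^ 2 * 64 ^ n := by
  have h1 : ∀ i, (l i : ℝ) ^ 2 ≤ 144 * ((M : ℝ) ^ 2 * 64 ^ n) := by
    intro i
    have h2 : |(l i : ℝ)| ≤ 12 * (sg M n : ℝ) := by exact_mod_cast Lev_up hM hl i
    have h3 : |(l i : ℝ)| ≤ 12 * (M * 8 ^ n) :=
      h2.trans (mul_le_mul_of_nonneg_left (sg_le n) (by norm_num))
    have h4 : |(l i : ℝ)| ^ 2 ≤ (12 * (M * 8 ^ n)) ^ 2 := pow_le_pow_left₀ (abs_nonneg _) h3 2
    rw [sq_abs] at h4
    have e : ((8 : ℝ) ^ n) ^ 2 = 64 ^ n := by rw [← pow_mul, mul_comm, pow_mul]; norm_num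
    calc (l i : ℝ) ^ 2 ≤ (12 * (M * 8 ^ n)) ^ 2 := h4
      _ = 144 * ((M : ℝ) ^ 2 * (8 ^ n) ^ 2) := by ring
      _ = _ := by rw [e]
  unfold jb
  have h5 : ∑ j, (l j : ℝ) ^ 2 ≤ ∑ _j : Fin 3, 144 * ((M : ℝ) ^ 2 * 64 ^ n) :=
    Finset.sum_le_sum fun j _ => h1 j
  rw [Finset.sum_const, Finset.card_univ, Fintype.card_fin] at h5
  have h6 : (1 : ℝ) ≤ (M : ℝ) ^ 2 * 64 ^ n := by
    have h7 : (1 : ℝ) ≤ (M : ℝ) ^ 2 := one_le_pow₀ (by exact_mod_cast hM)
    have h8 : (1 : ℝ) ≤ 64 ^ n := one_le_pow₀ (by norm_num)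
    nlinarith
  norm_num at h5
  linarith

/-- The bound in `H³`. -/
lemma HB_uu {s : ℝ} (hs : s ∈ Ico 0 Ts) : ∃ B, ∀ t ∈ Ico 0 Ts, t ≤ s → HB (cv (uu M a t)) B := by
  obtain ⟨T', h1, h2⟩ := exists_between hs.2
  obtain ⟨B, hB0, hB⟩ := RD_exa h hT hdec T' h2 10
  refine ⟨(433 * (M : ℝ) ^ 2) ^ 3 * (27 * B ^ 2) * 24 * (4 / 3), fun t ht hts F => ?_⟩
  classical
  set f : K3 → ℝ := fun k => jb k ^ 3 * ∑ i, ‖cv (uu M a t) i k‖ ^ 2 with hf
  have hf0 : ∀ k, 0 ≤ f k := fun k => by have := jb_pos k; positivity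
  have hfz : ∀ k, k ∉ Cset M → f k = 0 := by
    intro k hk
    simp [hf, cv_uu_zero h hM hT hdec ht hk]
  have htI : t ∈ Icc (-T') T' := ⟨by linarith [ht.1, ht.2, hs.1], by linarith⟩
  have hfl : ∀ n, ∀ k ∈ Lev M n, f k ≤ (433 * (M : ℝ) ^ 2) ^ 3 * (27 * B ^ 2) * (1 / 4) ^ n := by
    intro n k hk
    have hb := hB n t htI
    rw [exa_of_nonneg ht.1] at hb
    have e1 : ∑ i, ‖cv (uu M a t) i k‖ ^ 2 ≤ 27 * |a n t| ^ 2 := by
      have : ∀ i, ‖cv (uu M a t) i k‖ ^ 2 ≤ 9 * |a n t| ^ 2 := by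
        intro i
        rw [cv_uu h hM hT hdec ht hk, norm_mul, norm_mul, norm_neg, Complex.norm_I, one_mul,
          Complex.norm_real, Complex.norm_intCast, Real.norm_eq_abs, mul_pow]
        have h3 : |((am M n k i : ℤ) : ℝ)| ≤ 3 := by exact_mod_cast am_bd M n k i
        have h4 : |((am M n k i : ℤ) : ℝ)| ^ 2 ≤ 9 := by
          calc |((am M n k i : ℤ) : ℝ)| ^ 2 ≤ 3 ^ 2 := pow_le_pow_left₀ (abs_nonneg _) h3 2
            _ = 9 := by norm_num
        have h5 := mul_le_mul_of_nonneg_left h4 (sq_nonneg |a n t|)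
        linarith
      calc ∑ i, ‖cv (uu M a t) i k‖ ^ 2 ≤ ∑ _i : Fin 3, 9 * |a n t| ^ 2 :=
            Finset.sum_le_sum fun i _ => this i
        _ = _ := by simp; ring
    have e2 : jb k ^ 3 ≤ (433 * (M : ℝ) ^ 2 * 64 ^ n) ^ 3 :=
      pow_le_pow_left₀ (jb_pos k).le (jb_le hM hk) 3
    have e3 : ((2 : ℝ) ^ (10 * n) * |a n t|) ^ 2 ≤ B ^ 2 :=
      pow_le_pow_left₀ (by positivity) hb 2
    have e4 : ((2 : ℝ) ^ (10 * n)) ^ 2 * (1 / 4) ^ n = (64 ^ n) ^ 3 := by
      rw [← pow_mul, show 10 * n * 2 = 20 * n by ring, pow_mul, ← mul_pow, ← pow_mul,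
        mul_comm n 3, pow_mul]
      norm_num
    calc f k ≤ (433 * (M : ℝ) ^ 2 * 64 ^ n) ^ 3 * (27 * |a n t| ^ 2) :=
          mul_le_mul e2 e1 (Finset.sum_nonneg fun _ _ => sq_nonneg _) (by positivity)
      _ = (433 * (M : ℝ) ^ 2) ^ 3 * 27 * ((64 ^ n) ^ 3 * |a n t| ^ 2) := by ring
      _ = (433 * (M : ℝ) ^ 2) ^ 3 * 27 * (((2 : ℝ) ^ (10 * n) * |a n t|) ^ 2 * (1 / 4) ^ n) := by
          rw [← e4]; ring
      _ ≤ (433 * (M : ℝ) ^ 2) ^ 3 * 27 * (B ^ 2 * (1 / 4) ^ n) := by gcongr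
      _ = _ := by ring
  -- reduce to levels
  set F' := F.filter (fun k => k ∈ Cset M) with hF'
  have hsum : ∑ k ∈ F, f k = ∑ k ∈ F', f k := by
    rw [hF', Finset.sum_filter]
    exact Finset.sum_congr rfl fun k _ => by
      split_ifs with hk
      · rfl
      · exact hfz k hk
  obtain ⟨N, hN⟩ : ∃ N, F' ⊆ (Finset.range N).biUnion (Lev M) := by
    have hlev : ∀ k ∈ F', ∃ n, k ∈ Lev M n := fun k hk => (Finset.mem_filter.1 hk).2
    choose! lv hlv using hlev
    refine ⟨F'.sup lv + 1, fun k hk => Finset.mem_biUnion.2 ⟨lv k, ?_, hlv k hk⟩⟩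
    exact Finset.mem_range.2 (Nat.lt_succ_of_le (Finset.le_sup hk))
  have hdisj : Set.PairwiseDisjoint (↑(Finset.range N)) (Lev M) := by
    intro n _ m _ hnm
    rw [Function.onFun, Finset.disjoint_left]
    intro k hk1 hk2
    exact hnm (Lev_disjoint hM hk1 hk2)
  have hgeo : ∑ n ∈ Finset.range N, (1 / 4 : ℝ) ^ n ≤ 4 / 3 := by
    have := Summable.sum_le_tsum (Finset.range N) (fun n _ => by positivity)
      (summable_geometric_of_lt_one (by norm_num : (0 : ℝ) ≤ 1 / 4) (by norm_num))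
    rw [tsum_geometric_of_lt_one (by norm_num) (by norm_num)] at this
    norm_num at this ⊢
    exact this
  set K : ℝ := (433 * (M : ℝ) ^ 2) ^ 3 * (27 * B ^ 2) with hK
  have hK0 : 0 ≤ K := by positivity
  calc ∑ k ∈ F, jb k ^ 3 * ∑ i, ‖cv (uu M a t) i k‖ ^ 2 = ∑ k ∈ F', f k := hsum
    _ ≤ ∑ k ∈ (Finset.range N).biUnion (Lev M), f k :=
        Finset.sum_le_sum_of_subset_of_nonneg hN fun k _ _ => hf0 k
    _ = ∑ n ∈ Finset.range N, ∑ k ∈ Lev M n, f k := Finset.sum_biUnion hdisj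
    _ ≤ ∑ n ∈ Finset.range N, 24 * (K * (1 / 4) ^ n) := by
        refine Finset.sum_le_sum fun n _ => ?_
        calc ∑ k ∈ Lev M n, f k ≤ ∑ _k ∈ Lev M n, K * (1 / 4) ^ n :=
              Finset.sum_le_sum fun k hk => hfl n k hk
          _ = ((Lev M n).card : ℝ) * (K * (1 / 4) ^ n) := by rw [Finset.sum_const, nsmul_eq_mul]
          _ ≤ 24 * (K * (1 / 4) ^ n) := by
              refine mul_le_mul_of_nonneg_right ?_ (by positivity)
              exact_mod_cast card_Lev M n
    _ = (K * 24) * ∑ n ∈ Finset.range N, (1 / 4 : ℝ) ^ n := by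
        rw [Finset.mul_sum]
        exact Finset.sum_congr rfl fun n _ => by ring
    _ ≤ (K * 24) * (4 / 3) := mul_le_mul_of_nonneg_left hgeo (by positivity)

omit h hT hdec in
lemma zero_not_mem_Cset : (0 : K3) ∉ Cset M := by
  rintro ⟨n, hn⟩
  obtain ⟨p, hp⟩ := Lev_low hM hn
  have := sg_pos hM n
  simp only [Pi.zero_apply, abs_zero] at hp
  linarith

/-- The solution property. -/
theorem isSolutionW {η : K3 → K3 → ℝ} (h0 : ∀ x ∈ T0 M, η x.1 x.2 = 0)
    (h1 : ∀ x ∈ T1 M, η x.1 x.2 = 1) : IsSolutionW η (Ico 0 Ts) (uu M a) (pp M a) where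
  base := base_uu h hM hT hdec
  sobolev s hs := HB_uu h hM hT hdec hs
  momentum t ht k i := by
    obtain ⟨w, hw, hα, hβ, hγ⟩ := exists_w h hM hT hdec ht
    have hodd : ∀ x, lin (Ico 0 Ts) (uu M a) (pp M a) t i (-x)
        = -lin (Ico 0 Ts) (uu M a) (pp M a) t i x := by
      intro x
      rw [lin_eq h hM hT hdec ht, lin_eq h hM hT hdec ht, Rf_odd]
    have hlp : Periodic3 (lin (Ico 0 Ts) (uu M a) (pp M a) t i) := by
      intro j x
      rw [lin_eq h hM hT hdec ht, lin_eq h hM hT hdec ht]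
      exact Rf_periodic _ _ _ i j x
    have hlc : Continuous (lin (Ico 0 Ts) (uu M a) (pp M a) t i) := by
      have e : lin (Ico 0 Ts) (uu M a) (pp M a) t i
          = fun x => Rf M (fun _ => 0) (fun n => exb M a n t) (fun n => exc a n t) x i :=
        funext fun x => lin_eq h hM hT hdec ht i x
      rw [e]
      exact continuous_Rf_lin hM hw hβ hγ i
    have hreg : Reg (cv (uu M a t)) := by
      obtain ⟨B, hB⟩ := HB_uu h hM hT hdec ht
      have hb := hB t ht le_rfl
      have hbase := base_uu h hM hT hdec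
      exact ⟨fun i k => cv_conj _ i k, fun k => cv_div (contDiff_slice hbase.contDiffOn_u ht)
        (hbase.periodic_u t ht) (hbase.div_free t ht) k, hb.s0, hb.s1⟩
    by_cases hk : k ∈ Cset M
    · have hbase := base_uu h hM hT hdec
      have hut : ContDiff ℝ 1 (uu M a t) := contDiff_slice hbase.contDiffOn_u ht
      have hup := hbase.periodic_u t ht
      have h2 := cvt_hasSum hut hup i k
      have h3 : ∀ q, nl η (cv (uu M a t)) (cv (uu M a t)) k i q
          = (Complex.I * dt (cv (uu M a t)) (k - q) q) * cv (uu M a t) i q := by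
        intro q
        unfold nl
        by_cases hq : q ∈ Cset M
        · by_cases hkq : k - q ∈ Cset M
          · have hT1 : ((k - q, q) : K3 × K3) ∈ T1 M := ⟨hkq, hq, by simpa using hk⟩
            rw [h1 _ hT1]
            simp
          · have : dt (cv (uu M a t)) (k - q) q = 0 := by
              unfold dt
              simp [cv_uu_zero h hM hT hdec ht hkq]
            rw [this]
            simp
        · rw [cv_uu_zero h hM hT hdec ht hq]
          simp
      simp only [h3, h2.tsum_eq]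
      -- the whole momentum term has no mode `k`
      have hs := isSolution h hM hT hdec (R := Rset M) (fun k hk => hk.2.1) subset_rfl
      have hm := hs.momentum t ht k (fun h => h.2.1 hk) i
      have h4 : momentumTerm (Ico 0 Ts) (uu M a) (pp M a) t i
          = fun x => lin (Ico 0 Ts) (uu M a) (pp M a) t i x + cvt (uu M a t) i x := by
        funext x
        unfold momentumTerm lin cvt
        ring
      have h5 : cf (momentumTerm (Ico 0 Ts) (uu M a) (pp M a) t i) k = 0 := by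
        have hmp : Periodic3 (momentumTerm (Ico 0 Ts) (uu M a) (pp M a) t i) := by
          rw [h4]
          intro j x
          simp only
          rw [hlp j x, cvt_periodic hup i j x]
        have hmc : Continuous (momentumTerm (Ico 0 Ts) (uu M a) (pp M a) t i) := by
          rw [h4]
          exact hlc.add (cvt_continuous hut i)
        rw [cf_eq hmp hmc, ← cosCoeff_eq hmp, ← sinCoeff_eq hmp, hm.1, hm.2]
        simp
      rw [h4, cf_add hlc (cvt_continuous hut i)] at h5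
      exact eq_neg_of_add_eq_zero_left h5
    · -- outside of the chain both sides vanish
      have hz : cf (lin (Ico 0 Ts) (uu M a) (pp M a) t i) k = 0 := by
        rw [cf_eq hlp hlc, cos_zero hlp hodd]
        have e : ∀ x, lin (Ico 0 Ts) (uu M a) (pp M a) t i x
            = Rf M (fun _ => 0) (fun n => exb M a n t) (fun n => exc a n t) x i :=
          fun x => lin_eq h hM hT hdec ht i x
        simp only [e]
        rw [Rf_lin_coeff hM hw hβ hγ i hk]
        simp
      rw [hz]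
      have hnl : ∀ q, nl η (cv (uu M a t)) (cv (uu M a t)) k i q = 0 := by
        intro q
        unfold nl
        by_cases hq : q ∈ Cset M
        · by_cases hkq : k - q ∈ Cset M
          · by_cases hk0 : k = 0
            · have hd := hreg.div (k - q)
              have e : q = -(k - q) := by rw [hk0]; abel
              have h5 : dt (cv (uu M a t)) (k - q) (-(k - q)) = 0 := by
                rw [dt_neg_right, hd, neg_zero]
              rw [← e] at h5
              rw [h5]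
              simp
            · have hT0 : ((k - q, q) : K3 × K3) ∈ T0 M := by
                refine ⟨fun h0 => zero_not_mem_Cset hM (h0 ▸ hkq),
                  fun h0 => zero_not_mem_Cset hM (h0 ▸ hq), ?_, Or.inl ⟨hkq, hq, ?_⟩⟩
                · simpa using hk0
                · simpa using hk
              rw [h0 _ hT0]
              simp
          · have : dt (cv (uu M a t)) (k - q) q = 0 := by
              unfold dt
              simp [cv_uu_zero h hM hT hdec ht hkq]
            rw [this]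
            simp
        · rw [cv_uu_zero h hM hT hdec ht hq]
          simp
      simp [hnl]

end main

end Pool.Agent.Y302.Tri
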