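import Pool.Agent.Y302.Tri.Skew

/-!
Summability over the lattice and the class `H³`.
-/

set_option autoImplicit false

open Set Filter Topology

namespace Pool.Agent.Y302.Tri

open Pool.Agent.Y302.Trunc (K3)

/-- `1 + |k|²` -/
noncomputable def jb (k : K3) : ℝ := 1 + ∑ j, (k j : ℝ) ^ 2

lemma one_le_jb (k : K3) : 1 ≤ jb k := by
  unfold jb
  have : 0 ≤ ∑ j, (k j : ℝ) ^ 2 := Finset.sum_nonneg fun _ _ => sq_nonneg _
  linarith

lemma jb_pos (k : K3) : 0 < jb k := zero_lt_one.trans_le (one_le_jb k)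

/-- One dimensional sequence. -/
noncomputable def s1 (n : ℤ) : ℝ := (1 + (n : ℝ) ^ 2) ^ (-(2 / 3) : ℝ)

lemma s1_nonneg (n : ℤ) : 0 ≤ s1 n := Real.rpow_nonneg (by positivity) _

lemma summable_s1 : Summable s1 := by
  have h := (Real.summable_one_div_int_add_rpow (1 / 2) (4 / 3)).2 (by norm_num)
  refine Summable.of_nonneg_of_le s1_nonneg (fun n => ?_) (h.mul_left (2 ^ (2 / 3 : ℝ)))
  unfold s1
  set y : ℝ := |(n : ℝ) + 1 / 2| with hy
  have hy0 : 0 < y := by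
    rw [hy, abs_pos]
    intro h0
    have h1 : (2 * n + 1 : ℤ) = 0 := by
      have : ((2 * n + 1 : ℤ) : ℝ) = 0 := by push_cast; linarith
      exact_mod_cast this
    omega
  have h1 : y ^ 2 / 2 ≤ 1 + (n : ℝ) ^ 2 := by
    rw [hy, sq_abs]
    nlinarith [sq_nonneg ((n : ℝ) - 1 / 2)]
  have h2 : (1 + (n : ℝ) ^ 2) ^ (-(2 / 3) : ℝ) ≤ (y ^ 2 / 2) ^ (-(2 / 3) : ℝ) :=
    Real.rpow_le_rpow_of_nonpos (by positivity) h1 (by norm_num)
  refine h2.trans (le_of_eq ?_)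
  rw [Real.div_rpow (by positivity) (by norm_num), ← Real.rpow_natCast y 2, ← Real.rpow_mul hy0.le,
    Real.rpow_neg (by norm_num : (0 : ℝ) ≤ 2), div_inv_eq_mul, mul_comm]
  congr 1
  rw [one_div, ← Real.rpow_neg hy0.le]
  norm_num

lemma summable_prod3 {f : ℤ → ℝ} (hf : Summable f) (h0 : ∀ n, 0 ≤ f n) :
    Summable fun k : K3 => f (k 0) * f (k 1) * f (k 2) := by
  have h1 : Summable fun x : ℤ × ℤ => f x.1 * f x.2 := hf.mul_of_nonneg hf h0 h0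
  have h2 : Summable fun x : (ℤ × ℤ) × ℤ => f x.1.1 * f x.1.2 * f x.2 :=
    h1.mul_of_nonneg hf (fun x => mul_nonneg (h0 _) (h0 _)) h0
  let e : K3 → (ℤ × ℤ) × ℤ := fun k => ((k 0, k 1), k 2)
  have he : Function.Injective e := by
    intro a b h
    simp only [e, Prod.mk.injEq] at h
    funext i
    fin_cases i
    · exact h.1.1
    · exact h.1.2
    · exact h.2
  exact h2.comp_injective he

lemma summable_jb2 : Summable fun k : K3 => 1 / jb k ^ 2 := by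
  have h := summable_prod3 summable_s1 s1_nonneg
  refine Summable.of_nonneg_of_le (fun k => by have := jb_pos k; positivity) (fun k => ?_) h
  have hj := jb_pos k
  have h3 : ∀ j, s1 (k j) ≥ jb k ^ (-(2 / 3) : ℝ) := by
    intro j
    unfold s1
    refine Real.rpow_le_rpow_of_nonpos (by positivity) ?_ (by norm_num)
    unfold jb
    have : (k j : ℝ) ^ 2 ≤ ∑ j, (k j : ℝ) ^ 2 :=
      Finset.single_le_sum (f := fun j => (k j : ℝ) ^ 2) (fun _ _ => sq_nonneg _)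
        (Finset.mem_univ j)
    linarith
  have h4 : (0 : ℝ) ≤ jb k ^ (-(2 / 3) : ℝ) := Real.rpow_nonneg hj.le _
  calc 1 / jb k ^ 2 = jb k ^ (-(2 / 3) : ℝ) * jb k ^ (-(2 / 3) : ℝ) * jb k ^ (-(2 / 3) : ℝ) := by
        rw [← Real.rpow_add hj, ← Real.rpow_add hj, one_div, ← Real.rpow_natCast (jb k) 2,
          ← Real.rpow_neg hj.le]
        norm_num
    _ ≤ s1 (k 0) * s1 (k 1) * s1 (k 2) :=
        mul_le_mul (mul_le_mul (h3 0) (h3 1) h4 (s1_nonneg _)) (h3 2) h4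
          (mul_nonneg (s1_nonneg _) (s1_nonneg _))

lemma N1_sq_le (k : K3) : N1 k ^ 2 ≤ 3 * jb k := by
  unfold N1 jb
  rw [Fin.sum_univ_three, Fin.sum_univ_three]
  have h0 := sq_abs (k 0 : ℝ)
  have h1 := sq_abs (k 1 : ℝ)
  have h2 := sq_abs (k 2 : ℝ)
  nlinarith [sq_nonneg (|(k 0 : ℝ)| - |(k 1 : ℝ)|), sq_nonneg (|(k 0 : ℝ)| - |(k 2 : ℝ)|),
    sq_nonneg (|(k 1 : ℝ)| - |(k 2 : ℝ)|)]

/-- Pointwise bound. -/
lemma N1_mul_le (k : K3) (y : ℝ) :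
    (1 + N1 k) * y ≤ 4 * (1 / jb k ^ 2) + jb k ^ 3 * y ^ 2 := by
  have hj := one_le_jb k
  have hj0 := jb_pos k
  have hN := N1_nonneg k
  have h1 : (1 + N1 k) ^ 2 ≤ 8 * jb k := by nlinarith [N1_sq_le k, sq_nonneg (1 - N1 k)]
  -- `x y ≤ x²/(2 J) + J y² / 2`, `J = jb³`
  have h2 : 2 * ((1 + N1 k) * y) ≤ (1 + N1 k) ^ 2 / jb k ^ 3 + jb k ^ 3 * y ^ 2 := by
    have h3 : 0 ≤ ((1 + N1 k) / jb k ^ 3 - y) ^ 2 * jb k ^ 3 := by positivity
    have h4 : ((1 + N1 k) / jb k ^ 3 - y) ^ 2 * jb k ^ 3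
        = (1 + N1 k) ^ 2 / jb k ^ 3 + jb k ^ 3 * y ^ 2 - 2 * ((1 + N1 k) * y) := by
      field_simp
      ring
    linarith
  have h5 : (1 + N1 k) ^ 2 / jb k ^ 3 ≤ 8 * (1 / jb k ^ 2) := by
    rw [div_le_iff₀ (by positivity)]
    calc (1 + N1 k) ^ 2 ≤ 8 * jb k := h1
      _ = 8 * (1 / jb k ^ 2) * jb k ^ 3 := by field_simp
  have h6 : 0 ≤ jb k ^ 3 * y ^ 2 := by positivity
  linarith

/-- The square of the `H³` norm of the sequence is at most `B`. -/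
def HB (a : Fin 3 → K3 → ℂ) (B : ℝ) : Prop :=
  ∀ F : Finset K3, ∑ k ∈ F, jb k ^ 3 * ∑ i, ‖a i k‖ ^ 2 ≤ B

variable {a : Fin 3 → K3 → ℂ} {B : ℝ}

lemma HB.summable (h : HB a B) : Summable fun k => jb k ^ 3 * ∑ i, ‖a i k‖ ^ 2 :=
  summable_of_sum_le (fun k => by have := jb_pos k; positivity) h

lemma HB.tsum_le (h : HB a B) : ∑' k, jb k ^ 3 * ∑ i, ‖a i k‖ ^ 2 ≤ B :=
  h.summable.tsum_le_of_sum_le h

lemma norm_term_le (i : Fin 3) (k : K3) :
    (1 + N1 k) * ‖a i k‖ ≤ 4 * (1 / jb k ^ 2) + jb k ^ 3 * ∑ i, ‖a i k‖ ^ 2 := by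
  refine (N1_mul_le k _).trans ?_
  have h1 : ‖a i k‖ ^ 2 ≤ ∑ i, ‖a i k‖ ^ 2 :=
    Finset.single_le_sum (f := fun i => ‖a i k‖ ^ 2) (fun _ _ => sq_nonneg _) (Finset.mem_univ i)
  have h2 : 0 ≤ jb k ^ 3 := by have := jb_pos k; positivity
  have := mul_le_mul_of_nonneg_left h1 h2
  linarith

lemma HB.summable1 (h : HB a B) (i : Fin 3) : Summable fun k => (1 + N1 k) * ‖a i k‖ :=
  Summable.of_nonneg_of_le (fun k => by have := N1_nonneg k; positivity)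
    (fun k => norm_term_le i k) ((summable_jb2.mul_left 4).add h.summable)

lemma HB.s0 (h : HB a B) (i : Fin 3) : Summable fun k => ‖a i k‖ :=
  Summable.of_nonneg_of_le (fun k => norm_nonneg _) (fun k => by
    have := mul_nonneg (N1_nonneg k) (norm_nonneg (a i k))
    nlinarith) (h.summable1 i)

lemma HB.s1 (h : HB a B) (i : Fin 3) : Summable fun k => N1 k * ‖a i k‖ :=
  Summable.of_nonneg_of_le (fun k => mul_nonneg (N1_nonneg k) (norm_nonneg _)) (fun k => by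
    have := norm_nonneg (a i k)
    nlinarith) (h.summable1 i)

lemma HB.tsum1_le (h : HB a B) :
    ∑' k, N1 k * sz a k ≤ 3 * (4 * (∑' k : K3, 1 / jb k ^ 2) + B) := by
  have h1 : ∀ k, N1 k * sz a k ≤ 3 * (4 * (1 / jb k ^ 2) + jb k ^ 3 * ∑ i, ‖a i k‖ ^ 2) := by
    intro k
    unfold sz
    rw [Finset.mul_sum]
    calc ∑ i, N1 k * ‖a i k‖
        ≤ ∑ _i : Fin 3, (4 * (1 / jb k ^ 2) + jb k ^ 3 * ∑ i, ‖a i k‖ ^ 2) := by
          refine Finset.sum_le_sum fun i _ => le_trans ?_ (norm_term_le i k)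
          have := norm_nonneg (a i k)
          nlinarith
      _ = _ := by simp; ring
  have h2 : Summable fun k => 3 * (4 * (1 / jb k ^ 2) + jb k ^ 3 * ∑ i, ‖a i k‖ ^ 2) :=
    ((summable_jb2.mul_left 4).add h.summable).mul_left 3
  have h3 : Summable fun k => N1 k * sz a k :=
    Summable.of_nonneg_of_le (fun k => mul_nonneg (N1_nonneg k) (sz_nonneg _ _)) h1 h2
  refine (h3.tsum_le_tsum h1 h2).trans ?_
  rw [tsum_mul_left, (summable_jb2.mul_left 4).tsum_add h.summable, tsum_mul_left]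
  have := h.tsum_le
  linarith

end Pool.Agent.Y302.Tri
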