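import Pool.Agent.Y302.Tri.Main
import Pool.Agent.Y302.Tri.Hel2

/-!
Translation of the definitions.
-/

set_option autoImplicit false

open Set Filter Topology MeasureTheory
open scoped ComplexConjugate

namespace Pool.Agent.Y302.Tri

open Pool.Agent.H708R2.EulerSign (V Periodic3 Dom divergence grad sq3 sq3_contDiff
  divergence_eq_sum contDiff_slice dom_bdd dom_meas dom_lt_top continuous_grad)
open Pool.Agent.H708R2.EulerModes
open Pool.Agent.H708R2.EulerTypeI (vort)
open Pool.Agent.Y302.Trunc (K3)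

/-- The Fourier coefficient as an integral over the symmetric cube. -/
noncomputable def co (g : V → ℝ) (k : K3) : ℂ :=
  (∫ x in cube, (g x : ℂ) * Complex.exp (-Complex.I * (ph k x : ℂ))) / (2 * Real.pi) ^ 3

lemma co_eq {g : V → ℝ} (hp : Periodic3 g) (hc : Continuous g) (k : K3) : co g k = cf g k := by
  have e : ∀ x : V, (g x : ℂ) * Complex.exp (-Complex.I * (ph k x : ℂ))
      = ((g x * Real.cos (ph k x) : ℝ) : ℂ) - ((g x * Real.sin (ph k x) : ℝ) : ℂ) * Complex.I := by
    intro x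
    have e1 : -Complex.I * (ph k x : ℂ) = ((-(ph k x) : ℝ) : ℂ) * Complex.I := by push_cast; ring
    rw [e1, Complex.exp_mul_I, ← Complex.ofReal_cos, ← Complex.ofReal_sin, Real.cos_neg,
      Real.sin_neg]
    push_cast
    ring
  have hcube : IsCompact (cube : Set V) := isCompact_Icc
  have ic : IntegrableOn (fun x => g x * Real.cos (ph k x)) cube :=
    (hc.mul (Real.continuous_cos.comp (ph_contDiff k).continuous)).continuousOn.integrableOn_compact
      hcube
  have is : IntegrableOn (fun x => g x * Real.sin (ph k x)) cube :=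
    (hc.mul (Real.continuous_sin.comp (ph_contDiff k).continuous)).continuousOn.integrableOn_compact
      hcube
  unfold co
  simp only [e]
  rw [integral_sub ic.ofReal (is.ofReal.mul_const _), integral_mul_const, integral_complex_ofReal,
    integral_complex_ofReal, cf_eq hp hc k, ← cosCoeff_eq hp, ← sinCoeff_eq hp, vi_eq]
  unfold cosCoeff sinCoeff
  push_cast
  rw [div_eq_inv_mul]

/-- Regular fields. -/
structure IsReg (I : Set ℝ) (u : ℝ → V → V) (p : ℝ → V → ℝ) : Prop where
  base : Base I u p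
  sobolev : ∀ s ∈ I, ∃ B : ℝ, ∀ t ∈ I, t ≤ s → ∀ F : Finset K3,
    ∑ k ∈ F, (1 + ∑ j, (k j : ℝ) ^ 2) ^ 3 * ∑ i, ‖co (fun x => u t x i) k‖ ^ 2 ≤ B

/-- The equation in terms of coefficients. -/
def Mom (η : K3 → K3 → ℝ) (I : Set ℝ) (u : ℝ → V → V) (p : ℝ → V → ℝ) : Prop :=
  ∀ t ∈ I, ∀ i k, co (fun x => derivWithin (fun s => u s x i) I t
      + fderiv ℝ (p t) x (Pi.single i 1)) k
    = -∑' q, (η (k - q) q : ℂ) * (Complex.I * ∑ j, co (fun x => u t x j) (k - q) * (q j : ℂ))
      * co (fun x => u t x i) q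

variable {η : K3 → K3 → ℝ} {T : ℝ} {u : ℝ → V → V} {p : ℝ → V → ℝ}

lemma co_u (h : Base (Ico 0 T) u p) {t : ℝ} (ht : t ∈ Ico 0 T) (i : Fin 3) (k : K3) :
    co (fun x => u t x i) k = cv (u t) i k := by
  have hut : ContDiff ℝ 1 (u t) := contDiff_slice h.contDiffOn_u ht
  exact co_eq (comp_periodic (h.periodic_u t ht) i) ((continuous_apply i).comp hut.continuous) k

lemma mom_iff (h : Base (Ico 0 T) u p) : Mom η (Ico 0 T) u p ↔
    ∀ t ∈ Ico 0 T, ∀ k i, cf (lin (Ico 0 T) u p t i) k = -∑' q, nl η (cv (u t)) (cv (u t)) k i q := by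
  have key : ∀ t ∈ Ico 0 T, ∀ i k, (co (fun x => derivWithin (fun s => u s x i) (Ico 0 T) t
      + fderiv ℝ (p t) x (Pi.single i 1)) k
    = -∑' q, (η (k - q) q : ℂ) * (Complex.I * ∑ j, co (fun x => u t x j) (k - q) * (q j : ℂ))
      * co (fun x => u t x i) q) ↔
      cf (lin (Ico 0 T) u p t i) k = -∑' q, nl η (cv (u t)) (cv (u t)) k i q := by
    intro t ht i k
    have h1 : co (fun x => derivWithin (fun s => u s x i) (Ico 0 T) t
      + fderiv ℝ (p t) x (Pi.single i 1)) k = cf (lin (Ico 0 T) u p t i) k :=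
      co_eq (lin_periodic h ht i) (lin_continuous' h ht i) k
    rw [h1]
    simp only [co_u h ht]
    rfl
  constructor
  · intro h1 t ht k i
    exact (key t ht i k).1 (h1 t ht i k)
  · intro h1 t ht i k
    exact (key t ht i k).2 (h1 t ht k i)

lemma sob_iff (h : Base (Ico 0 T) u p) {t : ℝ} (ht : t ∈ Ico 0 T) (B : ℝ) :
    (∀ F : Finset K3,
      ∑ k ∈ F, (1 + ∑ j, (k j : ℝ) ^ 2) ^ 3 * ∑ i, ‖co (fun x => u t x i) k‖ ^ 2 ≤ B) ↔
    HB (cv (u t)) B := by
  simp only [co_u h ht]
  rfl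

lemma sol_iff : (IsReg (Ico 0 T) u p ∧ Mom η (Ico 0 T) u p) ↔ IsSolutionW η (Ico 0 T) u p := by
  constructor
  · rintro ⟨h1, h2⟩
    refine ⟨h1.base, fun s hs => ?_, (mom_iff h1.base).1 h2⟩
    obtain ⟨B, hB⟩ := h1.sobolev s hs
    exact ⟨B, fun t ht hts => (sob_iff h1.base ht B).1 (hB t ht hts)⟩
  · intro h
    refine ⟨⟨h.base, fun s hs => ?_⟩, (mom_iff h.base).2 h.momentum⟩
    obtain ⟨B, hB⟩ := h.sobolev s hs
    exact ⟨B, fun t ht hts => (sob_iff h.base ht B).2 (hB t ht hts)⟩

/-- For the weight one the equations are the Euler equations. -/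
lemma mom_one_iff (h : Base (Ico 0 T) u p) : Mom (fun _ _ => 1) (Ico 0 T) u p ↔
    ∀ t ∈ Ico 0 T, ∀ x i, derivWithin (fun s => u s x i) (Ico 0 T) t
      + ∑ j, u t x j * fderiv ℝ (u t) x (Pi.single j 1) i + fderiv ℝ (p t) x (Pi.single i 1)
        = 0 := by
  rw [mom_iff h]
  constructor
  · intro h1 t ht x i
    have h2 := (euler_iff h ht i).1 (fun k => h1 t ht k i) x
    unfold lin cvt at h2
    linarith
  · intro h1 t ht k i
    refine (euler_iff h ht i).2 (fun x => ?_) k
    have h2 := h1 t ht x i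
    unfold lin cvt
    linarith

lemma energy_eq {v : V → V} (hp : Periodic3 v) :
    ∫ x in cube, ∑ i, v x i ^ 2 = ∫ x in Dom, sq3 (v x) := by
  refine integral_cube ?_
  intro i x
  simp only
  rw [hp i x]

lemma hel_eq {v : V → V} (hv : ContDiff ℝ 1 v) (hp : Periodic3 v) :
    ∫ x in cube, ∑ i, v x i * vort v x i = hel v := by
  have hper : ∀ i, Periodic3 (fun x => v x i * vort v x i) := by
    intro i j x
    have h1 := vort_per hp i j x
    simp only at h1 ⊢
    rw [h1, hp j x]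
  have h1 : Periodic3 (fun x => ∑ i, v x i * vort v x i) := by
    intro j x
    exact Finset.sum_congr rfl fun i _ => hper i j x
  rw [integral_cube h1, integral_finsetSum]
  · rfl
  · intro i _
    exact (hper i).integrableOn (((continuous_apply i).comp hv.continuous).mul (vort_cont hv i))

end Pool.Agent.Y302.Tri
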