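import Pool.Agent.Y302.Tri.Base
import Pool.Agent.Y302.Tri.Sum3

/-!
The Euler equations with weighted triads: uniqueness and conservation of energy.
-/

set_option autoImplicit false

open Set Filter Topology MeasureTheory
open scoped ComplexConjugate

namespace Pool.Agent.Y302.Tri

open Pool.Agent.H708R2.EulerSign (V Periodic3 Dom divergence grad sum_mul_clm sum_mul_clm'
  divergence_eq_sum contDiff_slice sq3 sq3_nonneg sq3_eq_zero sq3_contDiff hasFDerivAt_sq3
  quad_bound divergence_smul dom_bdd dom_meas dom_lt_top integral_divergence_eq_zero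
  eq_zero_of_integral_eq_zero continuous_grad)
open Pool.Agent.H708R2.EulerModes
open Pool.Agent.Y302.Trunc (K3)

/-- The Fourier coefficients of a vector field. -/
noncomputable def cv (v : V → V) : Fin 3 → K3 → ℂ := fun i k => cf (fun x => v x i) k

/-- Solutions of the Euler equations with weighted triads. -/
structure IsSolutionW (η : K3 → K3 → ℝ) (I : Set ℝ) (u : ℝ → V → V) (p : ℝ → V → ℝ) : Prop where
  base : Base I u p
  sobolev : ∀ s ∈ I, ∃ B, ∀ t ∈ I, t ≤ s → HB (cv (u t)) B
  momentum : ∀ t ∈ I, ∀ k i, cf (lin I u p t i) k = -∑' q, nl η (cv (u t)) (cv (u t)) k i q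

variable {η : K3 → K3 → ℝ} {T : ℝ} {w u : ℝ → V → V} {q p : ℝ → V → ℝ}

lemma cv_conj (v : V → V) (i : Fin 3) (k : K3) : conj (cv v i k) = cv v i (-k) := cf_conj _ k

lemma cv_div {v : V → V} (hv : ContDiff ℝ 1 v) (hp : Periodic3 v)
    (hd : ∀ x, divergence v x = 0) (k : K3) : dt (cv v) k k = 0 := by
  have h1 : ∀ j, Complex.I * (k j : ℂ) * cv v j k
      = cf (fun x => fderiv ℝ v x (Pi.single j 1) j) k := by
    intro j
    have hvj : ContDiff ℝ 1 (fun x => v x j) := (contDiff_apply ℝ ℝ j).comp hv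
    have h2 := cf_pd (comp_periodic hp j) hvj j k
    have h3 : (fun x => fderiv ℝ (fun x => v x j) x (Pi.single j 1))
        = fun x => fderiv ℝ v x (Pi.single j 1) j := by
      funext x
      have h4 : HasFDerivAt (fun x => v x j)
          ((ContinuousLinearMap.proj j : V →L[ℝ] ℝ).comp (fderiv ℝ v x)) x :=
        (ContinuousLinearMap.proj j : V →L[ℝ] ℝ).hasFDerivAt.comp x
          ((hv.differentiable one_ne_zero) x).hasFDerivAt
      rw [h4.fderiv]
      rfl
    rw [h3] at h2
    exact h2.symm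
  have hc : ∀ j, Continuous (fun x => fderiv ℝ v x (Pi.single j 1) j) := fun j =>
    (continuous_apply j).comp ((hv.continuous_fderiv one_ne_zero).clm_apply continuous_const)
  have h5 : Complex.I * dt (cv v) k k = 0 := by
    unfold dt
    rw [Finset.mul_sum]
    have h6 : ∀ j, Complex.I * (cv v j k * (k j : ℂ))
        = cf (fun x => fderiv ℝ v x (Pi.single j 1) j) k := by
      intro j
      rw [← h1 j]; ring
    simp only [h6, Fin.sum_univ_three]
    have h8 : Continuous (fun x => fderiv ℝ v x (Pi.single 0 1) 0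
        + fderiv ℝ v x (Pi.single 1 1) 1) := (hc 0).add (hc 1)
    rw [← cf_add (hc 0) (hc 1), ← cf_add h8 (hc 2)]
    have h7 : (fun x => fderiv ℝ v x (Pi.single 0 1) 0 + fderiv ℝ v x (Pi.single 1 1) 1
        + fderiv ℝ v x (Pi.single 2 1) 2) = fun _ => (0 : ℝ) := by
      funext x
      have := hd x
      rw [divergence_eq_sum, Fin.sum_univ_three] at this
      exact this
    rw [h7, cf_zero]
  exact (mul_eq_zero.1 h5).resolve_left Complex.I_ne_zero

lemma IsSolutionW.reg (h : IsSolutionW η (Ico 0 T) u p) {t : ℝ} (ht : t ∈ Ico 0 T) :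
    Reg (cv (u t)) := by
  obtain ⟨B, hB⟩ := h.sobolev t ht
  have hb := hB t ht le_rfl
  exact ⟨fun i k => cv_conj _ i k, fun k => cv_div (contDiff_slice h.base.contDiffOn_u ht)
    (h.base.periodic_u t ht) (h.base.div_free t ht) k, hb.s0, hb.s1⟩

lemma IsSolutionW.mono {T' : ℝ} (h : IsSolutionW η (Ico 0 T) u p) (hT' : T' ≤ T) :
    IsSolutionW η (Ico 0 T') u p := by
  have hsub : Ico (0 : ℝ) T' ⊆ Ico 0 T := Ico_subset_Ico_right hT'
  refine ⟨h.base.mono hT', fun s hs => ?_, fun t ht k i => ?_⟩
  · obtain ⟨B, hB⟩ := h.sobolev s (hsub hs)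
    exact ⟨B, fun t ht hts => hB t (hsub ht) hts⟩
  · rw [lin_mono hT' ht, h.momentum t (hsub ht)]

/-- The zero field. -/
lemma zero_solution : IsSolutionW η (Ico 0 T) (fun _ _ => 0) (fun _ _ => 0) := by
  have e : cv (fun _ => (0 : V)) = fun _ _ => 0 := by
    funext i k
    exact cf_zero k
  refine ⟨⟨contDiffOn_const, contDiffOn_const, fun _ _ _ _ => rfl, fun _ _ _ _ => rfl,
    fun t _ x => ?_⟩, fun s _ => ⟨0, fun t _ _ F => ?_⟩, fun t _ k i => ?_⟩
  · rw [divergence_eq_sum]
    simp
  · rw [e]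
    simp
  · rw [e]
    have h1 : lin (Ico 0 T) (fun _ _ => (0 : V)) (fun _ _ => (0 : ℝ)) t i = fun _ => 0 := by
      funext x
      unfold lin
      simp
    rw [h1, cf_zero]
    simp [nl]

/-- The energy of the difference in terms of the coefficients. -/
lemma en_eq (hw : Base (Ico 0 T) w q) (hu : Base (Ico 0 T) u p) {t : ℝ} (ht : t ∈ Ico 0 T) :
    HasSum (fun k => ∑ i, ‖cv (w t) i k - cv (u t) i k‖ ^ 2) (vi * en w u t) := by
  have hwt : ContDiff ℝ 1 (w t) := contDiff_slice hw.contDiffOn_u ht
  have hut : ContDiff ℝ 1 (u t) := contDiff_slice hu.contDiffOn_u ht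
  have cw : ∀ i, Continuous (fun x => w t x i) := fun i => (continuous_apply i).comp hwt.continuous
  have cu : ∀ i, Continuous (fun x => u t x i) := fun i => (continuous_apply i).comp hut.continuous
  have pw : ∀ i, Periodic3 (fun x => w t x i) := fun i => comp_periodic (hw.periodic_u t ht) i
  have pu : ∀ i, Periodic3 (fun x => u t x i) := fun i => comp_periodic (hu.periodic_u t ht) i
  have pd : ∀ i, Periodic3 (fun x => w t x i - u t x i) := by
    intro i j x
    have h1 := pw i j x
    have h2 := pu i j x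
    simp only at h1 h2 ⊢
    rw [h1, h2]
  have h1 : ∀ i, HasSum (fun k => ‖cv (w t) i k - cv (u t) i k‖ ^ 2)
      (vi * ∫ x in Dom, (w t x i - u t x i) * (w t x i - u t x i)) := by
    intro i
    have h2 := parseval (pd i) ((cw i).sub (cu i)) (pd i) ((cw i).sub (cu i))
    have h3 := Complex.hasSum_re h2
    rw [Complex.ofReal_re] at h3
    refine h3.congr_fun fun k => ?_
    rw [cf_sub (cw i) (cu i), ← Complex.normSq_eq_conj_mul_self, Complex.ofReal_re,
      Complex.normSq_eq_norm_sq]
    rfl
  have h4 := hasSum_sum (s := Finset.univ) fun i _ => h1 i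
  have h5 : ∑ i, vi * ∫ x in Dom, (w t x i - u t x i) * (w t x i - u t x i) = vi * en w u t := by
    rw [← Finset.mul_sum]
    congr 1
    unfold en sq3
    rw [integral_finsetSum]
    · refine Finset.sum_congr rfl fun i _ => ?_
      congr 1
      funext x
      rw [Pi.sub_apply, sq]
    · intro i _
      have h6 : Periodic3 (fun x => (w t x - u t x) i ^ 2) := by
        intro j x
        have := pd i j x
        simp only at this
        simp only [Pi.sub_apply, this]
      exact h6.integrableOn (((cw i).sub (cu i)).pow 2)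
  rw [h5] at h4
  exact h4

/-- The energy estimate. -/
theorem en_deriv_le (hη : IsWeight η) {C : ℝ} (hC : ∀ p q, |η p q| ≤ C)
    (hw : IsSolutionW η (Ico 0 T) w q) (hu : IsSolutionW η (Ico 0 T) u p)
    {t : ℝ} (ht : t ∈ Ioo 0 T) :
    |∫ x in Dom, dS w u t x| ≤ 6 * C * (∑' k, N1 k * sz (cv (u t)) k) * en w u t := by
  have htI : t ∈ Ico 0 T := ⟨ht.1.le, ht.2⟩
  have hwt : ContDiff ℝ 1 (w t) := contDiff_slice hw.base.contDiffOn_u htI
  have hut : ContDiff ℝ 1 (u t) := contDiff_slice hu.base.contDiffOn_u htI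
  have cw : ∀ i, Continuous (fun x => w t x i) := fun i => (continuous_apply i).comp hwt.continuous
  have cu : ∀ i, Continuous (fun x => u t x i) := fun i => (continuous_apply i).comp hut.continuous
  have cA := fun i => lin_continuous hw.base ht i
  have cB := fun i => lin_continuous hu.base ht i
  have pd : ∀ i, Periodic3 (fun x => w t x i - u t x i) := by
    intro i j x
    have h1 := comp_periodic (hw.base.periodic_u t htI) i j x
    have h2 := comp_periodic (hu.base.periodic_u t htI) i j x
    simp only at h1 h2 ⊢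
    rw [h1, h2]
  have pl : ∀ i, Periodic3 (fun x => lin (Ico 0 T) w q t i x - lin (Ico 0 T) u p t i x) := by
    intro i j x
    simp only
    rw [lin_periodic hw.base htI i j x, lin_periodic hu.base htI i j x]
  have h1 : ∀ i, HasSum (fun k => conj (cv (w t) i k - cv (u t) i k)
      * (-(∑' q, nl η (cv (w t)) (cv (w t)) k i q) - -(∑' q, nl η (cv (u t)) (cv (u t)) k i q)))
      ((vi * ∫ x in Dom, (w t x i - u t x i)
        * (lin (Ico 0 T) w q t i x - lin (Ico 0 T) u p t i x) : ℝ) : ℂ) := by
    intro i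
    have h2 := parseval (pd i) ((cw i).sub (cu i)) (pl i) ((cA i).sub (cB i))
    refine h2.congr_fun fun k => ?_
    rw [cf_sub (cw i) (cu i), cf_sub (cA i) (cB i), hw.momentum t htI, hu.momentum t htI]
    rfl
  have h3 := hasSum_sum (s := Finset.univ) fun i _ => h1 i
  rw [← Complex.ofReal_sum] at h3
  have h4 := energy_bound hη hC (hw.reg htI) (hu.reg htI) h3
  have h5 := (en_eq hw.base hu.base htI).tsum_eq
  rw [h5, ← Finset.mul_sum, abs_mul, abs_of_pos vi_pos] at h4
  rw [int_dS hw.base hu.base ht, ← Finset.mul_sum, abs_mul, abs_two]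
  have h6 : vi * |∑ i, ∫ x in Dom, (w t x i - u t x i)
        * (lin (Ico 0 T) w q t i x - lin (Ico 0 T) u p t i x)|
      ≤ vi * (3 * C * (∑' k, N1 k * sz (cv (u t)) k) * en w u t) := by
    refine h4.trans (le_of_eq ?_)
    ring
  have h7 := le_of_mul_le_mul_left h6 vi_pos
  linarith

/-- Conservation of energy. -/
theorem energy_const (hη : IsWeight η) (hw : IsSolutionW η (Ico 0 T) w q) {t : ℝ}
    (ht : t ∈ Ico 0 T) : ∫ x in Dom, sq3 (w t x) = ∫ x in Dom, sq3 (w 0 x) := by
  obtain ⟨C, hC⟩ := hη.bdd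
  set u : ℝ → V → V := fun _ _ => 0 with hu
  have h0 : IsSolutionW η (Ico 0 T) u (fun _ _ => 0) := zero_solution
  have hz : ∀ s ∈ Ioo 0 T, ∫ x in Dom, dS w u s x = 0 := by
    intro s hs
    have h1 := en_deriv_le hη hC hw h0 hs
    have h2 : ∀ k, sz (cv (u s)) k = 0 := by
      intro k
      have : ∀ i, cv (u s) i k = 0 := fun i => cf_zero k
      simp [sz, this]
    simp only [h2, mul_zero, tsum_zero, zero_mul] at h1
    exact abs_eq_zero.1 (le_antisymm h1 (abs_nonneg _))
  have h3 : ∀ s, en w u s = ∫ x in Dom, sq3 (w s x) := by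
    intro s
    unfold en
    simp [hu]
  rw [← h3, ← h3]
  have hTpos : 0 < T := ht.1.trans_lt ht.2
  have hcont := en_continuousOn hw.base h0.base
  have hder : ∀ s ∈ interior (Ico 0 T), HasDerivAt (en w u) 0 s := by
    intro s hs
    rw [interior_Ico] at hs
    have := en_hasDerivAt hw.base h0.base hs
    rwa [hz s hs] at this
  have h5 : AntitoneOn (en w u) (Ico 0 T) :=
    antitoneOn_of_deriv_nonpos (convex_Ico _ _) hcont
      (fun s hs => (hder s hs).differentiableAt.differentiableWithinAt)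
      (fun s hs => by rw [(hder s hs).deriv])
  have h6 : MonotoneOn (en w u) (Ico 0 T) :=
    monotoneOn_of_deriv_nonneg (convex_Ico _ _) hcont
      (fun s hs => (hder s hs).differentiableAt.differentiableWithinAt)
      (fun s hs => by rw [(hder s hs).deriv])
  exact le_antisymm (h5 ⟨le_rfl, hTpos⟩ ht ht.1) (h6 ⟨le_rfl, hTpos⟩ ht ht.1)

/-- Uniqueness. -/
theorem unique (hη : IsWeight η) (hw : IsSolutionW η (Ico 0 T) w q)
    (hu : IsSolutionW η (Ico 0 T) u p) {B : ℝ} (hB : ∀ t ∈ Ico 0 T, HB (cv (u t)) B)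
    (h0 : w 0 = u 0) : ∀ t ∈ Ico 0 T, w t = u t := by
  intro t ht
  obtain ⟨C, hC⟩ := hη.bdd
  have hC0 : 0 ≤ C := (abs_nonneg _).trans (hC 0 0)
  have hTpos : 0 < T := ht.1.trans_lt ht.2
  have hcont := en_continuousOn hw.base hu.base
  set K : ℝ := 6 * C * (3 * (4 * (∑' k : K3, 1 / jb k ^ 2) + B)) with hK
  have hle : ∀ s ∈ Ioo 0 T, |∫ x in Dom, dS w u s x| ≤ K * en w u s := by
    intro s hs
    refine (en_deriv_le hη hC hw hu hs).trans ?_
    refine mul_le_mul_of_nonneg_right ?_ (en_nonneg s)
    exact mul_le_mul_of_nonneg_left (hB s ⟨hs.1.le, hs.2⟩).tsum1_le (by positivity)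
  have hE0 : en w u 0 = 0 := by
    unfold en
    rw [h0]
    simp [sq3]
  have hEz : en w u t = 0 := by
    refine le_antisymm ?_ (en_nonneg t)
    have hanti : AntitoneOn (fun s => en w u s * Real.exp (-K * s)) (Ico 0 T) := by
      have hder : ∀ s ∈ interior (Ico 0 T), HasDerivAt
          (fun s => en w u s * Real.exp (-K * s))
          ((∫ x in Dom, dS w u s x) * Real.exp (-K * s)
            + en w u s * (Real.exp (-K * s) * (-K * 1))) s := by
        intro s hs
        rw [interior_Ico] at hs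
        exact (en_hasDerivAt hw.base hu.base hs).mul (((hasDerivAt_id s).const_mul (-K)).exp)
      refine antitoneOn_of_deriv_nonpos (convex_Ico _ _) ?_ ?_ ?_
      · exact hcont.mul (by fun_prop)
      · intro s hs
        exact (hder s hs).differentiableAt.differentiableWithinAt
      · intro s hs
        rw [(hder s hs).deriv]
        rw [interior_Ico] at hs
        have h1 := (abs_le.1 (hle s hs)).2
        have h2 : 0 < Real.exp (-K * s) := Real.exp_pos _
        nlinarith
    have h1 := hanti ⟨le_rfl, hTpos⟩ ht ht.1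
    simp only [hE0, zero_mul] at h1
    exact nonpos_of_mul_nonpos_left h1 (Real.exp_pos _)
  have hwt : ContDiff ℝ 1 (w t) := contDiff_slice hw.base.contDiffOn_u ht
  have hut : ContDiff ℝ 1 (u t) := contDiff_slice hu.base.contDiffOn_u ht
  have hW : ContDiff ℝ 1 (fun y => w t y - u t y) := hwt.sub hut
  have hper : Periodic3 (fun x => sq3 (w t x - u t x)) := by
    intro i x
    simp only
    rw [hw.base.periodic_u t ht i x, hu.base.periodic_u t ht i x]
  have hz := eq_zero_of_integral_eq_zero hper ((sq3_contDiff (n := 1)).comp hW).continuous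
    (fun x => sq3_nonneg _) hEz
  ext1 x
  exact sub_eq_zero.1 (sq3_eq_zero (hz x))

end Pool.Agent.Y302.Tri
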